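import Pool.Agent.H261R3.LN.Stmts

/-! Task NulUnifN of the project LN: null-homotopies of Lipschitz maps of cubes with a uniform
constant. -/

set_option autoImplicit false

open scoped NNReal

namespace Pool.Agent.H261R3.LN

open Pool.Agent.H261R3.LH (Lip1 IsLNR clip clip_nonneg)

namespace NulUnifH497

lemma clip_le_one (x : ℝ) : clip x ≤ 1 := by
  unfold clip
  exact max_le (by norm_num) (min_le_left _ _)

lemma clip_eq (x : ℝ) (h0 : 0 ≤ x) (h1 : x ≤ 1) : clip x = x := by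
  unfold clip
  rw [min_eq_right h1, max_eq_right h0]

lemma clip_lip (x y : ℝ) : |clip x - clip y| ≤ |x - y| := by
  unfold clip
  refine (abs_max_sub_max_le_max _ _ _ _).trans ?_
  refine max_le (by simp) ?_
  refine (abs_min_sub_min_le_max _ _ _ _).trans ?_
  exact max_le (by simp) le_rfl

/-- coordinatewise clip -/
noncomputable def cv {q : ℕ} (u : Fin q → ℝ) : Fin q → ℝ := fun i => clip (u i)

lemma cv_cube {q : ℕ} (u : Fin q → ℝ) : InCube (cv u) := fun i =>
  ⟨clip_nonneg _, clip_le_one _⟩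

lemma cv_eq {q : ℕ} {u : Fin q → ℝ} (h : InCube u) : cv u = u := by
  funext i
  exact clip_eq _ (h i).1 (h i).2

lemma cv_bd {q : ℕ} {u : Fin q → ℝ} (h : Bd u) : Bd (cv u) := by
  obtain ⟨i, h | h⟩ := h
  · exact ⟨i, Or.inl (by unfold cv; rw [h, clip_eq 0 le_rfl zero_le_one])⟩
  · exact ⟨i, Or.inr (by unfold cv; rw [h, clip_eq 1 zero_le_one le_rfl])⟩

lemma cv_lip {q : ℕ} (u u' : Fin q → ℝ) : dist (cv u) (cv u') ≤ dist u u' := by
  rw [dist_pi_le_iff dist_nonneg]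
  intro i
  rw [Real.dist_eq]
  refine (clip_lip _ _).trans ?_
  rw [← Real.dist_eq]
  exact dist_le_pi_dist u u' i

variable {S : Type} [MetricSpace S]

/-- homotopies of maps of the cube with constant `C` -/
def Hom {q : ℕ} (p : S) (C : ℝ) (l : (Fin q → ℝ) → S) : Prop :=
  ∃ (K : (Fin q → ℝ) → ℝ → S), (∀ t, LipN C (fun u => K u t)) ∧ (∀ u, Lip1 C (fun t => K u t)) ∧
      (∀ u, InCube u → K u 0 = l u) ∧ (∀ u, K u 1 = p) ∧ ∀ u t, Bd u → K u t = p

lemma Lip1_mono {C C' : ℝ} (h : C ≤ C') {f : ℝ → S} (hf : Lip1 C f) : Lip1 C' f := fun x y =>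
  (hf x y).trans (mul_le_mul_of_nonneg_right h (abs_nonneg _))

lemma LipN_mono {q : ℕ} {C C' : ℝ} (h : C ≤ C') {f : (Fin q → ℝ) → S} (hf : LipN C f) :
    LipN C' f := fun x y =>
  (hf x y).trans (mul_le_mul_of_nonneg_right h dist_nonneg)

lemma Hom_mono {q : ℕ} {p : S} {C C' : ℝ} (h : C ≤ C') {l : (Fin q → ℝ) → S} (hl : Hom p C l) :
    Hom p C' l := by
  obtain ⟨K, h1, h2, h3⟩ := hl
  exact ⟨K, fun t => LipN_mono h (h1 t), fun t => Lip1_mono h (h2 t), h3⟩

lemma nonneg_of_Lip1 {C : ℝ} {f : ℝ → S} (h : Lip1 C f) : 0 ≤ C := by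
  have h6 := dist_nonneg.trans (h 0 1)
  simpa using h6

lemma perturb {q m : ℕ} (ι : S → EuclideanSpace ℝ (Fin m)) (r : EuclideanSpace ℝ (Fin m) → S)
    (K : ℝ≥0) (ρ : ℝ) (hι : LipschitzWith K ι)
    (hr : LipschitzOnWith K r (Metric.thickening ρ (Set.range ι))) (hri : ∀ x, r (ι x) = x)
    (p : S) (C ε C0 : ℝ) (hC : 0 ≤ C) (hε : 0 ≤ ε) (hKε : K * ε < ρ) (l l0 : (Fin q → ℝ) → S)
    (hl : LipN C l) (hl0 : LipN C l0) (ha : ∀ u, Bd u → l u = p) (ha0 : ∀ u, Bd u → l0 u = p)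
    (hd : ∀ x, InCube x → dist (l x) (l0 x) ≤ ε) (h : Hom p C0 l0) :
    Hom p (K * (K * (C0 + 2 * C)) + K * (K * C0 + K * ε)) l := by
  obtain ⟨K0, h1, h2, h3, h4, h5⟩ := h
  have hC0 : 0 ≤ C0 := nonneg_of_Lip1 (h2 0)
  have hK : (0 : ℝ) ≤ K := K.2
  let A : (Fin q → ℝ) → ℝ → EuclideanSpace ℝ (Fin m) := fun x t =>
    ι (K0 x t) + (1 - clip t) • (ι (l (cv x)) - ι (l0 (cv x)))
  have hw : ∀ x, ‖ι (l (cv x)) - ι (l0 (cv x))‖ ≤ K * ε := by
    intro x
    rw [← dist_eq_norm]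
    refine (hι.dist_le_mul _ _).trans ?_
    exact mul_le_mul_of_nonneg_left (hd _ (cv_cube x)) hK
  have hc : ∀ t, 0 ≤ 1 - clip t ∧ 1 - clip t ≤ 1 := by
    intro t
    have h6 := clip_nonneg t
    have h7 := clip_le_one t
    constructor <;> linarith
  have hA : ∀ x t, A x t ∈ Metric.thickening ρ (Set.range ι) := by
    intro x t
    rw [Metric.mem_thickening_iff]
    refine ⟨ι (K0 x t), ⟨_, rfl⟩, ?_⟩
    rw [dist_eq_norm]
    have h6 : A x t - ι (K0 x t) = (1 - clip t) • (ι (l (cv x)) - ι (l0 (cv x))) := by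
      simp [A]
    rw [h6, norm_smul, Real.norm_eq_abs, abs_of_nonneg (hc t).1]
    calc (1 - clip t) * ‖ι (l (cv x)) - ι (l0 (cv x))‖
        ≤ 1 * (K * ε) := mul_le_mul (hc t).2 (hw x) (norm_nonneg _) zero_le_one
      _ < ρ := by rw [one_mul]; exact hKε
  have hAr : ∀ x t x' t', dist (r (A x t)) (r (A x' t')) ≤ K * ‖A x t - A x' t'‖ := by
    intro x t x' t'
    rw [← dist_eq_norm]
    exact hr.dist_le_mul _ (hA x t) _ (hA x' t')
  have hιn : ∀ a b : S, ‖ι a - ι b‖ ≤ K * dist a b := by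
    intro a b
    rw [← dist_eq_norm]
    exact hι.dist_le_mul _ _
  have hlc : ∀ (f : (Fin q → ℝ) → S), LipN C f → ∀ x x', ‖ι (f (cv x)) - ι (f (cv x'))‖
      ≤ K * (C * dist x x') := by
    intro f hf x x'
    refine (hιn _ _).trans (mul_le_mul_of_nonneg_left ?_ hK)
    exact (hf _ _).trans (mul_le_mul_of_nonneg_left (cv_lip x x') hC)
  refine ⟨fun x t => r (A x t), ?_, ?_, ?_, ?_, ?_⟩
  · intro t x x'
    refine (hAr x t x' t).trans ?_
    have e : A x t - A x' t = (ι (K0 x t) - ι (K0 x' t))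
        + (1 - clip t) • ((ι (l (cv x)) - ι (l (cv x')))
          - (ι (l0 (cv x)) - ι (l0 (cv x')))) := by
      simp only [A, smul_sub]
      abel
    have n1 : ‖ι (K0 x t) - ι (K0 x' t)‖ ≤ K * (C0 * dist x x') :=
      (hιn _ _).trans (mul_le_mul_of_nonneg_left (h1 t x x') hK)
    have n2 : ‖(ι (l (cv x)) - ι (l (cv x'))) - (ι (l0 (cv x)) - ι (l0 (cv x')))‖
        ≤ K * (C * dist x x') + K * (C * dist x x') :=
      (norm_sub_le _ _).trans (add_le_add (hlc l hl x x') (hlc l0 hl0 x x'))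
    have n3 : ‖A x t - A x' t‖ ≤ K * (C0 + 2 * C) * dist x x' := by
      rw [e]
      refine (norm_add_le _ _).trans ?_
      rw [norm_smul, Real.norm_eq_abs, abs_of_nonneg (hc t).1]
      have n4 : (1 - clip t) * ‖(ι (l (cv x)) - ι (l (cv x')))
          - (ι (l0 (cv x)) - ι (l0 (cv x')))‖
          ≤ 1 * (K * (C * dist x x') + K * (C * dist x x')) :=
        mul_le_mul (hc t).2 n2 (norm_nonneg _) zero_le_one
      calc _ ≤ K * (C0 * dist x x') + 1 * (K * (C * dist x x') + K * (C * dist x x')) :=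
            add_le_add n1 n4
        _ = K * (C0 + 2 * C) * dist x x' := by ring
    calc K * ‖A x t - A x' t‖ ≤ K * (K * (C0 + 2 * C) * dist x x') :=
          mul_le_mul_of_nonneg_left n3 hK
      _ ≤ (K * (K * (C0 + 2 * C)) + K * (K * C0 + K * ε)) * dist x x' := by
          have : 0 ≤ (K * (K * C0 + K * ε) : ℝ) * dist x x' := by positivity
          nlinarith [this]
  · intro x t t'
    refine (hAr x t x t').trans ?_
    have e : A x t - A x t' = (ι (K0 x t) - ι (K0 x t'))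
        + (clip t' - clip t) • (ι (l (cv x)) - ι (l0 (cv x))) := by
      simp only [A, sub_smul, smul_sub, one_smul]
      abel
    have n1 : ‖ι (K0 x t) - ι (K0 x t')‖ ≤ K * (C0 * |t - t'|) :=
      (hιn _ _).trans (mul_le_mul_of_nonneg_left (h2 x t t') hK)
    have n3 : ‖A x t - A x t'‖ ≤ (K * C0 + K * ε) * |t - t'| := by
      rw [e]
      refine (norm_add_le _ _).trans ?_
      rw [norm_smul, Real.norm_eq_abs, abs_sub_comm (clip t') (clip t)]
      have n4 : |clip t - clip t'| * ‖ι (l (cv x)) - ι (l0 (cv x))‖ ≤ |t - t'| * (K * ε) :=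
        mul_le_mul (clip_lip t t') (hw x) (norm_nonneg _) (abs_nonneg _)
      calc _ ≤ K * (C0 * |t - t'|) + |t - t'| * (K * ε) := add_le_add n1 n4
        _ = (K * C0 + K * ε) * |t - t'| := by ring
    calc K * ‖A x t - A x t'‖ ≤ K * ((K * C0 + K * ε) * |t - t'|) :=
          mul_le_mul_of_nonneg_left n3 hK
      _ ≤ (K * (K * (C0 + 2 * C)) + K * (K * C0 + K * ε)) * |t - t'| := by
          have : 0 ≤ (K * (K * (C0 + 2 * C)) : ℝ) * |t - t'| := by positivity
          nlinarith [this]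
  · intro x hx
    show r (A x 0) = l x
    have : A x 0 = ι (l x) := by
      simp only [A]
      rw [clip_eq 0 le_rfl zero_le_one, cv_eq hx, h3 x hx]
      simp
    rw [this, hri]
  · intro x
    show r (A x 1) = p
    have : A x 1 = ι p := by
      simp only [A]
      rw [clip_eq 1 zero_le_one le_rfl, h4]
      simp
    rw [this, hri]
  · intro x t hx
    show r (A x t) = p
    have : A x t = ι p := by
      simp only [A]
      rw [h5 x t hx, ha _ (cv_bd hx), ha0 _ (cv_bd hx)]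
      simp
    rw [this, hri]

/-- grid points -/
noncomputable def gp {q N : ℕ} (i : Fin q → Fin (N + 1)) : Fin q → ℝ := fun j => ((i j : ℕ) : ℝ) / N

/-- two maps with the same code are close -/
lemma close_of_code {q : ℕ} (C δ : ℝ) (hC : 0 ≤ C) (N : ℕ) (hN : 0 < N)
    (c : (Fin q → Fin (N + 1)) → S)
    (l l' : (Fin q → ℝ) → S) (hl : LipN C l) (hl' : LipN C l')
    (h1 : ∀ i : Fin q → Fin (N + 1), dist (l (gp i)) (c i) ≤ δ)
    (h2 : ∀ i : Fin q → Fin (N + 1), dist (l' (gp i)) (c i) ≤ δ)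
    (x : Fin q → ℝ) (hx : InCube x) : dist (l x) (l' x) ≤ 2 * δ + 2 * (C / N) := by
  have hN' : (0 : ℝ) < N := by exact_mod_cast hN
  have hi : ∀ j, ⌊x j * N⌋₊ < N + 1 := by
    intro j
    have : x j * N ≤ N := by nlinarith [(hx j).2]
    have h3 : ⌊x j * N⌋₊ ≤ ⌊(N : ℝ)⌋₊ := Nat.floor_mono this
    rw [Nat.floor_natCast] at h3
    omega
  set i : Fin q → Fin (N + 1) := fun j => ⟨⌊x j * N⌋₊, hi j⟩ with hidef
  have hxi : dist x (gp i) ≤ 1 / N := by
    rw [dist_pi_le_iff (by positivity)]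
    intro j
    rw [Real.dist_eq]
    have a1 : (⌊x j * N⌋₊ : ℝ) ≤ x j * N := Nat.floor_le (mul_nonneg (hx j).1 hN'.le)
    have a2 : x j * N < (⌊x j * N⌋₊ : ℝ) + 1 := Nat.lt_floor_add_one _
    have e : x j - gp i j = (x j * N - ⌊x j * N⌋₊) / N := by
      simp only [gp, hidef]
      field_simp
    rw [e, abs_of_nonneg (div_nonneg (by linarith) hN'.le)]
    exact div_le_div_of_nonneg_right (by linarith) hN'.le
  have b : ∀ f : (Fin q → ℝ) → S, LipN C f → dist (f x) (f (gp i)) ≤ C / N := by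
    intro f hf
    refine (hf _ _).trans ?_
    calc C * dist x (gp i) ≤ C * (1 / N) := mul_le_mul_of_nonneg_left hxi hC
      _ = C / N := by ring
  have b1 := b l hl
  have b2 := b l' hl'
  have c1 := h1 i
  have c2 := h2 i
  have t1 := dist_triangle (l x) (l (gp i)) (l' x)
  have t2 := dist_triangle (l (gp i)) (c i) (l' x)
  have t3 := dist_triangle (c i) (l' (gp i)) (l' x)
  rw [dist_comm (l' x)] at b2
  rw [dist_comm (l' (gp i))] at c2
  linarith

end NulUnifH497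

open NulUnifH497 in
theorem taskNulUnifN : TaskNulUnifN := by
  intro hone S _ _ hS q p hsub C₁
  set C : ℝ := max C₁ 0 with hCdef
  have hC : 0 ≤ C := le_max_right _ _
  obtain ⟨m, ι, r, K, ρ, hρ, hι, hr, hri⟩ := id hS
  have hK : (0 : ℝ) ≤ K := K.2
  -- the constants
  obtain ⟨ε, hε, hKε⟩ : ∃ ε : ℝ, 0 < ε ∧ K * ε < ρ := by
    refine ⟨ρ / (2 * (K + 1)), by positivity, ?_⟩
    rw [← mul_div_assoc, div_lt_iff₀ (by positivity)]
    nlinarith
  obtain ⟨N, hN⟩ := exists_nat_gt (4 * C / ε)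
  have hNpos : 0 < N := by
    have : (0 : ℝ) < N := lt_of_le_of_lt (by positivity) hN
    exact_mod_cast this
  have hN' : (0 : ℝ) < N := by exact_mod_cast hNpos
  have hCN : C / N ≤ ε / 4 := by
    rw [div_lt_iff₀ hε] at hN
    rw [div_le_iff₀ hN']
    nlinarith
  -- finite net
  obtain ⟨T, hTf, hT⟩ := Metric.totallyBounded_iff.mp (isCompact_univ (X := S)).totallyBounded (ε / 4)
    (by positivity)
  have hTfin : Finite T := hTf
  have key : ∀ c : (Fin q → Fin (N + 1)) → T, ∃ C1 : ℝ, 0 ≤ C1 ∧ ∀ l : (Fin q → ℝ) → S, LipN C l →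
      (∀ u, Bd u → l u = p) →
      (∀ i : Fin q → Fin (N + 1), dist (l (gp i)) (c i).1 ≤ ε / 4) → Hom p C1 l := by
    intro c
    by_cases hex : ∃ l0 : (Fin q → ℝ) → S, LipN C l0 ∧ (∀ u, Bd u → l0 u = p) ∧
      (∀ i : Fin q → Fin (N + 1), dist (l0 (gp i)) (c i).1 ≤ ε / 4)
    · obtain ⟨l0, k1, k2, k4⟩ := hex
      obtain ⟨C0, K0, hK0⟩ := hone S hS q p hsub C l0 k1 k2
      have hC0 : 0 ≤ C0 := nonneg_of_Lip1 (hK0.2.1 0)
      refine ⟨K * (K * (C0 + 2 * C)) + K * (K * C0 + K * ε), by positivity, ?_⟩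
      intro l hl ha hco
      refine perturb ι r K ρ hι hr hri p C ε C0 hC hε.le hKε l l0 hl k1 ha k2 ?_ ⟨K0, hK0⟩
      intro x hx
      have := close_of_code C (ε / 4) hC N hNpos (fun i => (c i).1) l l0 hl k1 hco k4 x hx
      linarith
    · refine ⟨0, le_rfl, ?_⟩
      intro l hl ha hco
      exact absurd ⟨l, hl, ha, hco⟩ hex
  choose C1 hC1 hC1' using key
  have : Fintype ((Fin q → Fin (N + 1)) → T) := Fintype.ofFinite _
  refine ⟨∑ c, C1 c, Finset.sum_nonneg (fun c _ => hC1 c), ?_⟩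
  intro f _ hf hbd
  have hl : LipN C (fun u => f 0 u) := LipN_mono (le_max_left _ _) (hf 0)
  have hcode : ∀ i : Fin q → Fin (N + 1), ∃ y : T, dist (f 0 (gp i)) y.1 ≤ ε / 4 := by
    intro i
    have := hT (Set.mem_univ (f 0 (gp i)))
    simp only [Set.mem_iUnion, Metric.mem_ball] at this
    obtain ⟨y, hy, hy'⟩ := this
    exact ⟨⟨y, hy⟩, hy'.le⟩
  choose c hc using hcode
  have h1 := hC1' c (fun u => f 0 u) hl (fun u hu => hbd 0 u hu) hc
  obtain ⟨Kf, k1, k2, k3, k4, k5⟩ :=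
    Hom_mono (Finset.single_le_sum (f := C1) (fun c _ => hC1 c) (Finset.mem_univ c)) h1
  refine ⟨fun t _ u => Kf u t, ⟨?_, ?_, ?_, ?_, ?_⟩, ?_⟩
  · intro t u x y
    have hxy : x = y := Subsingleton.elim _ _
    subst hxy
    simp
  · intro t x
    exact k1 t
  · intro x u
    exact k2 u
  · intro t x u hu
    exact k5 u t hu
  · intro x u hu
    have hx0 : x = 0 := Subsingleton.elim _ _
    subst hx0
    exact k3 u hu
  · intro x u
    exact k4 u

end Pool.Agent.H261R3.LN
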