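import Pool.Agent.H487R3.Cau.Stmts

set_option autoImplicit false

open MeasureTheory Filter Set Topology
open scoped ENNReal NNReal

namespace Pool.Agent.H497R3.CauTail

/-- Dyadic decomposition of the tail integral. -/
theorem tail_le (t : ℝ) (g : ℝ → ℝ≥0∞) (hg : AEMeasurable g) (A : ℝ≥0∞) (r₀ : ℝ) (hr₀ : 0 < r₀)
    (hA : ∀ r, 0 < r → r ≤ r₀ → ∫⁻ s in Metric.closedBall t r, g s ≤ A * ENNReal.ofReal (2 * r))
    (ε : ℝ) (hε : 0 < ε) :
    ∫⁻ s in {s : ℝ | ε < |s - t|}, g s * ENNReal.ofReal (ε / (s - t) ^ 2) ≤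
      8 * A + ENNReal.ofReal (ε / r₀ ^ 2) * ∫⁻ s, g s := by
  set q : ℕ → ℝ := fun k => min (2 ^ (k + 1) * ε) r₀ with hq
  set F : ℕ → ℝ → ℝ≥0∞ := fun k => (Metric.closedBall t (q k)).indicator
    (fun s => ENNReal.ofReal ((4 : ℝ)⁻¹ ^ k / ε) * g s) with hF
  have hpt : ∀ s ∈ {s : ℝ | ε < |s - t|}, g s * ENNReal.ofReal (ε / (s - t) ^ 2) ≤
      (∑' k, F k s) + ENNReal.ofReal (ε / r₀ ^ 2) * g s := by
    intro s hs
    have hs' : ε < |s - t| := hs
    by_cases h : |s - t| ≤ r₀
    · have h1 : 1 ≤ |s - t| / ε := by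
        rw [one_le_div hε]
        exact hs'.le
      obtain ⟨k, hk1, hk2⟩ := exists_nat_pow_near h1 (by norm_num : (1 : ℝ) < 2)
      rw [le_div_iff₀ hε] at hk1
      rw [div_lt_iff₀ hε] at hk2
      have hmem : s ∈ Metric.closedBall t (q k) := by
        rw [Metric.mem_closedBall, Real.dist_eq]
        exact le_min hk2.le h
      have h2 : F k s = ENNReal.ofReal ((4 : ℝ)⁻¹ ^ k / ε) * g s := by
        simp only [hF]
        rw [indicator_of_mem hmem]
      have h3 : ε / (s - t) ^ 2 ≤ (4 : ℝ)⁻¹ ^ k / ε := by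
        have h4 : (4 : ℝ) ^ k * ε ^ 2 ≤ (s - t) ^ 2 := by
          calc (4 : ℝ) ^ k * ε ^ 2 = (2 ^ k * ε) ^ 2 := by
                rw [mul_pow, ← pow_mul, mul_comm k 2, pow_mul]
                norm_num
            _ ≤ |s - t| ^ 2 := by
                apply pow_le_pow_left₀ (by positivity) hk1
            _ = (s - t) ^ 2 := sq_abs _
        have h5 : 0 < (4 : ℝ) ^ k * ε ^ 2 := by positivity
        calc ε / (s - t) ^ 2 ≤ ε / ((4 : ℝ) ^ k * ε ^ 2) :=
              div_le_div_of_nonneg_left hε.le h5 h4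
          _ = (4 : ℝ)⁻¹ ^ k / ε := by
              rw [inv_pow]
              field_simp
      calc g s * ENNReal.ofReal (ε / (s - t) ^ 2)
          ≤ g s * ENNReal.ofReal ((4 : ℝ)⁻¹ ^ k / ε) := by
            gcongr
        _ = F k s := by rw [h2, mul_comm]
        _ ≤ ∑' k, F k s := ENNReal.le_tsum k
        _ ≤ _ := le_self_add
    · rw [not_le] at h
      have h3 : ε / (s - t) ^ 2 ≤ ε / r₀ ^ 2 := by
        apply div_le_div_of_nonneg_left hε.le (by positivity)
        calc r₀ ^ 2 ≤ |s - t| ^ 2 := pow_le_pow_left₀ hr₀.le h.le 2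
          _ = (s - t) ^ 2 := sq_abs _
      calc g s * ENNReal.ofReal (ε / (s - t) ^ 2) ≤ g s * ENNReal.ofReal (ε / r₀ ^ 2) := by
            gcongr
        _ = ENNReal.ofReal (ε / r₀ ^ 2) * g s := mul_comm _ _
        _ ≤ _ := le_add_self
  have hmeas : MeasurableSet {s : ℝ | ε < |s - t|} :=
    measurableSet_lt measurable_const (by fun_prop)
  calc ∫⁻ s in {s : ℝ | ε < |s - t|}, g s * ENNReal.ofReal (ε / (s - t) ^ 2)
      ≤ ∫⁻ s in {s : ℝ | ε < |s - t|}, ((∑' k, F k s) + ENNReal.ofReal (ε / r₀ ^ 2) * g s) :=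
        setLIntegral_mono' hmeas hpt
    _ ≤ ∫⁻ s, ((∑' k, F k s) + ENNReal.ofReal (ε / r₀ ^ 2) * g s) := setLIntegral_le_lintegral _ _
    _ = (∫⁻ s, ∑' k, F k s) + ∫⁻ s, ENNReal.ofReal (ε / r₀ ^ 2) * g s :=
        lintegral_add_right' _ (hg.const_mul _)
    _ = (∑' k, ∫⁻ s, F k s) + ENNReal.ofReal (ε / r₀ ^ 2) * ∫⁻ s, g s := by
        rw [lintegral_tsum, lintegral_const_mul'' _ hg]
        intro k
        exact (hg.const_mul _).indicator Metric.isClosed_closedBall.measurableSet
    _ ≤ 8 * A + ENNReal.ofReal (ε / r₀ ^ 2) * ∫⁻ s, g s := by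
        gcongr
        calc ∑' k, ∫⁻ s, F k s ≤ ∑' k : ℕ, ENNReal.ofReal (4 * (2 : ℝ)⁻¹ ^ k) * A := by
              apply ENNReal.tsum_le_tsum
              intro k
              simp only [hF]
              rw [lintegral_indicator Metric.isClosed_closedBall.measurableSet,
                lintegral_const_mul'' _ hg.restrict]
              have hqpos : 0 < q k := lt_min (by positivity) hr₀
              calc ENNReal.ofReal ((4 : ℝ)⁻¹ ^ k / ε) *
                    ∫⁻ s in Metric.closedBall t (q k), g s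
                  ≤ ENNReal.ofReal ((4 : ℝ)⁻¹ ^ k / ε) * (A * ENNReal.ofReal (2 * q k)) := by
                    gcongr
                    exact hA _ hqpos (min_le_right _ _)
                _ ≤ ENNReal.ofReal ((4 : ℝ)⁻¹ ^ k / ε) *
                    (A * ENNReal.ofReal (2 * (2 ^ (k + 1) * ε))) := by
                    gcongr
                    exact min_le_left _ _
                _ = (ENNReal.ofReal ((4 : ℝ)⁻¹ ^ k / ε) *
                    ENNReal.ofReal (2 * (2 ^ (k + 1) * ε))) * A := by ring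
                _ = ENNReal.ofReal (4 * (2 : ℝ)⁻¹ ^ k) * A := by
                    congr 1
                    rw [← ENNReal.ofReal_mul (by positivity)]
                    congr 1
                    have h4 : (4 : ℝ) ^ k = 2 ^ k * 2 ^ k := by
                      rw [← mul_pow]
                      norm_num
                    rw [inv_pow, inv_pow, h4, pow_succ]
                    field_simp
                    ring
          _ = (∑' k : ℕ, ENNReal.ofReal (4 * (2 : ℝ)⁻¹ ^ k)) * A := ENNReal.tsum_mul_right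
          _ = 8 * A := by
              congr 1
              rw [← ENNReal.ofReal_tsum_of_nonneg (fun k => by positivity)
                ((summable_geometric_of_lt_one (by norm_num) (by norm_num)).mul_left 4),
                tsum_mul_left, tsum_geometric_of_lt_one (by norm_num) (by norm_num)]
              norm_num

theorem taskTail : Pool.Agent.H487R3.Cau.TaskTail := by
  intro f hf
  have hLeb := (IsUnifLocDoublingMeasure.vitaliFamily (volume : Measure ℝ)
    1).ae_tendsto_lintegral_enorm_sub_div hf.locallyIntegrable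
  filter_upwards [hLeb] with t ht
  have hball : Tendsto (fun r : ℝ => Metric.closedBall t r) (𝓝[>] (0 : ℝ))
      ((IsUnifLocDoublingMeasure.vitaliFamily (volume : Measure ℝ) 1).filterAt t) := by
    refine IsUnifLocDoublingMeasure.tendsto_closedBall_filterAt (volume : Measure ℝ)
      (fun _ : ℝ => t) (fun r : ℝ => r) tendsto_id ?_
    filter_upwards [self_mem_nhdsWithin] with r hr
    apply Metric.mem_closedBall_self
    rw [one_mul]
    exact (mem_Ioi.mp hr).le
  have hlim := ht.comp hball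
  have hkey : ∀ η : ℝ≥0, 0 < η →
      limsup (fun ε : ℝ => ∫⁻ s in {s : ℝ | ε < |s - t|},
        ‖f s‖ₑ * ENNReal.ofReal (ε / (s - t) ^ 2)) (𝓝[>] (0 : ℝ)) ≤ 8 * (‖f t‖ₑ + η) := by
    intro η hη
    have hη' : (0 : ℝ≥0∞) < (η : ℝ≥0∞) := by exact_mod_cast hη
    have hev := (tendsto_order.1 hlim).2 _ hη'
    rw [eventually_nhdsWithin_iff, Metric.eventually_nhds_iff] at hev
    obtain ⟨r₁, hr₁, hev⟩ := hev
    have hA : ∀ r, 0 < r → r ≤ r₁ / 2 →
        ∫⁻ s in Metric.closedBall t r, ‖f s‖ₑ ≤ (‖f t‖ₑ + η) * ENNReal.ofReal (2 * r) := by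
      intro r hr hr2
      have h1 := hev (y := r) (by
        rw [Real.dist_eq, sub_zero, abs_of_pos hr]
        linarith) hr
      simp only [Function.comp_apply] at h1
      have hvol : (volume : Measure ℝ) (Metric.closedBall t r) = ENNReal.ofReal (2 * r) :=
        Real.volume_closedBall _ _
      rw [hvol] at h1
      have h2 : ∫⁻ s in Metric.closedBall t r, ‖f s - f t‖ₑ ≤ η * ENNReal.ofReal (2 * r) := by
        rw [← ENNReal.div_le_iff (by
          rw [ne_eq, ENNReal.ofReal_eq_zero, not_le]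
          positivity) ENNReal.ofReal_ne_top]
        exact h1.le
      calc ∫⁻ s in Metric.closedBall t r, ‖f s‖ₑ
          ≤ ∫⁻ s in Metric.closedBall t r, (‖f s - f t‖ₑ + ‖f t‖ₑ) := by
            apply lintegral_mono
            intro s
            calc ‖f s‖ₑ = ‖(f s - f t) + f t‖ₑ := by rw [sub_add_cancel]
              _ ≤ _ := enorm_add_le _ _
        _ = (∫⁻ s in Metric.closedBall t r, ‖f s - f t‖ₑ) +
              ‖f t‖ₑ * ENNReal.ofReal (2 * r) := by
            rw [lintegral_add_right _ measurable_const, setLIntegral_const, hvol]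
        _ ≤ η * ENNReal.ofReal (2 * r) + ‖f t‖ₑ * ENNReal.ofReal (2 * r) := by gcongr
        _ = (‖f t‖ₑ + η) * ENNReal.ofReal (2 * r) := by ring
    have hr₁' : 0 < r₁ / 2 := by positivity
    have hbound := tail_le t (fun s => ‖f s‖ₑ) hf.aestronglyMeasurable.enorm (‖f t‖ₑ + η)
      (r₁ / 2) hr₁' hA
    have htend : Tendsto (fun ε : ℝ => 8 * (‖f t‖ₑ + η) +
        ENNReal.ofReal (ε / (r₁ / 2) ^ 2) * ∫⁻ s, ‖f s‖ₑ) (𝓝[>] (0 : ℝ))
        (𝓝 (8 * (‖f t‖ₑ + η) + 0 * ∫⁻ s, ‖f s‖ₑ)) := by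
      refine Tendsto.add tendsto_const_nhds ?_
      refine ENNReal.Tendsto.mul_const ?_ (Or.inr ?_)
      · have h1 : Tendsto (fun ε : ℝ => ε / (r₁ / 2) ^ 2) (𝓝[>] (0 : ℝ)) (𝓝 0) := by
          have h2 : Tendsto (fun ε : ℝ => ε / (r₁ / 2) ^ 2) (𝓝 (0 : ℝ)) (𝓝 (0 / (r₁ / 2) ^ 2)) :=
            tendsto_id.div_const _
          rw [zero_div] at h2
          exact h2.mono_left nhdsWithin_le_nhds
        have h3 := ENNReal.tendsto_ofReal h1
        rwa [ENNReal.ofReal_zero] at h3
      · exact hf.hasFiniteIntegral.ne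
    rw [zero_mul, add_zero] at htend
    rw [← htend.limsup_eq]
    refine limsup_le_limsup ?_
    filter_upwards [self_mem_nhdsWithin] with ε hε
    exact hbound ε hε
  refine le_trans (b := 8 * ‖f t‖ₑ) ?_ (by gcongr; norm_num)
  apply ENNReal.le_of_forall_pos_le_add
  intro η hη _
  have h8 : (0 : ℝ≥0) < η / 8 := by positivity
  refine (hkey (η / 8) h8).trans ?_
  rw [mul_add]
  gcongr
  have : (8 : ℝ≥0∞) * ((η / 8 : ℝ≥0) : ℝ≥0∞) = η := by
    have h9 : ((8 * (η / 8) : ℝ≥0) : ℝ≥0∞) = (η : ℝ≥0∞) := by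
      congr 1
      field_simp
    rw [← h9, ENNReal.coe_mul]
    rfl
  exact this.le

end Pool.Agent.H497R3.CauTail
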