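import Mathlib

set_option autoImplicit false
open MeasureTheory ProbabilityTheory Filter Topology
open scoped ENNReal

namespace Pool.Agent.H497R3.Coding

variable {T : Type} [MeasurableSpace T]

/-- law of the i.i.d. process with marginal `ν`, indexed by the integers -/
noncomputable def iidLaw (ν : Measure T) : Measure (ℤ → T) := Measure.infinitePi (fun _ : ℤ => ν)

instance (ν : Measure T) [IsProbabilityMeasure ν] : IsProbabilityMeasure (iidLaw ν) := by
  unfold iidLaw; infer_instance

/-- shift by `k` -/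
def shift {A : Type} (k : ℤ) (y : ℤ → A) : ℤ → A := fun i => y (i + k)

theorem measurable_shift (k : ℤ) : Measurable (shift k : (ℤ → T) → ℤ → T) :=
  measurable_pi_lambda _ fun _ => measurable_pi_apply _

theorem mp_shift (ν : Measure T) [IsProbabilityMeasure ν] (k : ℤ) :
    MeasurePreserving (shift k) (iidLaw ν) (iidLaw ν) := by
  refine ⟨measurable_shift k, ?_⟩
  exact Measure.map_infinitePi_infinitePi_of_inj (P := fun _ : ℤ => ν)
    (f := fun x : ℤ => x + k) (fun a b h => by simpa using h)

theorem measurable_mass [MeasurableSingletonClass T] (ν : Measure T) [IsProbabilityMeasure ν] :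
    Measurable (fun y => ν {y}) := by
  have hc : Set.Countable {y : T | 0 < ν {y}} := by
    have := Measure.countable_meas_level_set_pos (μ := ν) (g := (id : T → T)) measurable_id
    simpa using this
  intro s _
  have : (fun y => ν {y}) ⁻¹' s = ({y : T | 0 < ν {y}} ∩ (fun y => ν {y}) ⁻¹' s) ∪
      ({y : T | 0 < ν {y}}ᶜ ∩ {y | (0:ℝ≥0∞) ∈ s}) := by
    ext y
    by_cases h : 0 < ν {y}
    · simp [h]
    · have h' : ν {y} = 0 := le_antisymm (not_lt.mp h) zero_le
      simp [h']
  rw [this]
  refine MeasurableSet.union (hc.mono Set.inter_subset_left).measurableSet ?_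
  refine hc.measurableSet.compl.inter ?_
  exact MeasurableSet.const _

/-- the coding event: the value at the origin is determined (on `D`) by the window `[-r,r]` -/
def Det {S : Type} (D : Set (ℤ → T)) (φ : (ℤ → T) → ℤ → S) (r : ℕ) : Set (ℤ → T) :=
  {y | ∀ y' ∈ D, (∀ i : ℤ, |i| ≤ (r:ℤ) → y' i = y i) → φ y' 0 = φ y 0}

/-- goodness at level `L` of the block `[0, N)` -/
def Good {S : Type} (D : Set (ℤ → T)) (φ : (ℤ → T) → ℤ → S) (N L : ℕ) : Set (ℤ → T) :=
  {y | ∀ i : ℕ, L ≤ i → i + L < N → shift (i:ℤ) y ∈ Det D φ (min i (N - 1 - i))}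

theorem cyl_mass [MeasurableSingletonClass T] (ν : Measure T) [IsProbabilityMeasure ν]
    (y : ℤ → T) (N : ℕ) :
    iidLaw ν {y' | ∀ i : ℕ, i < N → y' i = y i} = ∏ i ∈ Finset.range N, ν {y i} := by
  let s : Finset ℤ := (Finset.range N).image (fun i : ℕ => (i:ℤ))
  have h1 : {y' : ℤ → T | ∀ i : ℕ, i < N → y' i = y i} =
      Set.pi (s : Set ℤ) (fun i => {y i}) := by
    ext y'
    simp [s, Set.mem_pi]
  rw [h1]
  unfold iidLaw
  rw [Measure.infinitePi_pi _ (fun i _ => measurableSet_singleton _)]
  simp only [s]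
  rw [Finset.prod_image (fun a _ b _ h => by simpa using h)]

/-- on a good configuration the mass of the block is at most the maximal probability of a word -/
theorem good_bound {S : Type} [MeasurableSingletonClass T] (ν : Measure T)
    [IsProbabilityMeasure ν] (D : Set (ℤ → T)) (hD : iidLaw ν Dᶜ = 0)
    (φ : (ℤ → T) → ℤ → S)
    (hshift : ∀ᵐ y ∂(iidLaw ν), ∀ k : ℤ, φ (shift k y) = shift k (φ y))
    (h C₀ : ℝ) (hC₀ : 1 ≤ C₀)
    (hword : ∀ (a : ℤ) (n : ℕ) (w : Fin (n+1) → S),
      iidLaw ν {y | ∀ i : Fin (n+1), φ y (a + (i : ℕ)) = w i} ≤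
        ENNReal.ofReal (C₀ * Real.exp (-(h * (n+1)))))
    (hh : 0 ≤ h) (N L : ℕ) (y : ℤ → T) (hy : y ∈ Good D φ N L) :
    (∏ i ∈ Finset.range N, ν {y i}) ≤
      ENNReal.ofReal (C₀ * Real.exp (-(h * N)) * Real.exp (2 * h * L)) := by
  by_cases hNL : N ≤ 2 * L
  · calc (∏ i ∈ Finset.range N, ν {y i}) ≤ 1 :=
          Finset.prod_le_one' (fun _ _ => prob_le_one)
      _ = ENNReal.ofReal 1 := by simp
      _ ≤ _ := by
        apply ENNReal.ofReal_le_ofReal
        rw [mul_assoc, ← Real.exp_add]
        have h1 : (0:ℝ) ≤ -(h * N) + 2 * h * L := by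
          have : (N:ℝ) ≤ 2 * L := by exact_mod_cast hNL
          nlinarith
        have h2 := Real.one_le_exp h1
        nlinarith
  · push Not at hNL
    obtain ⟨n, hn⟩ : ∃ n, N = n + 1 + 2 * L := ⟨N - 1 - 2 * L, by omega⟩
    rw [← cyl_mass]
    have hsub : ∀ᵐ y' ∂(iidLaw ν), y' ∈ {y' : ℤ → T | ∀ i : ℕ, i < N → y' i = y i} →
        y' ∈ {y' : ℤ → T | ∀ i : Fin (n+1), φ y' ((L:ℤ) + (i : ℕ)) =
          φ (shift ((L + (i:ℕ) : ℕ) : ℤ) y) 0} := by
      have hDs : ∀ᵐ y' ∂(iidLaw ν), ∀ k : ℤ, shift k y' ∈ D := by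
        rw [ae_all_iff]
        intro k
        have : ∀ᵐ y' ∂(iidLaw ν), y' ∈ D := by
          rw [ae_iff]; exact hD
        exact (mp_shift ν k).quasiMeasurePreserving.ae this
      filter_upwards [hshift, hDs] with y' h1 h2 h3
      intro i
      have hi := i.2
      have h4 := hy (L + (i:ℕ)) (by omega) (by omega)
      have h5 := h4 (shift ((L + (i:ℕ) : ℕ) : ℤ) y') (h2 _) (by
        intro j hj
        simp only [shift]
        have hj' := abs_le.mp hj
        have h6 : ((min (L + (i:ℕ)) (N - 1 - (L + (i:ℕ))) : ℕ) : ℤ) ≤ ((L + (i:ℕ) : ℕ) : ℤ) := by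
          exact_mod_cast min_le_left _ _
        have h7 : ((min (L + (i:ℕ)) (N - 1 - (L + (i:ℕ))) : ℕ) : ℤ) ≤
            ((N - 1 - (L + (i:ℕ)) : ℕ) : ℤ) := by
          exact_mod_cast min_le_right _ _
        obtain ⟨l, hl⟩ : ∃ l : ℕ, j + ((L + (i:ℕ) : ℕ) : ℤ) = l :=
          ⟨(j + ((L + (i:ℕ) : ℕ) : ℤ)).toNat, by omega⟩
        rw [hl]
        exact h3 l (by omega))
      rw [← h5, h1]
      simp only [shift]
      congr 1
      push_cast
      ring
    refine (measure_mono_ae (show {y' : ℤ → T | ∀ i : ℕ, i < N → y' i = y i} ≤ᵐ[iidLaw ν]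
      {y' : ℤ → T | ∀ i : Fin (n+1), φ y' ((L:ℤ) + (i : ℕ)) =
          φ (shift ((L + (i:ℕ) : ℕ) : ℤ) y) 0} from hsub)).trans ?_
    refine (hword L n (fun i => φ (shift ((L + (i:ℕ) : ℕ) : ℤ) y) 0)).trans ?_
    apply ENNReal.ofReal_le_ofReal
    rw [mul_assoc, ← Real.exp_add]
    apply mul_le_mul_of_nonneg_left _ (by linarith)
    apply Real.exp_le_exp.mpr
    rw [hn]
    push_cast
    nlinarith

/-- probability of not being good -/
theorem notGood_le {S : Type} (ν : Measure T) [IsProbabilityMeasure ν] (D : Set (ℤ → T))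
    (φ : (ℤ → T) → ℤ → S) (C c : ℝ) (hC : 0 ≤ C) (hc : 0 < c)
    (htail : ∀ r : ℕ, iidLaw ν (Det D φ r)ᶜ ≤ ENNReal.ofReal (C * Real.exp (-(c * r))))
    (N L : ℕ) : iidLaw ν (Good D φ N L)ᶜ ≤
      ENNReal.ofReal (2 * C / (1 - Real.exp (-c)) * Real.exp (-(c * L))) := by
  have he : 0 < 1 - Real.exp (-c) := by
    have : Real.exp (-c) < 1 := by
      rw [Real.exp_lt_one_iff]; linarith
    linarith
  have hsub : (Good D φ N L)ᶜ ⊆ ⋃ i ∈ (Finset.range N).filter (fun i => L ≤ i ∧ i + L < N),
      shift (i:ℤ) ⁻¹' (Det D φ (min i (N - 1 - i)))ᶜ := by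
    intro y hy
    simp only [Good, Set.mem_compl_iff, Set.mem_setOf_eq, not_forall] at hy
    obtain ⟨i, h1, h2, h3⟩ := hy
    simp only [Set.mem_iUnion, Finset.mem_filter, Finset.mem_range, Set.mem_preimage,
      Set.mem_compl_iff]
    exact ⟨i, ⟨by omega, h1, h2⟩, h3⟩
  have hpre : ∀ (k : ℤ) (s : Set (ℤ → T)), iidLaw ν (shift k ⁻¹' s) ≤ iidLaw ν s := by
    intro k s
    calc iidLaw ν (shift k ⁻¹' s) ≤ iidLaw ν (shift k ⁻¹' (toMeasurable (iidLaw ν) s)) :=
          measure_mono (Set.preimage_mono (subset_toMeasurable _ _))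
      _ = iidLaw ν (toMeasurable (iidLaw ν) s) :=
          (mp_shift ν k).measure_preimage (measurableSet_toMeasurable _ _).nullMeasurableSet
      _ = iidLaw ν s := measure_toMeasurable _
  calc iidLaw ν (Good D φ N L)ᶜ
      ≤ ∑ i ∈ (Finset.range N).filter (fun i => L ≤ i ∧ i + L < N),
        iidLaw ν (shift (i:ℤ) ⁻¹' (Det D φ (min i (N - 1 - i)))ᶜ) :=
        (measure_mono hsub).trans (measure_biUnion_finset_le _ _)
    _ ≤ ∑ i ∈ (Finset.range N).filter (fun i => L ≤ i ∧ i + L < N),
        ENNReal.ofReal (C * Real.exp (-(c * ((min i (N - 1 - i) : ℕ) : ℝ)))) :=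
        Finset.sum_le_sum fun i _ => (hpre _ _).trans (htail _)
    _ = ENNReal.ofReal (∑ i ∈ (Finset.range N).filter (fun i => L ≤ i ∧ i + L < N),
        (C * Real.exp (-(c * ((min i (N - 1 - i) : ℕ) : ℝ))))) := by
        rw [ENNReal.ofReal_sum_of_nonneg]
        intro i _; positivity
    _ ≤ _ := by
        apply ENNReal.ofReal_le_ofReal
        have hgeo : ∀ (M : ℕ), ∑ i ∈ Finset.range M, Real.exp (-(c * ((L + i : ℕ) : ℝ))) ≤
            Real.exp (-(c * L)) / (1 - Real.exp (-c)) := by
          intro M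
          have h1 : ∀ i : ℕ, Real.exp (-(c * ((L + i : ℕ) : ℝ))) =
              Real.exp (-(c * L)) * (Real.exp (-c)) ^ i := by
            intro i
            rw [← Real.exp_nat_mul, ← Real.exp_add]
            congr 1
            push_cast
            ring
          simp only [h1]
          rw [← Finset.mul_sum, div_eq_mul_inv]
          apply mul_le_mul_of_nonneg_left _ (Real.exp_pos _).le
          have hlt : Real.exp (-c) < 1 := by linarith
          rw [← tsum_geometric_of_lt_one (Real.exp_pos _).le hlt]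
          exact (summable_geometric_of_lt_one (Real.exp_pos _).le hlt).sum_le_tsum _
            (fun i _ => pow_nonneg (Real.exp_pos _).le _)
        have hterm : ∀ i ∈ (Finset.range N).filter (fun i => L ≤ i ∧ i + L < N),
            C * Real.exp (-(c * ((min i (N - 1 - i) : ℕ) : ℝ))) ≤
            C * (Real.exp (-(c * (i:ℝ))) + Real.exp (-(c * ((N - 1 - i : ℕ) : ℝ)))) := by
          intro i _
          apply mul_le_mul_of_nonneg_left _ hC
          rcases min_choice i (N - 1 - i) with h | h <;> rw [h]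
          · linarith [Real.exp_pos (-(c * ((N - 1 - i : ℕ) : ℝ)))]
          · linarith [Real.exp_pos (-(c * (i:ℝ)))]
        refine (Finset.sum_le_sum hterm).trans ?_
        rw [← Finset.mul_sum, Finset.sum_add_distrib]
        have hA : ∑ i ∈ (Finset.range N).filter (fun i => L ≤ i ∧ i + L < N),
            Real.exp (-(c * (i:ℝ))) ≤ Real.exp (-(c * L)) / (1 - Real.exp (-c)) := by
          refine le_trans ?_ (hgeo N)
          have : (Finset.range N).filter (fun i => L ≤ i ∧ i + L < N) ⊆
              (Finset.range N).image (fun i => L + i) := by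
            intro i hi
            simp only [Finset.mem_filter, Finset.mem_range] at hi
            rw [Finset.mem_image]
            exact ⟨i - L, by rw [Finset.mem_range]; omega, by omega⟩
          refine (Finset.sum_le_sum_of_subset_of_nonneg this
            (fun _ _ _ => (Real.exp_pos _).le)).trans ?_
          rw [Finset.sum_image (fun a _ b _ h => by simpa using h)]
        have hB : ∑ i ∈ (Finset.range N).filter (fun i => L ≤ i ∧ i + L < N),
            Real.exp (-(c * ((N - 1 - i : ℕ) : ℝ))) ≤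
            Real.exp (-(c * L)) / (1 - Real.exp (-c)) := by
          refine le_trans ?_ (hgeo N)
          have h2 : ∑ i ∈ (Finset.range N).filter (fun i => L ≤ i ∧ i + L < N),
            Real.exp (-(c * ((N - 1 - i : ℕ) : ℝ))) =
            ∑ j ∈ ((Finset.range N).filter (fun i => L ≤ i ∧ i + L < N)).image
              (fun i => N - 1 - i), Real.exp (-(c * (j : ℝ))) := by
            rw [Finset.sum_image]
            intro a ha b hb hab
            simp only [Finset.coe_filter, Finset.mem_range, Set.mem_setOf_eq] at ha hb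
            simp only at hab
            omega
          rw [h2]
          have : ((Finset.range N).filter (fun i => L ≤ i ∧ i + L < N)).image
              (fun i => N - 1 - i) ⊆ (Finset.range N).image (fun i => L + i) := by
            intro j hj
            rw [Finset.mem_image] at hj
            obtain ⟨i, hi, rfl⟩ := hj
            simp only [Finset.mem_filter, Finset.mem_range] at hi
            rw [Finset.mem_image]
            exact ⟨N - 1 - i - L, by rw [Finset.mem_range]; omega, by omega⟩
          refine (Finset.sum_le_sum_of_subset_of_nonneg this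
            (fun _ _ _ => (Real.exp_pos _).le)).trans ?_
          rw [Finset.sum_image (fun a _ b _ h => by simpa using h)]
        calc C * (∑ i ∈ (Finset.range N).filter (fun i => L ≤ i ∧ i + L < N),
            Real.exp (-(c * (i:ℝ))) + ∑ i ∈ (Finset.range N).filter (fun i => L ≤ i ∧ i + L < N),
            Real.exp (-(c * ((N - 1 - i : ℕ) : ℝ)))) ≤
            C * (Real.exp (-(c * L)) / (1 - Real.exp (-c)) +
              Real.exp (-(c * L)) / (1 - Real.exp (-c))) :=
              mul_le_mul_of_nonneg_left (add_le_add hA hB) hC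
          _ = _ := by ring

end Pool.Agent.H497R3.Coding
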