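import Pool.Agent.H497R3.Coding

set_option autoImplicit false
open MeasureTheory ProbabilityTheory Filter Topology
open scoped ENNReal

namespace Pool.Agent.H497R3.Coding

variable {T : Type} [MeasurableSpace T]

theorem lintegral_iid_prod (ν : Measure T) [IsProbabilityMeasure ν] (G : T → ℝ≥0∞)
    (hG : Measurable G) (N : ℕ) :
    ∫⁻ y, ∏ i ∈ Finset.range N, G (y (i:ℤ)) ∂(iidLaw ν) = (∫⁻ s, G s ∂ν) ^ N := by
  have hind : iIndepFun (fun (i : ℤ) (y : ℤ → T) => G (y i)) (iidLaw ν) :=
    iIndepFun_infinitePi (P := fun _ : ℤ => ν) (X := fun _ => G) (fun _ => hG)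
  have h1 := lintegral_prod_eq_prod_lintegral_of_indepFun
    ((Finset.range N).image (fun i : ℕ => (i:ℤ))) _ hind
    (fun i => hG.comp (measurable_pi_apply i))
  rw [Finset.prod_image (fun a _ b _ h => by simpa using h)] at h1
  have h2 : ∀ y : ℤ → T, ∏ i ∈ (Finset.range N).image (fun i : ℕ => (i:ℤ)), G (y i) =
      ∏ i ∈ Finset.range N, G (y (i:ℤ)) := fun y =>
    Finset.prod_image (fun a _ b _ h => by simpa using h)
  simp only [h2] at h1
  rw [h1]
  have h3 : ∀ i : ℤ, ∫⁻ y, G (y i) ∂(iidLaw ν) = ∫⁻ s, G s ∂ν := by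
    intro i
    have h4 : (iidLaw ν).map (fun y => y i) = ν := Measure.infinitePi_map_eval _ i
    have h5 : ∫⁻ s, G s ∂((iidLaw ν).map (fun y => y i)) = ∫⁻ y, G (y i) ∂(iidLaw ν) :=
      lintegral_map hG (measurable_pi_apply i)
    rw [← h5, h4]
  simp only [h3]
  simp

theorem moment_bound {S : Type} [MeasurableSingletonClass T] (ν : Measure T)
    [IsProbabilityMeasure ν] (D : Set (ℤ → T)) (hD : iidLaw ν Dᶜ = 0)
    (φ : (ℤ → T) → ℤ → S)
    (hshift : ∀ᵐ y ∂(iidLaw ν), ∀ k : ℤ, φ (shift k y) = shift k (φ y))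
    (h C₀ : ℝ) (hC₀ : 1 ≤ C₀)
    (hword : ∀ (a : ℤ) (n : ℕ) (w : Fin (n+1) → S),
      iidLaw ν {y | ∀ i : Fin (n+1), φ y (a + (i : ℕ)) = w i} ≤
        ENNReal.ofReal (C₀ * Real.exp (-(h * (n+1)))))
    (hh : 0 ≤ h) (C c : ℝ) (hC : 0 ≤ C) (hc : 0 < c)
    (htail : ∀ r : ℕ, iidLaw ν (Det D φ r)ᶜ ≤ ENNReal.ofReal (C * Real.exp (-(c * r)))) :
    ∃ t : ℝ, 0 < t ∧ ∃ K : ℝ, ∀ N : ℕ,
      (∫⁻ s, (ν {s} * ENNReal.ofReal (Real.exp h)) ^ t ∂ν) ^ N ≤ ENNReal.ofReal K := by
  set t : ℝ := c / (4 * h + 4) with ht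
  have htpos : 0 < t := by positivity
  have ht2 : 2 * h * t ≤ c / 2 := by
    rw [ht, mul_div_assoc', div_le_div_iff₀ (by positivity) (by norm_num)]
    nlinarith
  set G : T → ℝ≥0∞ := fun s => (ν {s} * ENNReal.ofReal (Real.exp h)) ^ t with hGdef
  have hG : Measurable G := ((measurable_mass ν).mul_const _).pow_const t
  set K1 : ℝ := 2 * C / (1 - Real.exp (-c)) with hK1
  have he : 0 < 1 - Real.exp (-c) := by
    have : Real.exp (-c) < 1 := by
      rw [Real.exp_lt_one_iff]; linarith
    linarith
  have hK1nn : 0 ≤ K1 := by positivity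
  have he2 : 0 < 1 - Real.exp (-(c/2)) := by
    have : Real.exp (-(c/2)) < 1 := by
      rw [Real.exp_lt_one_iff]; linarith
    linarith
  refine ⟨t, htpos, C₀ ^ t * (1 + K1 * Real.exp (2 * h * t) * (1 / (1 - Real.exp (-(c/2))))),
    fun N => ?_⟩
  rw [← lintegral_iid_prod ν G hG N]
  set μ := iidLaw ν with hμ
  let Ms : ℕ → Set (ℤ → T) := fun L => toMeasurable μ (Good D φ N L)ᶜ
  have hMs : ∀ L, MeasurableSet (Ms L) := fun L => measurableSet_toMeasurable _ _
  have hMsub : ∀ L, (Good D φ N L)ᶜ ⊆ Ms L := fun L => subset_toMeasurable _ _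
  have hMμ : ∀ L, μ (Ms L) ≤ ENNReal.ofReal (K1 * Real.exp (-(c * L))) := fun L => by
    rw [measure_toMeasurable]
    exact notGood_le ν D φ C c hC hc htail N L
  -- value on good configurations
  have hval : ∀ L y, y ∈ Good D φ N L → ∏ i ∈ Finset.range N, G (y (i:ℤ)) ≤
      ENNReal.ofReal (C₀ ^ t) * ENNReal.ofReal (Real.exp (2 * h * t * L)) := by
    intro L y hy
    have h1 := good_bound ν D hD φ hshift h C₀ hC₀ hword hh N L y hy
    have h2 : ∏ i ∈ Finset.range N, G (y (i:ℤ)) =
        ((∏ i ∈ Finset.range N, ν {y (i:ℤ)}) * (ENNReal.ofReal (Real.exp h)) ^ N) ^ t := by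
      simp only [hGdef]
      rw [ENNReal.prod_rpow_of_nonneg htpos.le, Finset.prod_mul_distrib, Finset.prod_const,
        Finset.card_range]
    rw [h2]
    calc ((∏ i ∈ Finset.range N, ν {y (i:ℤ)}) * (ENNReal.ofReal (Real.exp h)) ^ N) ^ t
        ≤ (ENNReal.ofReal (C₀ * Real.exp (-(h * N)) * Real.exp (2 * h * L)) *
          (ENNReal.ofReal (Real.exp h)) ^ N) ^ t := by
          gcongr
      _ = ENNReal.ofReal (C₀ ^ t) * ENNReal.ofReal (Real.exp (2 * h * t * L)) := by
          rw [← ENNReal.ofReal_pow (Real.exp_pos _).le, ← ENNReal.ofReal_mul (by positivity),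
            ← Real.exp_nat_mul, ENNReal.ofReal_rpow_of_nonneg (by positivity) htpos.le,
            ← ENNReal.ofReal_mul (by positivity)]
          congr 1
          rw [show C₀ * Real.exp (-(h * N)) * Real.exp (2 * h * L) * Real.exp (N * h) =
            C₀ * Real.exp (2 * h * L) by
              rw [mul_assoc, mul_assoc, mul_comm (Real.exp (2 * h * L)), ← mul_assoc
                (Real.exp (-(h * N))), ← Real.exp_add]
              rw [show -(h * N) + N * h = 0 by ring, Real.exp_zero, one_mul]]
          rw [Real.mul_rpow (by linarith) (Real.exp_pos _).le, ← Real.exp_mul]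
          congr 2
          ring
  have hpt : ∀ y, ∏ i ∈ Finset.range N, G (y (i:ℤ)) ≤
      ENNReal.ofReal (C₀ ^ t) * (1 + ∑ L ∈ Finset.range N,
        ENNReal.ofReal (Real.exp (2 * h * t * (L+1))) * (Ms L).indicator (fun _ => 1) y) := by
    intro y
    classical
    have hex : ∃ L, y ∈ Good D φ N L := ⟨N, fun i _ hi2 => absurd hi2 (by omega)⟩
    have hs := Nat.find_spec hex
    have hm := fun m => Nat.find_min hex (m := m)
    have hle : Nat.find hex ≤ N := Nat.find_min' hex (fun i _ hi2 => absurd hi2 (by omega))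
    refine (hval _ y hs).trans ?_
    gcongr
    rcases hL : Nat.find hex with _ | L
    · simp
    · have h3 := hm L (by omega)
      have h4 : y ∈ Ms L := hMsub L h3
      have h5 : ENNReal.ofReal (Real.exp (2 * h * t * ((L + 1 : ℕ) : ℝ))) =
          ENNReal.ofReal (Real.exp (2 * h * t * (L+1))) * (Ms L).indicator (fun _ => 1) y := by
        rw [Set.indicator_of_mem h4, mul_one]
        push_cast
        rfl
      rw [h5]
      have h6 := Finset.single_le_sum (f := fun L : ℕ =>
        ENNReal.ofReal (Real.exp (2 * h * t * (L+1))) * (Ms L).indicator (fun _ => 1) y)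
        (fun _ _ => zero_le) (Finset.mem_range.mpr (show L < N by omega))
      exact h6.trans le_add_self
  calc ∫⁻ y, ∏ i ∈ Finset.range N, G (y (i:ℤ)) ∂μ
      ≤ ∫⁻ y, ENNReal.ofReal (C₀ ^ t) * (1 + ∑ L ∈ Finset.range N,
        ENNReal.ofReal (Real.exp (2 * h * t * (L+1))) * (Ms L).indicator (fun _ => 1) y) ∂μ :=
        lintegral_mono hpt
    _ = ENNReal.ofReal (C₀ ^ t) * (1 + ∑ L ∈ Finset.range N,
        ENNReal.ofReal (Real.exp (2 * h * t * (L+1))) * μ (Ms L)) := by
        have hind : ∀ L, Measurable (fun y => (Ms L).indicator (fun _ => (1:ℝ≥0∞)) y) := fun L =>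
          measurable_const.indicator (hMs L)
        rw [lintegral_const_mul]
        · congr 1
          rw [lintegral_add_left measurable_const, lintegral_const, measure_univ, mul_one,
            lintegral_finset_sum]
          · congr 1
            apply Finset.sum_congr rfl
            intro L _
            rw [lintegral_const_mul _ (hind L), lintegral_indicator_const (hMs L), one_mul]
          · intro L _
            exact (hind L).const_mul _
        · exact measurable_const.add (Finset.measurable_fun_sum _ fun L _ =>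
            (hind L).const_mul _)
    _ ≤ ENNReal.ofReal (C₀ ^ t) * (1 + ∑ L ∈ Finset.range N,
        ENNReal.ofReal (Real.exp (2 * h * t * (L+1))) *
          ENNReal.ofReal (K1 * Real.exp (-(c * L)))) := by
        gcongr with L hL
        exact hMμ L
    _ = ENNReal.ofReal (C₀ ^ t * (1 + ∑ L ∈ Finset.range N,
        (Real.exp (2 * h * t * (L+1)) * (K1 * Real.exp (-(c * L)))))) := by
        rw [ENNReal.ofReal_mul (by positivity), ENNReal.ofReal_add (by norm_num)
          (Finset.sum_nonneg fun _ _ => by positivity), ENNReal.ofReal_one,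
          ENNReal.ofReal_sum_of_nonneg (fun _ _ => by positivity)]
        congr 2
        apply Finset.sum_congr rfl
        intro L _
        rw [ENNReal.ofReal_mul (Real.exp_pos _).le]
    _ ≤ _ := by
        apply ENNReal.ofReal_le_ofReal
        apply mul_le_mul_of_nonneg_left _ (by positivity)
        apply add_le_add le_rfl
        have h7 : ∀ L ∈ Finset.range N, Real.exp (2 * h * t * (L+1)) *
            (K1 * Real.exp (-(c * L))) ≤ K1 * Real.exp (2 * h * t) *
              (Real.exp (-(c/2))) ^ L := by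
          intro L _
          rw [← Real.exp_nat_mul]
          have : Real.exp (2 * h * t * (L+1)) * (K1 * Real.exp (-(c * L))) =
              K1 * Real.exp (2 * h * t) * Real.exp (2 * h * t * L - c * L) := by
            rw [show 2 * h * t * ((L:ℝ)+1) = 2 * h * t + 2 * h * t * L by ring, Real.exp_add,
              sub_eq_add_neg, Real.exp_add]
            ring
          rw [this]
          apply mul_le_mul_of_nonneg_left _ (by positivity)
          apply Real.exp_le_exp.mpr
          have hLnn : (0:ℝ) ≤ L := by positivity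
          nlinarith
        refine (Finset.sum_le_sum h7).trans ?_
        rw [← Finset.mul_sum]
        apply mul_le_mul_of_nonneg_left _ (by positivity)
        rw [one_div]
        have hlt : Real.exp (-(c/2)) < 1 := by linarith
        rw [← tsum_geometric_of_lt_one (Real.exp_pos _).le hlt]
        exact (summable_geometric_of_lt_one (Real.exp_pos _).le hlt).sum_le_tsum _
          (fun i _ => pow_nonneg (Real.exp_pos _).le _)

/-- Shannon entropy (in nats) of a probability measure: the mean of `-log ν{y}`, with value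
`∞` as soon as there is a non-atomic part -/
noncomputable def shannonEntropy (ν : Measure T) : ℝ≥0∞ :=
  ∫⁻ y, (if ν {y} = 0 then ⊤ else ENNReal.ofReal (-Real.log (ν {y}).toReal)) ∂ν

theorem entropy_rigid [MeasurableSingletonClass T] (ν : Measure T) [IsProbabilityMeasure ν]
    (h : ℝ) (hh : 0 ≤ h) (hent : shannonEntropy ν = ENNReal.ofReal h) (t : ℝ) (ht : 0 < t)
    (K : ℝ) (hK : ∀ N : ℕ,
      (∫⁻ s, (ν {s} * ENNReal.ofReal (Real.exp h)) ^ t ∂ν) ^ N ≤ ENNReal.ofReal K) :
    ∀ᵐ s ∂ν, (ν {s}).toReal = Real.exp (-h) := by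
  have hmass := measurable_mass ν
  -- the moment is at most one
  have hle1 : ∫⁻ s, (ν {s} * ENNReal.ofReal (Real.exp h)) ^ t ∂ν ≤ 1 := by
    by_contra hgt
    push Not at hgt
    have h1 := ENNReal.tendsto_pow_atTop_nhds_top_iff.mpr hgt
    have h2 : ENNReal.ofReal K < ⊤ := ENNReal.ofReal_lt_top
    obtain ⟨N, hN⟩ := ((tendsto_order.1 h1).1 _ h2).exists
    exact absurd (hN.trans_le (hK N)) (lt_irrefl _)
  have hset : MeasurableSet {y : T | ν {y} = 0} := hmass (measurableSet_singleton 0)
  have hmeasinfo : Measurable (fun y : T => (if ν {y} = 0 then (⊤ : ℝ≥0∞) else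
      ENNReal.ofReal (-Real.log (ν {y}).toReal))) :=
    Measurable.ite hset measurable_const
      (Real.measurable_log.comp hmass.ennreal_toReal).neg.ennreal_ofReal
  have hpos : ∀ᵐ y ∂ν, ν {y} ≠ 0 := by
    have h1 : shannonEntropy ν ≠ ⊤ := by rw [hent]; exact ENNReal.ofReal_ne_top
    have h2 := ae_lt_top hmeasinfo h1
    filter_upwards [h2] with y hy hy0
    rw [if_pos hy0] at hy
    exact lt_irrefl _ hy
  set ξ : T → ℝ := fun y => -Real.log (ν {y}).toReal with hξ
  have hξm : Measurable ξ := (Real.measurable_log.comp hmass.ennreal_toReal).neg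
  have hξnn : ∀ y, 0 ≤ ξ y := by
    intro y
    simp only [hξ]
    rw [neg_nonneg]
    apply Real.log_nonpos ENNReal.toReal_nonneg
    exact ENNReal.toReal_le_of_le_ofReal (by norm_num) (by simpa using prob_le_one)
  have hlin : ∫⁻ y, ENNReal.ofReal (ξ y) ∂ν = ENNReal.ofReal h := by
    rw [← hent]
    apply lintegral_congr_ae
    filter_upwards [hpos] with y hy
    rw [if_neg hy]
  have hξint : Integrable ξ ν := by
    refine ⟨hξm.aestronglyMeasurable, ?_⟩
    rw [hasFiniteIntegral_iff_ofReal (ae_of_all _ hξnn), hlin]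
    exact ENNReal.ofReal_lt_top
  have hmean : ∫ y, ξ y ∂ν = h := by
    rw [integral_eq_lintegral_of_nonneg_ae (ae_of_all _ hξnn) hξm.aestronglyMeasurable, hlin,
      ENNReal.toReal_ofReal hh]
  -- exponential
  set g : T → ℝ := fun y => Real.exp (-(t * (ξ y - h))) with hg
  have hgm : Measurable g := Real.measurable_exp.comp ((hξm.sub_const h).const_mul t).neg
  have hgae : ∀ᵐ y ∂ν, (ν {y} * ENNReal.ofReal (Real.exp h)) ^ t = ENNReal.ofReal (g y) := by
    filter_upwards [hpos] with y hy
    have hy' : 0 < (ν {y}).toReal := ENNReal.toReal_pos hy (measure_ne_top _ _)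
    rw [show ν {y} = ENNReal.ofReal (ν {y}).toReal from
      (ENNReal.ofReal_toReal (measure_ne_top _ _)).symm]
    rw [← ENNReal.ofReal_mul hy'.le, ENNReal.ofReal_rpow_of_pos (by positivity)]
    congr 1
    simp only [hg, hξ]
    rw [Real.mul_rpow hy'.le (Real.exp_pos _).le, Real.rpow_def_of_pos hy', ← Real.exp_mul,
      ← Real.exp_add]
    congr 1
    ring
  have hgint : Integrable g ν := by
    refine Integrable.of_bound (C := Real.exp (t * h)) hgm.aestronglyMeasurable
      (ae_of_all _ fun y => ?_)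
    rw [Real.norm_eq_abs, abs_of_pos (Real.exp_pos _)]
    apply Real.exp_le_exp.mpr
    have := hξnn y
    nlinarith [mul_nonneg ht.le this]
  have hgle : ∫ y, g y ∂ν ≤ 1 := by
    rw [integral_eq_lintegral_of_nonneg_ae (ae_of_all _ fun _ => (Real.exp_pos _).le)
      hgm.aestronglyMeasurable]
    rw [← lintegral_congr_ae hgae]
    exact ENNReal.toReal_le_of_le_ofReal (by norm_num) (by simpa using hle1)
  -- convexity
  have hnn : ∀ y, 0 ≤ g y - 1 + t * (ξ y - h) := by
    intro y
    have := Real.add_one_le_exp (-(t * (ξ y - h)))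
    simp only [hg]
    linarith
  have hint : Integrable (fun y => g y - 1 + t * (ξ y - h)) ν :=
    (hgint.sub (integrable_const 1)).add ((hξint.sub (integrable_const h)).const_mul t)
  have hzero : ∫ y, (g y - 1 + t * (ξ y - h)) ∂ν = 0 := by
    apply le_antisymm
    · have e1 : ∫ y, (g y - 1 + t * (ξ y - h)) ∂ν
          = ∫ y, (g y - 1) ∂ν + ∫ y, t * (ξ y - h) ∂ν :=
        integral_add (hgint.sub (integrable_const 1))
          ((hξint.sub (integrable_const h)).const_mul t)
      have e2 : ∫ y, (g y - 1) ∂ν = ∫ y, g y ∂ν - ∫ _y, (1:ℝ) ∂ν :=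
        integral_sub hgint (integrable_const 1)
      have e3 : ∫ y, t * (ξ y - h) ∂ν = t * ∫ y, (ξ y - h) ∂ν := integral_const_mul _ _
      have e4 : ∫ y, (ξ y - h) ∂ν = ∫ y, ξ y ∂ν - ∫ _y, h ∂ν :=
        integral_sub hξint (integrable_const h)
      have e5 : ∫ _y, (1:ℝ) ∂ν = 1 := by simp
      have e6 : ∫ _y, h ∂ν = h := by simp
      rw [e1, e2, e3, e4, e5, e6, hmean]
      linarith
    · exact integral_nonneg hnn
  have hae := (integral_eq_zero_iff_of_nonneg hnn hint).mp hzero
  filter_upwards [hae, hpos] with y hy hy0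
  have hy' : 0 < (ν {y}).toReal := ENNReal.toReal_pos hy0 (measure_ne_top _ _)
  have h1 : t * (ξ y - h) = 0 := by
    by_contra hne
    have := Real.add_one_lt_exp (x := -(t * (ξ y - h))) (by simpa using hne)
    simp only [Pi.zero_apply, hg] at hy
    linarith
  have h2 : ξ y = h := by
    rcases mul_eq_zero.mp h1 with h3 | h3
    · linarith
    · linarith
  simp only [hξ] at h2
  rw [← h2, neg_neg, Real.exp_log hy']

end Pool.Agent.H497R3.Coding
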