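import Pool.Agent.H497R3.System

set_option autoImplicit false
open MeasureTheory ProbabilityTheory Filter Topology
open scoped ENNReal

namespace Pool.Agent.H497R3

section system

variable {Ω : Type} [MeasurableSpace Ω] {W₀ : Ω → ℤ → ℕ → ℝ}

/-- the cookie about to be used -/
noncomputable def sg (W₀ : Ω → ℤ → ℕ → ℝ) (j n : ℕ) (θ : Ω × ((ℕ × ℤ × ℕ) → Bool)) : ℝ :=
  sE W₀ j θ (sk W₀ j n θ).1 (sk W₀ j n θ).2

/-- the past sigma algebra -/
noncomputable abbrev sF (W₀ : Ω → ℤ → ℕ → ℝ) (j n : ℕ) :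
    MeasurableSpace (Ω × ((ℕ × ℤ × ℕ) → Bool)) :=
  MeasurableSpace.comap (sdata W₀ j n) inferInstance

theorem sF_le (hW : Measurable W₀) (j n : ℕ) :
    sF W₀ j n ≤ (inferInstance : MeasurableSpace (Ω × ((ℕ × ℤ × ℕ) → Bool))) :=
  (measurable_sdata hW j n).comap_le

theorem meas_sF_data (j n : ℕ) : Measurable[sF W₀ j n] (sdata W₀ j n) :=
  comap_measurable _

theorem meas_count {Ω' : Type*} [MeasurableSpace Ω'] {X : Ω' → ℕ → ℤ} (n : ℕ)
    (h : ∀ m, m ≤ n → Measurable (fun θ => X θ m)) :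
    Measurable (fun θ => ((Finset.range n).filter (fun m => X θ m = X θ n)).card) := by
  have : (fun θ => ((Finset.range n).filter (fun m => X θ m = X θ n)).card) = fun θ =>
      ∑ m ∈ Finset.range n, (if X θ m = X θ n then 1 else 0) := by
    funext θ
    rw [Finset.card_filter]
  rw [this]
  refine Finset.measurable_fun_sum _ (fun m hm => ?_)
  exact Measurable.ite (measurableSet_eq_fun (h m (Finset.mem_range.mp hm).le) (h n le_rfl))
    measurable_const measurable_const

theorem meas_pair {Ω' α β : Type*} [MeasurableSpace Ω'] [MeasurableSpace α] [MeasurableSpace β]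
    {f : Ω' → α × β} (h1 : Measurable (fun θ => (f θ).1)) (h2 : Measurable (fun θ => (f θ).2)) :
    Measurable f := h1.prodMk h2

theorem meas_sF_W (j n : ℕ) : Measurable[sF W₀ j n] (sW W₀) := by
  have h := meas_sF_data (W₀ := W₀) j n
  exact measurable_fst.comp h

theorem meas_sF_X (j n : ℕ) (i : ℕ) (hi : i < j) : Measurable[sF W₀ j n] (sX W₀ i) := by
  have h := meas_sF_data (W₀ := W₀) j n
  exact (measurable_pi_apply (⟨i, hi⟩ : Fin j)).comp (measurable_fst.comp (measurable_snd.comp h))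

theorem meas_sF_Xn (j n : ℕ) (m : ℕ) (hm : m ≤ n) :
    Measurable[sF W₀ j n] (fun θ => sX W₀ j θ m) := by
  have h := meas_sF_data (W₀ := W₀) j n
  exact (measurable_pi_apply (⟨m, by omega⟩ : Fin (n+1))).comp
    (measurable_snd.comp (measurable_snd.comp h))

theorem meas_sF_E (j n : ℕ) (i : ℕ) (hi : i ≤ j) : Measurable[sF W₀ j n] (sE W₀ i) := by
  induction i with
  | zero => exact meas_sF_W j n
  | succ i ih =>
    have h1 := ih (by omega)
    have h2 := meas_sF_X (W₀ := W₀) j n i (by omega)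
    exact @measurable_leftover _ (sF W₀ j n) _ _ h1 h2

theorem meas_sF_sk (j n : ℕ) : Measurable[sF W₀ j n] (sk W₀ j n) := by
  have h1 := meas_sF_Xn (W₀ := W₀) j n n le_rfl
  have h2 : Measurable[sF W₀ j n] (fun θ => (sk W₀ j n θ).2) := by
    have := @meas_count _ (sF W₀ j n) (sX W₀ j) n (fun m hm => meas_sF_Xn j n m hm)
    simp only [sk_snd]
    exact this
  exact @meas_pair _ _ _ (sF W₀ j n) _ _ _ h1 h2

theorem meas_sF_g (j n : ℕ) : Measurable[sF W₀ j n] (sg W₀ j n) := by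
  have hE := meas_sF_E (W₀ := W₀) j n j le_rfl
  exact @measurable_eval_countable _ (ℤ × ℕ) ℝ (sF W₀ j n) _ _ _ _
    (fun θ p => sE W₀ j θ p.1 p.2) (sk W₀ j n)
    (fun p => (measurable_pi_apply p.2).comp ((measurable_pi_apply p.1).comp hE))
    (meas_sF_sk j n)

theorem sg_values (hval : ∀ ω x k, W₀ ω x k = 0 ∨ W₀ ω x k = 1/2 ∨ W₀ ω x k = 1)
    (j n : ℕ) (θ : Ω × ((ℕ × ℤ × ℕ) → Bool)) :
    sg W₀ j n θ = 0 ∨ sg W₀ j n θ = 1/2 ∨ sg W₀ j n θ = 1 :=
  envs_values (hval θ.1) j _ _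

theorem right_iff (j n : ℕ) (θ : Ω × ((ℕ × ℤ × ℕ) → Bool)) :
    sX W₀ j θ (n+1) = sX W₀ j θ n + 1 ↔
      (sg W₀ j n θ = 1 ∨ (sg W₀ j n θ = 1/2 ∧ θ.2 (j, sk W₀ j n θ) = true)) := by
  have h := pos_succ (arrows (sE W₀ j θ) (sc θ j)) n
  have h1 : sX W₀ j θ (n+1) = if arrows (sE W₀ j θ) (sc θ j) (sk W₀ j n θ).1 (sk W₀ j n θ).2
      then sX W₀ j θ n + 1 else sX W₀ j θ n - 1 := h
  rw [h1]
  have h2 : arrows (sE W₀ j θ) (sc θ j) (sk W₀ j n θ).1 (sk W₀ j n θ).2 =
      if sg W₀ j n θ = 1 then true else if sg W₀ j n θ = 1/2 then θ.2 (j, sk W₀ j n θ)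
        else false := rfl
  rw [h2]
  by_cases h3 : sg W₀ j n θ = 1
  · simp [h3]
  · rw [if_neg h3]
    by_cases h4 : sg W₀ j n θ = 1/2
    · rw [if_pos h4]
      by_cases h5 : θ.2 (j, sk W₀ j n θ) = true
      · simp [h4, h5]
      · simp only [h5, Bool.false_eq_true, ↓reduceIte, h4, true_and, or_false]
        constructor
        · intro h; omega
        · intro h; exact absurd (h4.trans h).symm (by simpa using fun h' => h3 (by linarith))
    · simp only [h4, ↓reduceIte, Bool.false_eq_true, h3, false_and, or_self, iff_false]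
      omega

theorem condExp_step (P₀ : Measure Ω) [IsProbabilityMeasure P₀] (hW : Measurable W₀)
    (hval : ∀ ω x k, W₀ ω x k = 0 ∨ W₀ ω x k = 1/2 ∨ W₀ ω x k = 1) (j n : ℕ) :
    condExp (sF W₀ j n) (P₀.prod coins)
      (Set.indicator {θ | sX W₀ j θ (n+1) = sX W₀ j θ n + 1} (fun _ => (1:ℝ)))
      =ᵐ[P₀.prod coins] sg W₀ j n := by
  set μ := P₀.prod coins with hμ
  have hm := sF_le hW j n
  have hgF := meas_sF_g (W₀ := W₀) j n
  have hg : Measurable (sg W₀ j n) := hgF.mono hm le_rfl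
  have hR : MeasurableSet {θ | sX W₀ j θ (n+1) = sX W₀ j θ n + 1} := by
    have h1 : Measurable (fun θ => sX W₀ j θ (n+1)) :=
      (measurable_pi_apply (n+1)).comp (measurable_sX hW j)
    have h2 : Measurable (fun θ => sX W₀ j θ n) :=
      (measurable_pi_apply n).comp (measurable_sX hW j)
    exact measurableSet_eq_fun h1 (h2.add_const 1)
  have hgb : ∀ θ, ‖sg W₀ j n θ‖ ≤ 1 := by
    intro θ
    rcases sg_values hval j n θ with h | h | h <;> rw [h] <;> norm_num
  have hgi : Integrable (sg W₀ j n) μ :=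
    Integrable.of_bound hg.aestronglyMeasurable 1 (ae_of_all _ hgb)
  symm
  refine ae_eq_condExp_of_forall_setIntegral_eq hm ?_ ?_ ?_ ?_
  · exact (integrable_const (1:ℝ)).indicator hR
  · intro s _ _
    exact hgi.integrableOn
  · intro S hS _
    have hS' : MeasurableSet S := hm S hS
    have hone : MeasurableSet {θ | sg W₀ j n θ = 1} := hg (measurableSet_singleton 1)
    have hhalf : MeasurableSet {θ | sg W₀ j n θ = 1/2} := hg (measurableSet_singleton (1/2))
    have hhalfF : MeasurableSet[sF W₀ j n] {θ | sg W₀ j n θ = 1/2} :=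
      hgF (measurableSet_singleton (1/2))
    -- left side
    have e1 : sg W₀ j n = fun θ => ({θ | sg W₀ j n θ = 1}.indicator (fun _ => (1:ℝ)) θ +
        {θ | sg W₀ j n θ = 1/2}.indicator (fun _ => (1/2:ℝ)) θ) := by
      funext θ
      rcases sg_values hval j n θ with h | h | h
      · simp only [Set.indicator, Set.mem_setOf_eq, h]; norm_num
      · simp only [Set.indicator, Set.mem_setOf_eq, h]; norm_num
      · simp only [Set.indicator, Set.mem_setOf_eq, h]; norm_num
    have hC : MeasurableSet {θ : Ω × ((ℕ × ℤ × ℕ) → Bool) | θ.2 (j, sk W₀ j n θ) = true} := by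
      have h1 : Measurable (fun θ : Ω × ((ℕ × ℤ × ℕ) → Bool) => θ.2 (j, sk W₀ j n θ)) :=
        measurable_eval_countable (f := fun (θ : Ω × ((ℕ × ℤ × ℕ) → Bool)) (a : ℤ × ℕ) =>
          θ.2 (j, a)) (fun a => (measurable_pi_apply (j, a)).comp measurable_snd)
          (measurable_sk hW j n)
      exact h1 (measurableSet_singleton true)
    have hsum : μ.real (S ∩ {θ | sg W₀ j n θ = 1/2} ∩ {θ | θ.2 (j, sk W₀ j n θ) = true}) =
        (1/2) * μ.real (S ∩ {θ | sg W₀ j n θ = 1/2}) := by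
      have hE : MeasurableSet[sF W₀ j n] (S ∩ {θ | sg W₀ j n θ = 1/2}) :=
        @MeasurableSet.inter _ (sF W₀ j n) _ _ hS hhalfF
      have hinv : ∀ θ, θ ∈ (S ∩ {θ | sg W₀ j n θ = 1/2}) →
          flipT (j, sk W₀ j n θ) θ ∈ (S ∩ {θ | sg W₀ j n θ = 1/2}) := by
        intro θ hθ
        obtain ⟨B, hB, hBE⟩ := hE
        rw [← hBE] at hθ ⊢
        simp only [Set.mem_preimage] at hθ ⊢
        rw [sdata_flip]
        exact hθ
      have hh := half_lemma P₀ hW j n (S ∩ {θ | sg W₀ j n θ = 1/2}) (hS'.inter hhalf) hinv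
      have hh' : μ.real (S ∩ {θ | sg W₀ j n θ = 1/2} ∩ {θ | θ.2 (j, sk W₀ j n θ) = true}) =
          μ.real (S ∩ {θ | sg W₀ j n θ = 1/2} ∩ {θ | θ.2 (j, sk W₀ j n θ) = false}) := by
        simp only [Measure.real, hμ]
        rw [hh]
      have hadd := measureReal_inter_add_diff (μ := μ) (s := S ∩ {θ | sg W₀ j n θ = 1/2}) hC
      have hd : (S ∩ {θ | sg W₀ j n θ = 1/2}) \ {θ | θ.2 (j, sk W₀ j n θ) = true} =
          (S ∩ {θ | sg W₀ j n θ = 1/2}) ∩ {θ | θ.2 (j, sk W₀ j n θ) = false} := by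
        ext θ
        simp
      rw [hd] at hadd
      linarith
    have lhs : ∫ θ in S, sg W₀ j n θ ∂μ = μ.real (S ∩ {θ | sg W₀ j n θ = 1}) +
        (1/2) * μ.real (S ∩ {θ | sg W₀ j n θ = 1/2}) := by
      conv_lhs => rw [e1]
      rw [integral_add]
      · rw [setIntegral_indicator hone, setIntegral_indicator hhalf]
        simp [mul_comm]
      · exact ((integrable_const (1:ℝ)).indicator hone).integrableOn
      · exact ((integrable_const (1/2:ℝ)).indicator hhalf).integrableOn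
    have rhs : ∫ θ in S, (Set.indicator {θ | sX W₀ j θ (n+1) = sX W₀ j θ n + 1}
        (fun _ => (1:ℝ))) θ ∂μ = μ.real (S ∩ {θ | sg W₀ j n θ = 1}) +
        μ.real (S ∩ {θ | sg W₀ j n θ = 1/2} ∩ {θ | θ.2 (j, sk W₀ j n θ) = true}) := by
      rw [setIntegral_indicator hR]
      simp only [integral_const, smul_eq_mul, mul_one, MeasurableSet.univ, measureReal_restrict_apply,
        Set.univ_inter]
      rw [← measureReal_union]
      · congr 1
        ext θ
        simp only [Set.mem_inter_iff, Set.mem_setOf_eq, Set.mem_union]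
        rw [right_iff]
        tauto
      · rw [Set.disjoint_left]
        rintro θ ⟨_, h1⟩ ⟨⟨_, h2⟩, _⟩
        simp only [Set.mem_setOf_eq] at h1 h2
        rw [h1] at h2
        norm_num at h2
      · exact (hS'.inter hhalf).inter hC
    rw [lhs, rhs, hsum]
  · exact hgF.stronglyMeasurable.aestronglyMeasurable

end system

end Pool.Agent.H497R3
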