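import Pool.Agent.H242R3.ES.Stmts

set_option autoImplicit false

open Finset
open scoped Classical

namespace Pool.Agent.H497R3.ESP1

open Pool.Agent.H242R3.ES

theorem B_add_left {D : ℕ} (x y z : LV D) : B (x + y) z = B x z + B y z := by
  unfold B
  simp only [Pi.add_apply, add_mul, Finset.sum_add_distrib]
  ring

theorem B_comm {D : ℕ} (x y : LV D) : B x y = B y x := by
  unfold B
  congr 1
  · exact Finset.sum_congr rfl fun i _ => mul_comm _ _
  · exact mul_comm _ _

theorem B_add_right {D : ℕ} (x y z : LV D) : B x (y + z) = B x y + B x z := by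
  rw [B_comm, B_add_left, B_comm y, B_comm z]

theorem null_prop {D : ℕ} (X Y : LV D) (hX : B X X = 0) (hY : B Y Y = 0) (hX0 : 0 < X none)
    (hY0 : 0 < Y none) (hXY : 0 ≤ B X Y) : X = (X none / Y none) • Y := by
  have h1 : ∑ i : Fin D, (X (some i) * Y none - Y (some i) * X none) ^ 2 =
      -2 * X none * Y none * B X Y := by
    unfold B at hX hY ⊢
    have e1 : ∑ i : Fin D, (X (some i) * Y none - Y (some i) * X none) ^ 2 =
        (Y none) ^ 2 * (∑ i : Fin D, X (some i) * X (some i)) -
        2 * X none * Y none * (∑ i : Fin D, X (some i) * Y (some i)) +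
        (X none) ^ 2 * (∑ i : Fin D, Y (some i) * Y (some i)) := by
      rw [Finset.mul_sum, Finset.mul_sum, Finset.mul_sum, ← Finset.sum_sub_distrib,
        ← Finset.sum_add_distrib]
      refine Finset.sum_congr rfl fun i _ => ?_
      ring
    rw [e1]
    have hX' : ∑ i : Fin D, X (some i) * X (some i) = X none * X none := by linarith
    have hY' : ∑ i : Fin D, Y (some i) * Y (some i) = Y none * Y none := by linarith
    rw [hX', hY']
    ring
  have h2 : ∑ i : Fin D, (X (some i) * Y none - Y (some i) * X none) ^ 2 = 0 := by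
    apply le_antisymm
    · rw [h1]
      have : 0 ≤ X none * Y none * B X Y := by positivity
      nlinarith
    · exact Finset.sum_nonneg fun i _ => sq_nonneg _
  have h3 := (Finset.sum_eq_zero_iff_of_nonneg (fun i _ => sq_nonneg _)).1 h2
  funext i
  cases i with
  | none =>
    simp only [Pi.smul_apply, smul_eq_mul]
    field_simp
  | some i =>
    have h4 := h3 i (Finset.mem_univ i)
    have h5 : X (some i) * Y none - Y (some i) * X none = 0 := by
      exact pow_eq_zero_iff (two_ne_zero) |>.1 h4
    simp only [Pi.smul_apply, smul_eq_mul]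
    field_simp
    linarith

theorem t : TaskP1 := by
  intro D _ ι _ V hV v k l hk hl hkl
  obtain ⟨hkv, hkf⟩ := hk
  obtain ⟨hlv, hlf⟩ := hl
  have e1 : B (V v) (V k) = -1 := hV.edge v k (Ne.symm hkv) hkf
  have e2 : B (V v) (V l) = -1 := hV.edge v l (Ne.symm hlv) hlf
  by_contra hcon
  rw [not_lt] at hcon
  set X : LV D := V v + V k with hXd
  set Y : LV D := V v + V l with hYd
  have hX : B X X = 0 := by
    rw [hXd, B_add_left, B_add_right, B_add_right, B_comm (V k) (V v), e1, hV.norm, hV.norm]
    norm_num
  have hY : B Y Y = 0 := by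
    rw [hYd, B_add_left, B_add_right, B_add_right, B_comm (V l) (V v), e2, hV.norm, hV.norm]
    norm_num
  have hXY : B X Y = B (V k) (V l) - 1 := by
    rw [hXd, hYd, B_add_left, B_add_right, B_add_right, B_comm (V k) (V v), e1, e2, hV.norm]
    ring
  have hX0 : 0 < X none := by
    rw [hXd, Pi.add_apply]
    exact add_pos (hV.pos v) (hV.pos k)
  have hY0 : 0 < Y none := by
    rw [hYd, Pi.add_apply]
    exact add_pos (hV.pos v) (hV.pos l)
  have hprop := null_prop X Y hX hY hX0 hY0 (by rw [hXY]; linarith)
  set c : ℝ := X none / Y none with hc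
  have hc0 : 0 < c := div_pos hX0 hY0
  -- the linear relation
  have hlin : ∀ f : LV D →ₗ[ℝ] ℝ, f (V v) + f (V k) = c * (f (V v) + f (V l)) := by
    intro f
    have := congrArg f hprop
    rw [map_smul, hXd, hYd, map_add, map_add, smul_eq_mul] at this
    exact this
  rcases le_or_gt 1 c with h1 | h1
  · obtain ⟨f, hf0, hf⟩ := hV.vert k
    have hfk : f (V k) = 0 := (hf k).1 (by simp)
    have hfl : 0 < f (V l) := by
      refine lt_of_le_of_ne (hf0 l) (fun h => ?_)
      have := (hf l).2 h.symm
      exact hkl (by simpa using this.symm)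
    have h2 := hlin f
    rw [hfk] at h2
    have h3 : 0 ≤ f (V v) := hf0 v
    nlinarith
  · obtain ⟨f, hf0, hf⟩ := hV.vert l
    have hfl : f (V l) = 0 := (hf l).1 (by simp)
    have hfk : 0 < f (V k) := by
      refine lt_of_le_of_ne (hf0 k) (fun h => ?_)
      have := (hf k).2 h.symm
      exact hkl (by simpa using this)
    have h2 := hlin f
    rw [hfl] at h2
    have h3 : 0 ≤ f (V v) := hf0 v
    nlinarith

end Pool.Agent.H497R3.ESP1
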