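import Mathlib

set_option autoImplicit false
open Finset

namespace Pool.Agent.H497R3.Erg

/-- expectation under a product weight -/
noncomputable def Ex {I R : Type} [Fintype I] [DecidableEq I] [Fintype R] (W : R → ℝ)
    (F : (I → R) → ℝ) : ℝ :=
  ∑ x : I → R, (∏ i, W (x i)) * F x

section
variable {I R : Type} [Fintype I] [DecidableEq I] [Fintype R]

theorem Ex_mono {W : R → ℝ} (hW0 : ∀ r, 0 ≤ W r) {F G : (I → R) → ℝ} (h : ∀ x, F x ≤ G x) :
    Ex W F ≤ Ex W G :=
  Finset.sum_le_sum fun x _ => mul_le_mul_of_nonneg_left (h x) (Finset.prod_nonneg fun _ _ => hW0 _)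

theorem Ex_nonneg {W : R → ℝ} (hW0 : ∀ r, 0 ≤ W r) {F : (I → R) → ℝ} (h : ∀ x, 0 ≤ F x) :
    0 ≤ Ex W F :=
  Finset.sum_nonneg fun x _ => mul_nonneg (Finset.prod_nonneg fun _ _ => hW0 _) (h x)

theorem Ex_add (W : R → ℝ) (F G : (I → R) → ℝ) :
    Ex W (fun x => F x + G x) = Ex W F + Ex W G := by
  unfold Ex
  rw [← Finset.sum_add_distrib]
  exact Finset.sum_congr rfl fun x _ => by ring

theorem Ex_mul_left (W : R → ℝ) (c : ℝ) (F : (I → R) → ℝ) :
    Ex W (fun x => c * F x) = c * Ex W F := by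
  unfold Ex
  rw [Finset.mul_sum]
  exact Finset.sum_congr rfl fun x _ => by ring

theorem Ex_sum {κ : Type} (W : R → ℝ) (s : Finset κ) (F : κ → (I → R) → ℝ) :
    Ex W (fun x => ∑ k ∈ s, F k x) = ∑ k ∈ s, Ex W (F k) := by
  unfold Ex
  rw [Finset.sum_comm]
  exact Finset.sum_congr rfl fun x _ => by rw [Finset.mul_sum]

theorem Ex_prod (W : R → ℝ) (f : I → R → ℝ) :
    Ex W (fun x => ∏ i, f i (x i)) = ∏ i, ∑ r, W r * f i r := by
  unfold Ex
  rw [Finset.prod_univ_sum, Fintype.piFinset_univ]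
  exact Finset.sum_congr rfl fun x _ => by rw [Finset.prod_mul_distrib]

theorem Ex_const {W : R → ℝ} (hW : ∑ r, W r = 1) (c : ℝ) :
    Ex W (fun _ : I → R => c) = c := by
  have h := Ex_prod (I := I) W (fun _ _ => (1:ℝ))
  simp only [Finset.prod_const_one, mul_one, hW] at h
  have h2 := Ex_mul_left (I := I) W c (fun _ => (1:ℝ))
  rw [h] at h2
  simpa using h2

/-- resampling one coordinate -/
theorem Ex_resample {W : R → ℝ} (hW : ∑ r, W r = 1) (m : I) (F : (I → R) → ℝ) :
    Ex W F = Ex W (fun x => ∑ r, W r * F (Function.update x m r)) := by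
  classical
  unfold Ex
  have e : ((I → R) × R) ≃ ((I → R) × R) :=
    Function.Involutive.toPerm (fun q => (Function.update q.1 m q.2, q.1 m)) (by
      intro q
      simp)
  have h1 : ∑ q : (I → R) × R, (∏ i, W (q.1 i)) * W q.2 * F q.1 =
      ∑ q : (I → R) × R, (∏ i, W (q.1 i)) * W q.2 * F (Function.update q.1 m q.2) := by
    refine (Fintype.sum_equiv (Function.Involutive.toPerm
      (fun q : (I → R) × R => (Function.update q.1 m q.2, q.1 m)) (by intro q; simp)) _ _ ?_).symm
    intro q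
    simp only [Function.Involutive.coe_toPerm]
    have h2 : (∏ i, W (Function.update q.1 m q.2 i)) * W (q.1 m) = (∏ i, W (q.1 i)) * W q.2 := by
      rw [← Finset.mul_prod_erase Finset.univ (fun i => W (Function.update q.1 m q.2 i))
        (Finset.mem_univ m), ← Finset.mul_prod_erase Finset.univ (fun i => W (q.1 i))
        (Finset.mem_univ m)]
      have h3 : ∏ i ∈ Finset.univ.erase m, W (Function.update q.1 m q.2 i) =
          ∏ i ∈ Finset.univ.erase m, W (q.1 i) := by
        apply Finset.prod_congr rfl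
        intro i hi
        rw [Function.update_of_ne (Finset.ne_of_mem_erase hi)]
      rw [h3, Function.update_self]
      ring
    rw [h2]
  rw [Fintype.sum_prod_type, Fintype.sum_prod_type] at h1
  calc ∑ x : I → R, (∏ i, W (x i)) * F x
      = ∑ x : I → R, ∑ r : R, (∏ i, W (x i)) * W r * F x := by
        apply Finset.sum_congr rfl
        intro x _
        have : ∀ r, (∏ i, W (x i)) * W r * F x = (∏ i, W (x i)) * F x * W r := fun r => by ring
        simp only [this]
        rw [← Finset.mul_sum, hW, mul_one]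
    _ = _ := h1
    _ = _ := by
        apply Finset.sum_congr rfl
        intro x _
        rw [Finset.mul_sum]
        exact Finset.sum_congr rfl fun r _ => by ring

theorem Ex_resample_le {W : R → ℝ} (hW0 : ∀ r, 0 ≤ W r) (hW : ∑ r, W r = 1) (m : I)
    {F G : (I → R) → ℝ}
    (h : ∀ x, ∑ r, W r * F (Function.update x m r) ≤ G x) : Ex W F ≤ Ex W G := by
  rw [Ex_resample hW m F]
  exact Ex_mono hW0 h

end

/-- Bernoulli weight -/
noncomputable def bw (u : ℝ) (b : Bool) : ℝ := if b then u else 1 - u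

/-- centered Bernoulli value -/
noncomputable def yv (u : ℝ) (b : Bool) : ℝ := (if b then 1 else 0) - u

theorem bw_sum (u : ℝ) : ∑ b, bw u b = 1 := by
  simp [bw]

theorem bw_nonneg {u : ℝ} (h0 : 0 ≤ u) (h1 : u ≤ 1) (b : Bool) : 0 ≤ bw u b := by
  cases b
  · simp [bw, h1]
  · simp [bw, h0]

theorem bw_yv (u : ℝ) : ∑ b, bw u b * yv u b = 0 := by
  simp [bw, yv]
  ring

theorem cosh_bound {u : ℝ} (h0 : 0 ≤ u) (h1 : u ≤ 1) (t : ℝ) :
    ∑ b, bw u b * Real.exp (t * yv u b) ≤ Real.exp (t ^ 2 / 2) := by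
  have hc : ∀ y : ℝ, -1 ≤ y → y ≤ 1 →
      Real.exp (t * y) ≤ (1 + y) / 2 * Real.exp t + (1 - y) / 2 * Real.exp (-t) := by
    intro y hy1 hy2
    have := convexOn_exp.2 (Set.mem_univ t) (Set.mem_univ (-t))
      (show 0 ≤ (1 + y) / 2 by linarith) (show 0 ≤ (1 - y) / 2 by linarith) (by ring)
    simp only [smul_eq_mul] at this
    refine le_trans (le_of_eq ?_) this
    congr 1
    ring
  have ht := hc (1 - u) (by linarith) (by linarith)
  have hf := hc (-u) (by linarith) (by linarith)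
  have hcosh := Real.cosh_le_exp_half_sq t
  rw [Real.cosh_eq] at hcosh
  simp only [Fintype.sum_bool, bw, yv, if_true, Bool.false_eq_true, if_false, zero_sub]
  have e1 := mul_le_mul_of_nonneg_left ht h0
  have e2 := mul_le_mul_of_nonneg_left hf (show 0 ≤ 1 - u by linarith)
  calc u * Real.exp (t * (1 - u)) + (1 - u) * Real.exp (t * -u) ≤ _ := add_le_add e1 e2
    _ = (Real.exp t + Real.exp (-t)) / 2 := by ring
    _ ≤ _ := hcosh

/-- bound for the upper exponential moments of the centered number of missing edges -/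
theorem poisson_bound {u : ℝ} (h0 : 0 ≤ u) (h1 : u ≤ 1) (t : ℝ) :
    ∑ b, bw u b * Real.exp (t * (-yv u b)) ≤
      Real.exp ((1 - u) * (Real.exp t - 1 - t)) := by
  simp only [Fintype.sum_bool, bw, yv, if_true, Bool.false_eq_true, if_false, zero_sub, neg_neg]
  have e1 : Real.exp (t * -(1 - u)) = Real.exp (-(t * (1 - u))) := by ring_nf
  have e2 : Real.exp (t * u) = Real.exp (-(t * (1 - u))) * Real.exp t := by
    rw [← Real.exp_add]; ring_nf
  rw [e1, e2]
  have e3 : u * Real.exp (-(t * (1 - u))) + (1 - u) * (Real.exp (-(t * (1 - u))) * Real.exp t) =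
      Real.exp (-(t * (1 - u))) * (1 + (1 - u) * (Real.exp t - 1)) := by ring
  rw [e3]
  have e4 : 1 + (1 - u) * (Real.exp t - 1) ≤ Real.exp ((1 - u) * (Real.exp t - 1)) := by
    have := Real.add_one_le_exp ((1 - u) * (Real.exp t - 1))
    linarith
  calc _ ≤ Real.exp (-(t * (1 - u))) * Real.exp ((1 - u) * (Real.exp t - 1)) :=
        mul_le_mul_of_nonneg_left e4 (Real.exp_pos _).le
    _ = _ := by
        rw [← Real.exp_add]
        congr 1
        ring

theorem exp_sub_bound {t M : ℝ} (hM : 0 ≤ M) (ht : t ≤ M) :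
    Real.exp t - 1 - t ≤ Real.exp M * t ^ 2 := by
  have hM1 : 1 ≤ Real.exp M := Real.one_le_exp hM
  rcases le_or_gt t 0 with h | h
  · -- for negative t, e^t ≤ 1 + t + t^2
    have h1 : Real.exp t - 1 - t ≤ t ^ 2 := by
      rcases le_or_gt (-1) t with h2 | h2
      · have := Real.abs_exp_sub_one_sub_id_le (x := t) (by rw [abs_le]; constructor <;> linarith)
        exact (le_abs_self _).trans this
      · have : Real.exp t ≤ 1 := Real.exp_le_one_iff.mpr h
        nlinarith
    nlinarith [sq_nonneg t]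
  · -- positive t: e^t - 1 - t = ∫ ... ≤ t^2 e^t
    have h1 : Real.exp t * (1 - t) ≤ 1 := by
      have := Real.add_one_le_exp (-t)
      have h2 : Real.exp t * (1 - t) ≤ Real.exp t * Real.exp (-t) :=
        mul_le_mul_of_nonneg_left (by linarith) (Real.exp_pos _).le
      rwa [← Real.exp_add, add_neg_cancel, Real.exp_zero] at h2
    have h3 : Real.exp t - 1 ≤ t * Real.exp t := by nlinarith
    have h4 : Real.exp t ≤ Real.exp M := Real.exp_le_exp.mpr ht
    have h5 : Real.exp t - 1 - t ≤ t ^ 2 * Real.exp t := by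
      nlinarith
    nlinarith [sq_nonneg t, mul_le_mul_of_nonneg_left h4 (sq_nonneg t)]

/-- the grid -/
def grid (K : ℕ) : Finset (ℕ × Bool) := Finset.range (K + 1) ×ˢ Finset.univ

/-- value of a grid point -/
def gval (g : ℕ × Bool) : ℝ := if g.2 then (g.1 : ℝ) else -(g.1 : ℝ)

theorem gval_sq (g : ℕ × Bool) : gval g ^ 2 = (g.1 : ℝ) ^ 2 := by
  unfold gval; split_ifs <;> ring

theorem gval_abs (g : ℕ × Bool) : |gval g| = (g.1 : ℝ) := by
  unfold gval; split_ifs <;> simp

theorem grid_sum (K : ℕ) : ∑ g ∈ grid K, Real.exp (-(gval g ^ 2 / 2)) ≤ 6 := by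
  unfold grid
  rw [Finset.sum_product]
  have h1 : ∀ k : ℕ, ∑ b : Bool, Real.exp (-(gval (k, b) ^ 2 / 2)) ≤ 2 * (2/3 : ℝ) ^ k := by
    intro k
    have h2 : ∀ b : Bool, Real.exp (-(gval (k, b) ^ 2 / 2)) ≤ (2/3 : ℝ) ^ k := by
      intro b
      rw [gval_sq]
      have h3 : Real.exp (-((k:ℝ) ^ 2 / 2)) ≤ Real.exp (-(1/2)) ^ k := by
        rw [← Real.exp_nat_mul]
        apply Real.exp_le_exp.mpr
        have : (k:ℝ) ≤ (k:ℝ)^2 := by
          rcases Nat.eq_zero_or_pos k with h | h
          · simp [h]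
          · have : (1:ℝ) ≤ k := by exact_mod_cast h
            nlinarith
        linarith
      refine h3.trans ?_
      apply pow_le_pow_left₀ (Real.exp_pos _).le
      rw [Real.exp_neg]
      have : (3/2 : ℝ) ≤ Real.exp (1/2) := by
        have := Real.add_one_le_exp (1/2 : ℝ)
        linarith
      rw [inv_le_comm₀ (Real.exp_pos _) (by norm_num)]
      norm_num
      norm_num at this
      exact this
    calc ∑ b : Bool, Real.exp (-(gval (k, b) ^ 2 / 2)) ≤ ∑ _b : Bool, (2/3 : ℝ) ^ k :=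
          Finset.sum_le_sum fun b _ => h2 b
      _ = _ := by simp
  calc ∑ k ∈ Finset.range (K + 1), ∑ b : Bool, Real.exp (-(gval (k, b) ^ 2 / 2))
      ≤ ∑ k ∈ Finset.range (K + 1), 2 * (2/3 : ℝ) ^ k := Finset.sum_le_sum fun k _ => h1 k
    _ = 2 * ∑ k ∈ Finset.range (K + 1), (2/3 : ℝ) ^ k := by rw [Finset.mul_sum]
    _ ≤ 2 * (1 - 2/3)⁻¹ := by
        apply mul_le_mul_of_nonneg_left _ (by norm_num)
        have := (summable_geometric_of_lt_one (r := (2/3:ℝ)) (by norm_num) (by norm_num)).sum_le_tsum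
          (Finset.range (K+1)) (fun i _ => by positivity)
        rwa [tsum_geometric_of_lt_one (by norm_num) (by norm_num)] at this
    _ = 6 := by norm_num

/-- discrete linearization of the exponential of a square -/
theorem linearize (K : ℕ) (w x : ℝ) (hw : 0 ≤ w) (hx : w * |x| ≤ K) :
    Real.exp (w ^ 2 * x ^ 2) ≤
      ∑ g ∈ grid K, 3 * Real.exp (-(gval g ^ 2)) * Real.exp (2 * w * gval g * x) := by
  -- the floor
  set k : ℕ := ⌊w * |x|⌋₊ with hk
  have hnn : 0 ≤ w * |x| := by positivity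
  have h1 : (k:ℝ) ≤ w * |x| := Nat.floor_le hnn
  have h2 : w * |x| < k + 1 := Nat.lt_floor_add_one _
  have hkK : k ≤ K := by
    have : (k:ℝ) ≤ K := h1.trans hx
    exact_mod_cast this
  set b : Bool := decide (0 ≤ x) with hb
  have hmem : (k, b) ∈ grid K := by
    simp [grid]; omega
  have hterm : Real.exp (w ^ 2 * x ^ 2) ≤
      3 * Real.exp (-(gval (k, b) ^ 2)) * Real.exp (2 * w * gval (k, b) * x) := by
    have e1 : gval (k, b) * x = k * |x| := by
      unfold gval
      by_cases hx0 : 0 ≤ x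
      · simp [hb, hx0, abs_of_nonneg hx0]
      · push Not at hx0
        simp [hb, not_le.mpr hx0, abs_of_neg hx0]
    rw [gval_sq]
    have e2 : 2 * w * gval (k, b) * x = 2 * w * (k * |x|) := by rw [← e1]; ring
    rw [e2, mul_assoc, ← Real.exp_add]
    have e3 : w ^ 2 * x ^ 2 ≤ 1 + (-((k:ℝ) ^ 2) + 2 * w * (k * |x|)) := by
      have : w ^ 2 * x ^ 2 = (w * |x|) ^ 2 := by rw [mul_pow, sq_abs]
      rw [this]
      have h3 : (w * |x| - k) ^ 2 ≤ 1 := by
        have : 0 ≤ w * |x| - k := by linarith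
        nlinarith
      nlinarith
    calc Real.exp (w ^ 2 * x ^ 2) ≤ Real.exp (1 + (-((k:ℝ) ^ 2) + 2 * w * (k * |x|))) :=
          Real.exp_le_exp.mpr e3
      _ = Real.exp 1 * Real.exp (-((k:ℝ) ^ 2) + 2 * w * (k * |x|)) := Real.exp_add _ _
      _ ≤ 3 * _ := by
          apply mul_le_mul_of_nonneg_right _ (Real.exp_pos _).le
          linarith [Real.exp_one_lt_d9]
  exact hterm.trans (Finset.single_le_sum (f := fun g => 3 * Real.exp (-(gval g ^ 2)) *
    Real.exp (2 * w * gval g * x)) (fun g _ => by positivity) hmem)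

end Pool.Agent.H497R3.Erg
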