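import Mathlib
import Pool.Agent.H497R3.Erg1

set_option autoImplicit false
open Finset

namespace Pool.Agent.H497R3.Erg

theorem sum_lt_succ {n : ℕ} (f : Fin n → ℝ) (m : ℕ) (hm : m < n) :
    (∑ j : Fin n, if (j:ℕ) < m + 1 then f j else 0) =
      (∑ j : Fin n, if (j:ℕ) < m then f j else 0) + f ⟨m, hm⟩ := by
  have h1 : f ⟨m, hm⟩ = ∑ j, if j = ⟨m, hm⟩ then f j else 0 := by simp
  rw [h1, ← Finset.sum_add_distrib]
  apply Finset.sum_congr rfl
  intro j _
  by_cases h : j = ⟨m, hm⟩
  · subst h; simp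
  · have h2 : (j:ℕ) ≠ m := fun e => h (Fin.ext e)
    by_cases h3 : (j:ℕ) < m
    · simp [h, h3, Nat.lt_succ_of_lt h3]
    · have h4 : ¬ (j:ℕ) < m + 1 := by omega
      simp [h, h3, h4]

theorem abs_yv_le {u : ℝ} (h0 : 0 ≤ u) (h1 : u ≤ 1) (b : Bool) : |yv u b| ≤ 1 := by
  cases b
  · simp [yv, abs_of_nonneg h0, h1]
  · simp only [yv, if_true]
    rw [abs_of_nonneg (by linarith)]
    linarith

theorem Ex_exp_linear {n : ℕ} {u : ℝ} (h0 : 0 ≤ u) (h1 : u ≤ 1) (c : Fin n → ℝ) :
    Ex (bw u) (fun r : Fin n → Bool => Real.exp (∑ k, c k * yv u (r k))) ≤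
      Real.exp (∑ k, (c k) ^ 2 / 2) := by
  have h2 : (fun r : Fin n → Bool => Real.exp (∑ k, c k * yv u (r k))) =
      fun r => ∏ k, Real.exp (c k * yv u (r k)) := by
    funext r
    rw [Real.exp_sum]
  rw [h2, Ex_prod (bw u) (fun k b => Real.exp (c k * yv u b)), Real.exp_sum]
  apply Finset.prod_le_prod
  · intro k _
    exact Finset.sum_nonneg fun b _ => mul_nonneg (bw_nonneg h0 h1 b) (Real.exp_pos _).le
  · intro k _
    exact cosh_bound h0 h1 (c k)

/-- the partial linear form -/
noncomputable def lin {n : ℕ} (u : ℝ) (A : Fin n → Fin n → ℝ) (j : Fin n) (r : Fin n → Bool) : ℝ :=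
  ∑ k, if k < j then A j k * yv u (r k) else 0

theorem lin_update {n : ℕ} (u : ℝ) (A : Fin n → Fin n → ℝ) (j m : Fin n) (hj : j ≤ m)
    (r : Fin n → Bool) (b : Bool) : lin u A j (Function.update r m b) = lin u A j r := by
  unfold lin
  apply Finset.sum_congr rfl
  intro k _
  by_cases hk : k < j
  · have : k ≠ m := ne_of_lt (lt_of_lt_of_le hk hj)
    simp [hk, Function.update_of_ne this]
  · simp [hk]

theorem supermart {n : ℕ} {u : ℝ} (h0 : 0 ≤ u) (h1 : u ≤ 1) (A : Fin n → Fin n → ℝ) (t : ℝ) :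
    Ex (bw u) (fun r : Fin n → Bool => Real.exp (∑ j, (2 * t * (yv u (r j) * lin u A j r) -
      2 * t ^ 2 * (lin u A j r) ^ 2))) ≤ 1 := by
  have key : ∀ m : ℕ, m ≤ n → Ex (bw u) (fun r : Fin n → Bool =>
      Real.exp (∑ j : Fin n, if (j:ℕ) < m then (2 * t * (yv u (r j) * lin u A j r) -
      2 * t ^ 2 * (lin u A j r) ^ 2) else 0)) ≤ 1 := by
    intro m
    induction m with
    | zero =>
      intro _
      simp only [Nat.not_lt_zero, if_false, Finset.sum_const_zero, Real.exp_zero]
      rw [Ex_const (bw_sum u)]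
    | succ m ih =>
      intro hm
      have hm' : m < n := hm
      refine le_trans (Ex_resample_le (bw_nonneg h0 h1) (bw_sum u) ⟨m, hm'⟩ ?_) (ih (by omega))
      intro x
      have e1 : ∀ b : Bool, (∑ j : Fin n, if (j:ℕ) < m + 1 then
          (2 * t * (yv u (Function.update x ⟨m, hm'⟩ b j) *
            lin u A j (Function.update x ⟨m, hm'⟩ b)) -
          2 * t ^ 2 * (lin u A j (Function.update x ⟨m, hm'⟩ b)) ^ 2) else 0) =
          (∑ j : Fin n, if (j:ℕ) < m then (2 * t * (yv u (x j) * lin u A j x) -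
            2 * t ^ 2 * (lin u A j x) ^ 2) else 0) +
          (2 * t * lin u A ⟨m, hm'⟩ x * yv u b - 2 * t ^ 2 * (lin u A ⟨m, hm'⟩ x) ^ 2) := by
        intro b
        rw [sum_lt_succ _ m hm']
        congr 1
        · apply Finset.sum_congr rfl
          intro j _
          by_cases hj : (j:ℕ) < m
          · have hne : j ≠ ⟨m, hm'⟩ := by
              intro e; rw [e] at hj; simp at hj
            have hle : j ≤ ⟨m, hm'⟩ := by
              rw [Fin.le_def]; simp; omega
            simp only [hj, if_true]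
            rw [Function.update_of_ne hne, lin_update u A j ⟨m, hm'⟩ hle]
          · simp [hj]
        · rw [Function.update_self, lin_update u A ⟨m, hm'⟩ ⟨m, hm'⟩ le_rfl]
          ring
      simp only [e1, Real.exp_add]
      set P := Real.exp (∑ j : Fin n, if (j:ℕ) < m then (2 * t * (yv u (x j) * lin u A j x) -
            2 * t ^ 2 * (lin u A j x) ^ 2) else 0) with hP
      set ℓ := lin u A ⟨m, hm'⟩ x with hℓ
      have e2 : ∀ b : Bool, bw u b * (P * Real.exp (2 * t * ℓ * yv u b - 2 * t ^ 2 * ℓ ^ 2)) =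
          P * Real.exp (-(2 * t ^ 2 * ℓ ^ 2)) * (bw u b * Real.exp (2 * t * ℓ * yv u b)) := by
        intro b
        rw [sub_eq_add_neg, Real.exp_add]
        ring
      simp only [e2]
      rw [← Finset.mul_sum]
      have e3 := cosh_bound h0 h1 (2 * t * ℓ)
      calc P * Real.exp (-(2 * t ^ 2 * ℓ ^ 2)) * ∑ b, bw u b * Real.exp (2 * t * ℓ * yv u b)
          ≤ P * Real.exp (-(2 * t ^ 2 * ℓ ^ 2)) * Real.exp ((2 * t * ℓ) ^ 2 / 2) :=
            mul_le_mul_of_nonneg_left e3 (by positivity)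
        _ = P := by
            rw [mul_assoc, ← Real.exp_add]
            have : -(2 * t ^ 2 * ℓ ^ 2) + (2 * t * ℓ) ^ 2 / 2 = 0 := by ring
            rw [this, Real.exp_zero, mul_one]
  have := key n le_rfl
  refine le_trans (le_of_eq ?_) this
  congr 1
  funext r
  congr 1
  apply Finset.sum_congr rfl
  intro j _
  simp [j.2]

/-- exponential moment of the square of a linear form -/
theorem sq_moment {n : ℕ} {u : ℝ} (h0 : 0 ≤ u) (h1 : u ≤ 1) (c : Fin n → ℝ) (s : ℝ) (hs : 0 ≤ s)
    (hsc : s * ∑ k, (c k) ^ 2 ≤ 1 / 4) :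
    Ex (bw u) (fun r : Fin n → Bool => Real.exp (s * (∑ k, c k * yv u (r k)) ^ 2)) ≤ 18 := by
  set w := Real.sqrt s with hw
  have hw0 : 0 ≤ w := Real.sqrt_nonneg s
  have hw2 : w ^ 2 = s := Real.sq_sqrt hs
  set K : ℕ := ⌈w * ∑ k, |c k|⌉₊ with hK
  have hx : ∀ r : Fin n → Bool, w * |∑ k, c k * yv u (r k)| ≤ K := by
    intro r
    refine le_trans ?_ (Nat.le_ceil _)
    apply mul_le_mul_of_nonneg_left _ hw0
    refine (Finset.abs_sum_le_sum_abs _ _).trans (Finset.sum_le_sum fun k _ => ?_)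
    rw [abs_mul]
    calc |c k| * |yv u (r k)| ≤ |c k| * 1 :=
          mul_le_mul_of_nonneg_left (abs_yv_le h0 h1 _) (abs_nonneg _)
      _ = _ := mul_one _
  have hpt : ∀ r : Fin n → Bool, Real.exp (s * (∑ k, c k * yv u (r k)) ^ 2) ≤
      ∑ g ∈ grid K, 3 * Real.exp (-(gval g ^ 2)) *
        Real.exp (∑ k, (2 * w * gval g * c k) * yv u (r k)) := by
    intro r
    have := linearize K w (∑ k, c k * yv u (r k)) hw0 (hx r)
    rw [hw2] at this
    refine this.trans (le_of_eq ?_)
    apply Finset.sum_congr rfl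
    intro g _
    congr 2
    rw [Finset.mul_sum]
    exact Finset.sum_congr rfl fun k _ => by ring
  refine (Ex_mono (bw_nonneg h0 h1) hpt).trans ?_
  rw [Ex_sum]
  have hterm : ∀ g ∈ grid K, Ex (bw u) (fun r : Fin n → Bool => 3 * Real.exp (-(gval g ^ 2)) *
        Real.exp (∑ k, (2 * w * gval g * c k) * yv u (r k))) ≤
        3 * Real.exp (-(gval g ^ 2 / 2)) := by
    intro g _
    rw [Ex_mul_left]
    have h2 := Ex_exp_linear h0 h1 (fun k => 2 * w * gval g * c k)
    have h3 : ∑ k, (2 * w * gval g * c k) ^ 2 / 2 ≤ gval g ^ 2 / 2 := by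
      have e : ∑ k, (2 * w * gval g * c k) ^ 2 / 2 = 2 * gval g ^ 2 * (s * ∑ k, (c k) ^ 2) := by
        rw [Finset.mul_sum, Finset.mul_sum]
        apply Finset.sum_congr rfl
        intro k _
        rw [← hw2]
        ring
      rw [e]
      nlinarith [sq_nonneg (gval g)]
    calc 3 * Real.exp (-(gval g ^ 2)) * Ex (bw u) (fun r : Fin n → Bool =>
          Real.exp (∑ k, (2 * w * gval g * c k) * yv u (r k)))
        ≤ 3 * Real.exp (-(gval g ^ 2)) * Real.exp (gval g ^ 2 / 2) := by
          apply mul_le_mul_of_nonneg_left _ (by positivity)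
          exact h2.trans (Real.exp_le_exp.mpr h3)
      _ = 3 * Real.exp (-(gval g ^ 2 / 2)) := by
          rw [mul_assoc, ← Real.exp_add]
          congr 2
          ring
  calc _ ≤ ∑ g ∈ grid K, 3 * Real.exp (-(gval g ^ 2 / 2)) := Finset.sum_le_sum hterm
    _ = 3 * ∑ g ∈ grid K, Real.exp (-(gval g ^ 2 / 2)) := by rw [Finset.mul_sum]
    _ ≤ 3 * 6 := by
        apply mul_le_mul_of_nonneg_left (grid_sum K) (by norm_num)
    _ = 18 := by norm_num

theorem row_lemma {n : ℕ} {u : ℝ} (h0 : 0 ≤ u) (h1 : u ≤ 1) (A : Fin n → Fin n → ℝ) (t : ℝ)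
    (hV : t ^ 2 * (∑ j, ∑ k, if k < j then (A j k) ^ 2 else 0) ≤ 1 / 8) :
    Ex (bw u) (fun r : Fin n → Bool => Real.exp (t * ∑ j, yv u (r j) * lin u A j r)) ≤ 10 := by
  set v : Fin n → ℝ := fun j => ∑ k, if k < j then (A j k) ^ 2 else 0 with hv
  set V : ℝ := ∑ j, v j with hVdef
  have hv0 : ∀ j, 0 ≤ v j := fun j => Finset.sum_nonneg fun k _ => by split_ifs <;> positivity
  have hV0 : 0 ≤ V := Finset.sum_nonneg fun j _ => hv0 j
  -- split by convexity
  have hsplit : ∀ r : Fin n → Bool, Real.exp (t * ∑ j, yv u (r j) * lin u A j r) ≤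
      1/2 * Real.exp (∑ j, (2 * t * (yv u (r j) * lin u A j r) -
      2 * t ^ 2 * (lin u A j r) ^ 2)) + 1/2 * Real.exp (2 * t ^ 2 * ∑ j, (lin u A j r) ^ 2) := by
    intro r
    have := convexOn_exp.2 (Set.mem_univ (∑ j, (2 * t * (yv u (r j) * lin u A j r) -
      2 * t ^ 2 * (lin u A j r) ^ 2))) (Set.mem_univ (2 * t ^ 2 * ∑ j, (lin u A j r) ^ 2))
      (show (0:ℝ) ≤ 1/2 by norm_num) (show (0:ℝ) ≤ 1/2 by norm_num) (by norm_num)
    simp only [smul_eq_mul] at this
    refine le_trans (le_of_eq ?_) this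
    congr 1
    rw [Finset.sum_sub_distrib, ← Finset.mul_sum, ← Finset.mul_sum]
    ring
  have hsecond : Ex (bw u) (fun r : Fin n → Bool =>
      Real.exp (2 * t ^ 2 * ∑ j, (lin u A j r) ^ 2)) ≤ 18 := by
    have hlinform : ∀ j (r : Fin n → Bool), lin u A j r =
        ∑ k, (if k < j then A j k else 0) * yv u (r k) := by
      intro j r
      unfold lin
      exact Finset.sum_congr rfl fun k _ => by split_ifs <;> simp
    have hvform : ∀ j, ∑ k, (if k < j then A j k else 0) ^ 2 = v j := by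
      intro j
      simp only [hv]
      exact Finset.sum_congr rfl fun k _ => by split_ifs <;> simp
    have hlin0 : ∀ j, v j = 0 → ∀ r : Fin n → Bool, lin u A j r = 0 := by
      intro j hj r
      rw [hlinform]
      rw [← hvform] at hj
      rw [Finset.sum_eq_zero_iff_of_nonneg (fun k _ => sq_nonneg _)] at hj
      apply Finset.sum_eq_zero
      intro k hk
      have := hj k hk
      rw [pow_eq_zero_iff (by norm_num)] at this
      rw [this, zero_mul]
    rcases hV0.eq_or_lt with hVz | hVpos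
    · have hvz : ∀ j, v j = 0 := by
        intro j
        exact (Finset.sum_eq_zero_iff_of_nonneg (fun j _ => hv0 j)).mp hVz.symm j (Finset.mem_univ j)
      have : ∀ r : Fin n → Bool, Real.exp (2 * t ^ 2 * ∑ j, (lin u A j r) ^ 2) = 1 := by
        intro r
        have : ∑ j, (lin u A j r) ^ 2 = 0 :=
          Finset.sum_eq_zero fun j _ => by rw [hlin0 j (hvz j) r]; simp
        rw [this]; simp
      simp only [this]
      rw [Ex_const (bw_sum u)]
      norm_num
    · have hj : ∀ r : Fin n → Bool, Real.exp (2 * t ^ 2 * ∑ j, (lin u A j r) ^ 2) ≤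
          ∑ j, v j / V * Real.exp (2 * t ^ 2 * V / v j * (lin u A j r) ^ 2) := by
        intro r
        have hconv := convexOn_exp.map_sum_le (t := Finset.univ) (w := fun j => v j / V)
          (p := fun j => 2 * t ^ 2 * V / v j * (lin u A j r) ^ 2)
          (fun j _ => div_nonneg (hv0 j) hV0)
          (by rw [← Finset.sum_div]; exact div_self hVpos.ne')
          (fun j _ => Set.mem_univ _)
        simp only [smul_eq_mul] at hconv
        refine le_trans (le_of_eq ?_) hconv
        congr 1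
        rw [Finset.mul_sum]
        apply Finset.sum_congr rfl
        intro j _
        by_cases hvj : v j = 0
        · rw [hlin0 j hvj r]; simp
        · field_simp
      refine (Ex_mono (bw_nonneg h0 h1) hj).trans ?_
      rw [Ex_sum]
      have hterm : ∀ j ∈ (Finset.univ : Finset (Fin n)), Ex (bw u) (fun r : Fin n → Bool =>
          v j / V * Real.exp (2 * t ^ 2 * V / v j * (lin u A j r) ^ 2)) ≤ v j / V * 18 := by
        intro j _
        rw [Ex_mul_left]
        by_cases hvj : v j = 0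
        · simp [hvj]
        · apply mul_le_mul_of_nonneg_left _ (div_nonneg (hv0 j) hV0)
          have hvpos : 0 < v j := lt_of_le_of_ne (hv0 j) (Ne.symm hvj)
          have := sq_moment (n := n) h0 h1 (fun k => if k < j then A j k else 0)
            (2 * t ^ 2 * V / v j) (by positivity) (by
              rw [hvform, div_mul_cancel₀ _ hvj]
              nlinarith)
          refine le_trans (le_of_eq ?_) this
          congr 1
          funext r
          rw [hlinform]
      calc _ ≤ ∑ j, v j / V * 18 := Finset.sum_le_sum hterm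
        _ = 18 := by
            rw [← Finset.sum_mul, ← Finset.sum_div, div_self hVpos.ne', one_mul]
  have h3 := Ex_mono (bw_nonneg h0 h1) hsplit
  rw [Ex_add, Ex_mul_left, Ex_mul_left] at h3
  have h4 := supermart h0 h1 A t
  linarith

end Pool.Agent.H497R3.Erg
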