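import Mathlib
import Pool.Agent.H497R3.Erg2

set_option autoImplicit false
open Finset

namespace Pool.Agent.H497R3.Erg

/-- weight of a row -/
noncomputable def RW {n : ℕ} (u : ℝ) (r : Fin n → Bool) : ℝ := ∏ j, bw u (r j)

theorem RW_sum {n : ℕ} (u : ℝ) : ∑ r : Fin n → Bool, RW u r = 1 := by
  have := Ex_const (I := Fin n) (bw_sum u) 1
  unfold Ex at this
  simpa [RW] using this

theorem RW_nonneg {n : ℕ} {u : ℝ} (h0 : 0 ≤ u) (h1 : u ≤ 1) (r : Fin n → Bool) : 0 ≤ RW u r :=
  Finset.prod_nonneg fun _ _ => bw_nonneg h0 h1 _

/-- quadratic form of a row -/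
noncomputable def qr {n : ℕ} (u : ℝ) (x : Fin n → Fin n → Bool) (i : Fin n) (r : Fin n → Bool) :
    ℝ :=
  ∑ j, yv u (r j) * lin u (fun j k => if j < i then yv u (x j k) else 0) j r

/-- sum of squares of the first rows -/
noncomputable def sqs {n : ℕ} (u : ℝ) (x : Fin n → Fin n → Bool) (m : ℕ) : ℝ :=
  ∑ j : Fin n, if (j:ℕ) < m then (∑ k, if k < j then (yv u (x j k)) ^ 2 else 0) else 0

theorem qr_update {n : ℕ} (u : ℝ) (x : Fin n → Fin n → Bool) (i m : Fin n) (him : i ≤ m)
    (r ρ : Fin n → Bool) : qr u (Function.update x m r) i ρ = qr u x i ρ := by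
  unfold qr
  apply Finset.sum_congr rfl
  intro j _
  congr 1
  unfold lin
  apply Finset.sum_congr rfl
  intro k _
  by_cases hj : j < i
  · have : j ≠ m := ne_of_lt (lt_of_lt_of_le hj him)
    simp [hj, Function.update_of_ne this]
  · simp [hj]

theorem sqs_update {n : ℕ} (u : ℝ) (x : Fin n → Fin n → Bool) (m : Fin n)
    (r : Fin n → Bool) : sqs u (Function.update x m r) (m:ℕ) = sqs u x (m:ℕ) := by
  unfold sqs
  apply Finset.sum_congr rfl
  intro j _
  by_cases hj : (j:ℕ) < (m:ℕ)
  · have : j ≠ m := by intro e; rw [e] at hj; exact lt_irrefl _ hj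
    simp [hj, Function.update_of_ne this]
  · simp [hj]

/-- sequential bound for the cubic form -/
theorem cubic_bound {n : ℕ} {u : ℝ} (h0 : 0 ≤ u) (h1 : u ≤ 1) (t Δ : ℝ) (hΔ : t ^ 2 * Δ ≤ 1 / 8) :
    Ex (RW u) (fun x : Fin n → Fin n → Bool =>
      if sqs u x n ≤ Δ then Real.exp (t * ∑ i, qr u x i (x i)) else 0) ≤ 10 ^ n := by
  have key : ∀ m : ℕ, m ≤ n → Ex (RW u) (fun x : Fin n → Fin n → Bool =>
      if sqs u x m ≤ Δ then Real.exp (∑ i : Fin n, if (i:ℕ) < m then t * qr u x i (x i) else 0)
        else 0) ≤ 10 ^ m := by
    intro m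
    induction m with
    | zero =>
      intro _
      have : ∀ x : Fin n → Fin n → Bool, (if sqs u x 0 ≤ Δ then
          Real.exp (∑ i : Fin n, if (i:ℕ) < 0 then t * qr u x i (x i) else 0) else 0) ≤ 1 := by
        intro x
        split_ifs <;> simp
      refine (Ex_mono (RW_nonneg h0 h1) this).trans ?_
      rw [Ex_const (RW_sum u)]
      simp
    | succ m ih =>
      intro hm
      have hm' : m < n := hm
      set M : Fin n := ⟨m, hm'⟩ with hM
      have hstep : Ex (RW u) (fun x : Fin n → Fin n → Bool =>
          if sqs u x (m + 1) ≤ Δ then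
            Real.exp (∑ i : Fin n, if (i:ℕ) < m + 1 then t * qr u x i (x i) else 0) else 0) ≤
          Ex (RW u) (fun x : Fin n → Fin n → Bool => 10 * (if sqs u x m ≤ Δ then
            Real.exp (∑ i : Fin n, if (i:ℕ) < m then t * qr u x i (x i) else 0) else 0)) := by
        refine Ex_resample_le (RW_nonneg h0 h1) (RW_sum u) M ?_
        intro x
        -- split
        have hsq : ∀ r : Fin n → Bool, sqs u (Function.update x M r) (m + 1) ≤ Δ →
            sqs u x m ≤ Δ := by
          intro r hr
          refine le_trans ?_ hr
          unfold sqs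
          rw [sum_lt_succ _ m hm']
          have e1 := sqs_update u x M r
          unfold sqs at e1
          simp only [hM] at e1
          have e2 : 0 ≤ ∑ k, if k < M then (yv u (Function.update x M r M k)) ^ 2 else 0 :=
            Finset.sum_nonneg fun k _ => by split_ifs <;> positivity
          simp only [hM] at e2
          linarith
        have hsum : ∀ r : Fin n → Bool, (∑ i : Fin n, if (i:ℕ) < m + 1 then
            t * qr u (Function.update x M r) i (Function.update x M r i) else 0) =
            (∑ i : Fin n, if (i:ℕ) < m then t * qr u x i (x i) else 0) + t * qr u x M r := by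
          intro r
          rw [sum_lt_succ _ m hm']
          congr 1
          · apply Finset.sum_congr rfl
            intro i _
            by_cases hi : (i:ℕ) < m
            · have hne : i ≠ M := by intro e; rw [e] at hi; simp [hM] at hi
              have hle : i ≤ M := by rw [Fin.le_def]; simp [hM]; omega
              simp only [hi, if_true]
              rw [qr_update u x i M hle, Function.update_of_ne hne]
            · simp [hi]
          · rw [← hM, qr_update u x M M le_rfl, Function.update_self]
        by_cases hgood : sqs u x m ≤ Δ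
        · have hrow : ∑ r, RW u r * Real.exp (t * qr u x M r) ≤ 10 := by
            have := row_lemma (n := n) h0 h1
              (fun j k => if j < M then yv u (x j k) else 0) t (by
                refine le_trans (mul_le_mul_of_nonneg_left ?_ (sq_nonneg t)) hΔ
                refine le_trans (le_of_eq ?_) hgood
                unfold sqs
                apply Finset.sum_congr rfl
                intro j _
                by_cases hj : j < M
                · have hj' : (j:ℕ) < m := by rw [Fin.lt_def] at hj; simpa [hM] using hj
                  simp [hj, hj']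
                · have hj' : ¬ (j:ℕ) < m := by
                    rw [Fin.lt_def] at hj; simpa [hM] using hj
                  simp [hj, hj'])
            exact this
          rw [if_pos hgood]
          calc ∑ r, RW u r * (if sqs u (Function.update x M r) (m + 1) ≤ Δ then
                Real.exp (∑ i : Fin n, if (i:ℕ) < m + 1 then
                  t * qr u (Function.update x M r) i (Function.update x M r i) else 0) else 0)
              ≤ ∑ r, Real.exp (∑ i : Fin n, if (i:ℕ) < m then t * qr u x i (x i) else 0) *
                (RW u r * Real.exp (t * qr u x M r)) := by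
                apply Finset.sum_le_sum
                intro r _
                rw [hsum r, Real.exp_add]
                split_ifs
                · apply le_of_eq; ring
                · rw [mul_zero]
                  have := RW_nonneg (n := n) h0 h1 r
                  positivity
            _ = Real.exp (∑ i : Fin n, if (i:ℕ) < m then t * qr u x i (x i) else 0) *
                ∑ r, RW u r * Real.exp (t * qr u x M r) := by rw [Finset.mul_sum]
            _ ≤ _ := by
                rw [mul_comm (10:ℝ)]
                exact mul_le_mul_of_nonneg_left hrow (Real.exp_pos _).le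
        · rw [if_neg hgood, mul_zero]
          apply le_of_eq
          apply Finset.sum_eq_zero
          intro r _
          rw [if_neg (fun h => hgood (hsq r h)), mul_zero]
      refine hstep.trans ?_
      rw [Ex_mul_left, pow_succ, mul_comm (10 ^ m : ℝ)]
      exact mul_le_mul_of_nonneg_left (ih (by omega)) (by norm_num)
  refine le_trans (le_of_eq ?_) (key n le_rfl)
  congr 1
  funext x
  congr 2
  rw [Finset.mul_sum]
  apply Finset.sum_congr rfl
  intro i _
  simp [i.2]

/-- product formula over all entries -/
theorem Ex_prod2 {n : ℕ} (u : ℝ) (f : Fin n → Fin n → Bool → ℝ) :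
    Ex (RW u) (fun x : Fin n → Fin n → Bool => ∏ i, ∏ j, f i j (x i j)) =
      ∏ i, ∏ j, ∑ b, bw u b * f i j b := by
  rw [Ex_prod (RW u) (fun i (r : Fin n → Bool) => ∏ j, f i j (r j))]
  apply Finset.prod_congr rfl
  intro i _
  have := Ex_prod (I := Fin n) (bw u) (fun j b => f i j b)
  unfold Ex at this
  exact this

/-- symmetrized double sums -/
theorem sum_sym {n : ℕ} (f : Fin n → Fin n → ℝ) (hf : ∀ i, f i i = 0) :
    ∑ i, ∑ j, f i j = ∑ i, ∑ j, if j < i then f i j + f j i else 0 := by
  have h1 : ∑ i, ∑ j, f i j = ∑ i, ∑ j, ((if j < i then f i j else 0) +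
      (if i < j then f i j else 0)) := by
    apply Finset.sum_congr rfl; intro i _
    apply Finset.sum_congr rfl; intro j _
    rcases lt_trichotomy i j with h | h | h
    · simp [h, not_lt_of_gt h]
    · subst h; simp [hf]
    · simp [h, not_lt_of_gt h]
  have h2 : ∑ i, ∑ j, (if i < j then f i j else 0) = ∑ i, ∑ j, if j < i then f j i else 0 := by
    rw [Finset.sum_comm]
  rw [h1]
  simp only [Finset.sum_add_distrib]
  rw [h2, ← Finset.sum_add_distrib]
  apply Finset.sum_congr rfl; intro i _
  rw [← Finset.sum_add_distrib]
  apply Finset.sum_congr rfl; intro j _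
  split_ifs <;> simp

/-- symmetric centered matrix of a configuration -/
noncomputable def ym {n : ℕ} (u : ℝ) (x : Fin n → Fin n → Bool) (i j : Fin n) : ℝ :=
  if j < i then yv u (x i j) else if i < j then yv u (x j i) else 0

theorem ym_symm {n : ℕ} (u : ℝ) (x : Fin n → Fin n → Bool) (i j : Fin n) :
    ym u x i j = ym u x j i := by
  unfold ym
  rcases lt_trichotomy i j with h | h | h
  · simp [h, not_lt_of_gt h]
  · subst h; simp
  · simp [h, not_lt_of_gt h]

theorem ym_diag {n : ℕ} (u : ℝ) (x : Fin n → Fin n → Bool) (i : Fin n) : ym u x i i = 0 := by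
  simp [ym]

/-- exponential moment of linear combinations of degrees -/
theorem deg_moment {n : ℕ} (u : ℝ) (τ : Fin n → ℝ) :
    Ex (RW u) (fun x : Fin n → Fin n → Bool => Real.exp (∑ v, τ v * (-∑ j, ym u x v j))) =
      ∏ i, ∏ j, if j < i then ∑ b, bw u b * Real.exp ((τ i + τ j) * (-yv u b)) else 1 := by
  have h1 : ∀ x : Fin n → Fin n → Bool, Real.exp (∑ v, τ v * (-∑ j, ym u x v j)) =
      ∏ i, ∏ j, (fun b => if j < i then Real.exp ((τ i + τ j) * (-yv u b)) else 1) (x i j) := by
    intro x
    have h2 : ∑ v, τ v * (-∑ j, ym u x v j) = ∑ v, ∑ j, -(τ v * ym u x v j) := by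
      apply Finset.sum_congr rfl; intro v _
      rw [← Finset.sum_neg_distrib, Finset.mul_sum]
      apply Finset.sum_congr rfl; intro j _
      ring
    rw [h2, sum_sym (fun v j => -(τ v * ym u x v j)) (fun i => by simp [ym_diag]), Real.exp_sum]
    apply Finset.prod_congr rfl; intro i _
    rw [Real.exp_sum]
    apply Finset.prod_congr rfl; intro j _
    by_cases hj : j < i
    · simp only [hj, if_true]
      congr 1
      rw [ym_symm u x j i]
      simp only [ym, hj, if_true]
      ring
    · simp [hj]
  rw [show (fun x : Fin n → Fin n → Bool => Real.exp (∑ v, τ v * (-∑ j, ym u x v j))) = _ from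
    funext h1]
  refine (Ex_prod2 u (fun i j b => if j < i then
    Real.exp ((τ i + τ j) * (-yv u b)) else 1)).trans ?_
  apply Finset.prod_congr rfl; intro i _
  apply Finset.prod_congr rfl; intro j _
  by_cases hj : j < i
  · simp [hj]
  · simp [hj, bw]

end Pool.Agent.H497R3.Erg
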