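import Mathlib
import Pool.Agent.H497R3.Erg3

set_option autoImplicit false
open Finset

namespace Pool.Agent.H497R3.Erg

theorem ym_le {n : ℕ} {u : ℝ} (h1 : u ≤ 1) (x : Fin n → Fin n → Bool) (i j : Fin n) :
    ym u x i j ≤ 1 - u := by
  have hy : ∀ b, yv u b ≤ 1 - u := by
    intro b; cases b <;> simp [yv]
  unfold ym
  split_ifs
  · exact hy _
  · exact hy _
  · linarith

theorem neg_ym_le {n : ℕ} {u : ℝ} (h0 : 0 ≤ u) (h1 : u ≤ 1) (x : Fin n → Fin n → Bool)
    (i j : Fin n) : -ym u x i j ≤ 1 := by
  have hy : ∀ b, -yv u b ≤ 1 := by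
    intro b; have := abs_yv_le h0 h1 b; exact (abs_le.mp this).1 |> fun h => by linarith
  unfold ym
  split_ifs
  · exact hy _
  · exact hy _
  · simp

/-- total number of missing (ordered) pairs -/
noncomputable def miss {n : ℕ} (u : ℝ) (x : Fin n → Fin n → Bool) : ℝ :=
  ∑ i, ∑ j, if i = j then 0 else (1 - u) - ym u x i j

theorem missterm_nonneg {n : ℕ} {u : ℝ} (h1 : u ≤ 1) (x : Fin n → Fin n → Bool) (i j : Fin n) :
    0 ≤ (if i = j then 0 else (1 - u) - ym u x i j) := by
  split_ifs
  · exact le_rfl
  · linarith [ym_le h1 x i j]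

/-- minus the centered degree -/
noncomputable def dg {n : ℕ} (u : ℝ) (x : Fin n → Fin n → Bool) (v : Fin n) : ℝ :=
  -∑ j, ym u x v j

theorem dg_le {n : ℕ} {u : ℝ} (h0 : 0 ≤ u) (h1 : u ≤ 1) (x : Fin n → Fin n → Bool) (v : Fin n) :
    dg u x v ≤ n := by
  unfold dg
  rw [← Finset.sum_neg_distrib]
  calc ∑ j, -ym u x v j ≤ ∑ _j : Fin n, (1:ℝ) := Finset.sum_le_sum fun j _ => neg_ym_le h0 h1 x v j
    _ = n := by simp

theorem le_dg {n : ℕ} {u : ℝ} (h1 : u ≤ 1) (x : Fin n → Fin n → Bool) (v : Fin n) :
    -((1 - u) * n) ≤ dg u x v := by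
  unfold dg
  rw [neg_le_neg_iff]
  calc ∑ j, ym u x v j ≤ ∑ _j : Fin n, (1 - u) := Finset.sum_le_sum fun j _ => ym_le h1 x v j
    _ = (1 - u) * n := by
        rw [Finset.sum_const, Finset.card_univ, Fintype.card_fin, nsmul_eq_mul, mul_comm]

theorem dg_le_miss {n : ℕ} {u : ℝ} (h1 : u ≤ 1) (x : Fin n → Fin n → Bool) (v : Fin n) :
    dg u x v ≤ ∑ j, if v = j then 0 else (1 - u) - ym u x v j := by
  unfold dg
  rw [← Finset.sum_neg_distrib]
  apply Finset.sum_le_sum
  intro j _
  split_ifs with h
  · subst h; simp [ym_diag]
  · linarith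

/-- coefficients -/
noncomputable def cf (n : ℕ) : Option (ℕ × Bool) → ℝ
  | none => Real.exp (-((n:ℝ) / 10))
  | some g => 3 * Real.exp (-(gval g ^ 2))

/-- tilts -/
noncomputable def tl (w : ℝ) : Option (ℕ × Bool) → ℝ
  | none => 635
  | some g => 2 * w * gval g

/-- exponents -/
noncomputable def ps (n : ℕ) : Option (ℕ × Bool) → ℝ
  | none => (n:ℝ) / 20
  | some g => gval g ^ 2 / 2

theorem cf_nonneg (n : ℕ) (o : Option (ℕ × Bool)) : 0 ≤ cf n o := by
  cases o
  · exact (Real.exp_pos _).le
  · simp only [cf]; positivity

/-- pair bound -/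
theorem pair_bound {u w : ℝ} {K : ℕ} (h0 : 0 ≤ u) (h1 : u ≤ 1) (hw0 : 0 ≤ w)
    (hw : 2 * w * K ≤ 25 / 2) (a b : Option (ℕ × Bool)) (ha : a ∈ Finset.insertNone (grid K))
    (hb : b ∈ Finset.insertNone (grid K)) :
    ∑ c, bw u c * Real.exp ((tl w a + tl w b) * (-yv u c)) ≤
      Real.exp (2 * (1 - u) * Real.exp 25 * ((if a = none then 0 else tl w a ^ 2) +
        (if b = none then 0 else tl w b ^ 2)) +
        (1 - u) * Real.exp 648 * ((if a = none then 1 else 0) + (if b = none then 1 else 0)) +
        1270 * ((if a = none then 1 else 0) * (if b = none then 1 else 0))) := by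
  have hp : 0 ≤ 1 - u := by linarith
  have hval : ∀ g : ℕ × Bool, g ∈ grid K → |2 * w * gval g| ≤ 25 / 2 := by
    intro g hg
    rw [abs_mul, gval_abs, abs_of_nonneg (by positivity)]
    have : (g.1 : ℝ) ≤ K := by
      have h := (Finset.mem_product.mp hg).1
      rw [Finset.mem_range] at h
      exact_mod_cast Nat.lt_succ_iff.mp h
    calc 2 * w * (g.1:ℝ) ≤ 2 * w * K := by gcongr
      _ ≤ _ := hw
  rcases a with _ | g <;> rcases b with _ | g'
  · -- both special
    simp only [tl, if_true]
    calc ∑ c, bw u c * Real.exp ((635 + 635) * (-yv u c))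
        ≤ ∑ c, bw u c * Real.exp 1270 := by
          apply Finset.sum_le_sum
          intro c _
          apply mul_le_mul_of_nonneg_left _ (bw_nonneg h0 h1 c)
          apply Real.exp_le_exp.mpr
          have := (abs_le.mp (abs_yv_le h0 h1 c)).1
          linarith
      _ = Real.exp 1270 := by rw [← Finset.sum_mul, bw_sum, one_mul]
      _ ≤ _ := by
          apply Real.exp_le_exp.mpr
          have : 0 ≤ (1 - u) * Real.exp 648 := by positivity
          norm_num
          linarith
  · -- one special
    have hg' : g' ∈ grid K := by simpa using hb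
    have h3 := abs_le.mp (hval g' hg')
    refine (poisson_bound h0 h1 _).trans (Real.exp_le_exp.mpr ?_)
    simp only [tl, if_true, reduceCtorEq, if_false]
    have h4 : Real.exp (635 + 2 * w * gval g') ≤ Real.exp 648 :=
      Real.exp_le_exp.mpr (by linarith)
    have h5 : Real.exp (635 + 2 * w * gval g') - 1 - (635 + 2 * w * gval g') ≤ Real.exp 648 := by
      linarith
    have h6 := mul_le_mul_of_nonneg_left h5 hp
    have h7 : 0 ≤ 2 * (1 - u) * Real.exp 25 * (0 + (2 * w * gval g') ^ 2) := by positivity
    linarith
  · have hg : g ∈ grid K := by simpa using ha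
    have h3 := abs_le.mp (hval g hg)
    refine (poisson_bound h0 h1 _).trans (Real.exp_le_exp.mpr ?_)
    simp only [tl, if_true, reduceCtorEq, if_false]
    have h4 : Real.exp (2 * w * gval g + 635) ≤ Real.exp 648 :=
      Real.exp_le_exp.mpr (by linarith)
    have h5 : Real.exp (2 * w * gval g + 635) - 1 - (2 * w * gval g + 635) ≤ Real.exp 648 := by
      linarith
    have h6 := mul_le_mul_of_nonneg_left h5 hp
    have h7 : 0 ≤ 2 * (1 - u) * Real.exp 25 * ((2 * w * gval g) ^ 2 + 0) := by positivity
    linarith
  · have hg : g ∈ grid K := by simpa using ha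
    have hg' : g' ∈ grid K := by simpa using hb
    have h3 := abs_le.mp (hval g hg)
    have h3' := abs_le.mp (hval g' hg')
    refine (poisson_bound h0 h1 _).trans (Real.exp_le_exp.mpr ?_)
    simp only [tl, reduceCtorEq, if_false]
    have h5 := exp_sub_bound (t := 2 * w * gval g + 2 * w * gval g') (M := 25) (by norm_num)
      (by linarith)
    have h6 := mul_le_mul_of_nonneg_left h5 hp
    have h8 : (2 * w * gval g + 2 * w * gval g') ^ 2 ≤
        2 * ((2 * w * gval g) ^ 2 + (2 * w * gval g') ^ 2) := by
      nlinarith [sq_nonneg (2 * w * gval g - 2 * w * gval g')]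
    have h9 : (1 - u) * (Real.exp 25 * (2 * w * gval g + 2 * w * gval g') ^ 2) ≤
        (1 - u) * (Real.exp 25 * (2 * ((2 * w * gval g) ^ 2 + (2 * w * gval g') ^ 2))) := by
      gcongr
    linarith

theorem quad_bound {n K : ℕ} (hn : n = 16 * K ^ 2) (hK : 1 ≤ K) {u : ℝ} (h0 : 0 ≤ u)
    (h1 : u < 1) (hp1 : (1 - u) * Real.exp 25 ≤ 1 / 20000)
    (hp2 : 2 * (1 - u) * Real.exp 648 + 508000 * (1 - u) ≤ 1 / 20) :
    Ex (RW u) (fun x : Fin n → Fin n → Bool => if miss u x ≤ 4 * (1 - u) * (n:ℝ) ^ 2 then
      Real.exp (625 / n * ∑ v, (dg u x v) ^ 2) else 0) ≤ 19 ^ n := by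
  classical
  have hKr : (1:ℝ) ≤ K := by exact_mod_cast hK
  have hnr : (n:ℝ) = 16 * (K:ℝ) ^ 2 := by rw [hn]; push_cast; ring
  have hnpos : (0:ℝ) < n := by rw [hnr]; positivity
  have hp : 0 < 1 - u := by linarith
  set w : ℝ := 25 / (4 * K) with hw
  have hw0 : 0 < w := by positivity
  have hw2 : w ^ 2 = 625 / n := by
    rw [hw, hnr]
    field_simp
    ring
  have hwK : 2 * w * K = 25 / 2 := by
    rw [hw]; field_simp; ring
  have hwn : w * (n / 100) = K := by
    rw [hw, hnr]; field_simp; ring
  have hp100 : (1 - u) ≤ 1 / 100 := by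
    have : 0 ≤ 2 * (1 - u) * Real.exp 648 := by positivity
    linarith
  set T : Finset (Option (ℕ × Bool)) := Finset.insertNone (grid K) with hT
  -- choice sets
  set tv : (Fin n → Fin n → Bool) → Fin n → Finset (Option (ℕ × Bool)) := fun x v =>
    if (n:ℝ) / 100 < dg u x v then {none} else (grid K).map Function.Embedding.some with htv
  set Φ : Finset (Fin n → Option (ℕ × Bool)) :=
    (Fintype.piFinset fun _ : Fin n => T).filter
      (fun φ => ((Finset.univ.filter fun v => φ v = none).card : ℝ) ≤ 400 * (1 - u) * n) with hΦ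
  -- single vertex bound
  have hsingle : ∀ (x : Fin n → Fin n → Bool) (v : Fin n),
      Real.exp (625 / n * (dg u x v) ^ 2) ≤
        ∑ g ∈ tv x v, cf n g * Real.exp (tl w g * dg u x v) := by
    intro x v
    simp only [htv]
    split_ifs with hv
    · rw [Finset.sum_singleton]
      simp only [cf, tl]
      rw [← Real.exp_add]
      apply Real.exp_le_exp.mpr
      have hle := dg_le h0 h1.le x v
      have hd0 : 0 ≤ dg u x v := le_trans (by positivity) hv.le
      have h3 : 625 / n * (dg u x v) ^ 2 ≤ 625 * dg u x v := by
        have h4 : (dg u x v) ^ 2 ≤ n * dg u x v := by nlinarith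
        calc 625 / n * (dg u x v) ^ 2 ≤ 625 / n * (n * dg u x v) := by gcongr
          _ = 625 * dg u x v := by field_simp
      linarith
    · push Not at hv
      rw [Finset.sum_map]
      simp only [Function.Embedding.some_apply, cf, tl]
      rw [← hw2]
      apply linearize K w (dg u x v) hw0.le
      have hlow := le_dg h1.le x v
      have habs : |dg u x v| ≤ n / 100 := by
        rw [abs_le]
        refine ⟨?_, hv⟩
        have : (1 - u) * n ≤ 1 / 100 * n := by gcongr
        linarith
      calc w * |dg u x v| ≤ w * (n / 100) := by gcongr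
        _ = K := hwn
  -- pointwise bound
  have hpt : ∀ x : Fin n → Fin n → Bool, (if miss u x ≤ 4 * (1 - u) * (n:ℝ) ^ 2 then
      Real.exp (625 / n * ∑ v, (dg u x v) ^ 2) else 0) ≤
      ∑ φ ∈ Φ, (∏ v, cf n (φ v)) * Real.exp (∑ v, tl w (φ v) * (-∑ j, ym u x v j)) := by
    intro x
    split_ifs with hx
    · have e1 : Real.exp (625 / n * ∑ v, (dg u x v) ^ 2) =
          ∏ v, Real.exp (625 / n * (dg u x v) ^ 2) := by
        rw [Finset.mul_sum, Real.exp_sum]
      rw [e1]
      calc ∏ v, Real.exp (625 / n * (dg u x v) ^ 2)
          ≤ ∏ v, ∑ g ∈ tv x v, cf n g * Real.exp (tl w g * dg u x v) :=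
            Finset.prod_le_prod (fun v _ => (Real.exp_pos _).le) (fun v _ => hsingle x v)
        _ = ∑ φ ∈ Fintype.piFinset (tv x), ∏ v, (cf n (φ v) * Real.exp (tl w (φ v) * dg u x v)) :=
            Finset.prod_univ_sum _ _
        _ ≤ ∑ φ ∈ Φ, ∏ v, (cf n (φ v) * Real.exp (tl w (φ v) * dg u x v)) := by
            apply Finset.sum_le_sum_of_subset_of_nonneg
            · intro φ hφ
              rw [Fintype.mem_piFinset] at hφ
              rw [hΦ, Finset.mem_filter, Fintype.mem_piFinset]
              constructor
              · intro v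
                have := hφ v
                simp only [htv] at this
                split_ifs at this with hv
                · rw [Finset.mem_singleton] at this
                  rw [this]; simp [hT]
                · rw [Finset.mem_map] at this
                  obtain ⟨g, hg, hge⟩ := this
                  rw [← hge]
                  simpa [hT] using hg
              · -- count
                set B := Finset.univ.filter fun v => φ v = none with hB
                have hBsub : ∀ v ∈ B, (n:ℝ) / 100 < dg u x v := by
                  intro v hv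
                  rw [hB, Finset.mem_filter] at hv
                  have h2 := hφ v
                  simp only [htv] at h2
                  by_contra hcon
                  rw [if_neg hcon, hv.2, Finset.mem_map] at h2
                  obtain ⟨g, _, hg⟩ := h2
                  simp at hg
                have h3 : (B.card : ℝ) * (n / 100) ≤ 4 * (1 - u) * (n:ℝ) ^ 2 := by
                  calc (B.card : ℝ) * (n / 100) = ∑ _v ∈ B, (n:ℝ) / 100 := by
                        rw [Finset.sum_const, nsmul_eq_mul]
                    _ ≤ ∑ v ∈ B, ∑ j, (if v = j then 0 else (1 - u) - ym u x v j) :=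
                        Finset.sum_le_sum fun v hv => (hBsub v hv).le.trans (dg_le_miss h1.le x v)
                    _ ≤ ∑ v, ∑ j, (if v = j then 0 else (1 - u) - ym u x v j) :=
                        Finset.sum_le_sum_of_subset_of_nonneg (Finset.subset_univ _)
                          (fun v _ _ => Finset.sum_nonneg fun j _ => missterm_nonneg h1.le x v j)
                    _ ≤ _ := hx
                have h4 : (B.card : ℝ) * (n / 100) ≤ (400 * (1 - u) * n) * (n / 100) := by
                  refine h3.trans (le_of_eq ?_)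
                  ring
                exact le_of_mul_le_mul_right h4 (by positivity)
            · intro φ _ _
              exact Finset.prod_nonneg fun v _ => mul_nonneg (cf_nonneg _ _) (Real.exp_pos _).le
        _ = _ := by
            apply Finset.sum_congr rfl
            intro φ _
            rw [Finset.prod_mul_distrib, Real.exp_sum]
            rfl
    · exact Finset.sum_nonneg fun φ _ => mul_nonneg
        (Finset.prod_nonneg fun v _ => cf_nonneg _ _) (Real.exp_pos _).le
  refine (Ex_mono (RW_nonneg h0 h1.le) hpt).trans ?_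
  rw [Ex_sum]
  -- moment bound for each φ
  have hmom : ∀ φ ∈ Φ, Ex (RW u) (fun x : Fin n → Fin n → Bool =>
      (∏ v, cf n (φ v)) * Real.exp (∑ v, tl w (φ v) * (-∑ j, ym u x v j))) ≤
      ∏ v, (cf n (φ v) * Real.exp (ps n (φ v))) := by
    intro φ hφ
    rw [hΦ, Finset.mem_filter, Fintype.mem_piFinset] at hφ
    obtain ⟨hφT, hcard⟩ := hφ
    rw [Ex_mul_left, deg_moment, Finset.prod_mul_distrib]
    apply mul_le_mul_of_nonneg_left _ (Finset.prod_nonneg fun v _ => cf_nonneg _ _)
    set χ : Fin n → ℝ := fun v => if φ v = none then 1 else 0 with hχ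
    set σ : Fin n → ℝ := fun v => if φ v = none then 0 else tl w (φ v) ^ 2 with hσ
    have hχ0 : ∀ v, 0 ≤ χ v := fun v => by simp only [hχ]; split_ifs <;> norm_num
    have hσ0 : ∀ v, 0 ≤ σ v := fun v => by simp only [hσ]; split_ifs <;> positivity
    have hb : ∀ i j : Fin n, (if j < i then
        ∑ b, bw u b * Real.exp ((tl w (φ i) + tl w (φ j)) * (-yv u b)) else 1) ≤
        Real.exp (2 * (1 - u) * Real.exp 25 * (σ i + σ j) + (1 - u) * Real.exp 648 * (χ i + χ j)
          + 1270 * (χ i * χ j)) := by
      intro i j
      split_ifs with hij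
      · exact pair_bound h0 h1.le hw0.le hwK.le (φ i) (φ j) (hφT i) (hφT j)
      · apply Real.one_le_exp
        have := hχ0 i; have := hχ0 j; have := hσ0 i; have := hσ0 j
        positivity
    calc ∏ i, ∏ j, (if j < i then
          ∑ b, bw u b * Real.exp ((tl w (φ i) + tl w (φ j)) * (-yv u b)) else 1)
        ≤ ∏ i, ∏ j, Real.exp (2 * (1 - u) * Real.exp 25 * (σ i + σ j) +
            (1 - u) * Real.exp 648 * (χ i + χ j) + 1270 * (χ i * χ j)) := by
          apply Finset.prod_le_prod
          · intro i _
            apply Finset.prod_nonneg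
            intro j _
            split_ifs
            · exact Finset.sum_nonneg fun b _ => mul_nonneg (bw_nonneg h0 h1.le b) (Real.exp_pos _).le
            · norm_num
          · intro i _
            apply Finset.prod_le_prod
            · intro j _
              split_ifs
              · exact Finset.sum_nonneg fun b _ =>
                  mul_nonneg (bw_nonneg h0 h1.le b) (Real.exp_pos _).le
              · norm_num
            · intro j _
              exact hb i j
      _ = Real.exp (∑ i, ∑ j, (2 * (1 - u) * Real.exp 25 * (σ i + σ j) +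
            (1 - u) * Real.exp 648 * (χ i + χ j) + 1270 * (χ i * χ j))) := by
          rw [Real.exp_sum]
          apply Finset.prod_congr rfl
          intro i _
          rw [Real.exp_sum]
      _ ≤ Real.exp (∑ v, ps n (φ v)) := by
          apply Real.exp_le_exp.mpr
          set S := ∑ v, χ v with hS
          have hScard : S = ((Finset.univ.filter fun v => φ v = none).card : ℝ) := by
            rw [hS]; simp [hχ]
          have hSle : S ≤ 400 * (1 - u) * n := by rw [hScard]; exact hcard
          have hS0 : 0 ≤ S := Finset.sum_nonneg fun v _ => hχ0 v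
          have e1 : ∑ i : Fin n, ∑ j : Fin n, (2 * (1 - u) * Real.exp 25 * (σ i + σ j) +
            (1 - u) * Real.exp 648 * (χ i + χ j) + 1270 * (χ i * χ j)) =
            4 * (1 - u) * Real.exp 25 * n * (∑ v, σ v) + 2 * (1 - u) * Real.exp 648 * n * S +
              1270 * (S * S) := by
            have a1 : ∑ i : Fin n, ∑ j : Fin n, (σ i + σ j) = 2 * n * ∑ v, σ v := by
              simp only [Finset.sum_add_distrib, Finset.sum_const, Finset.card_univ,
                Fintype.card_fin, nsmul_eq_mul]
              rw [← Finset.mul_sum]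
              ring
            have a2 : ∑ i : Fin n, ∑ j : Fin n, (χ i + χ j) = 2 * n * S := by
              simp only [Finset.sum_add_distrib, Finset.sum_const, Finset.card_univ,
                Fintype.card_fin, nsmul_eq_mul]
              rw [← Finset.mul_sum]
              ring
            have a3 : ∑ i : Fin n, ∑ j : Fin n, (χ i * χ j) = S * S := by
              rw [hS, Finset.sum_mul_sum]
            simp only [Finset.sum_add_distrib] at a1 a2 ⊢
            simp only [← Finset.mul_sum, Finset.sum_add_distrib] at a1 a2 a3 ⊢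
            rw [← Finset.sum_mul] at a3
            rw [← Finset.sum_mul, a1, a2, a3]
            ring
          rw [e1]
          have hSS : S * S ≤ 400 * (1 - u) * n * S := mul_le_mul_of_nonneg_right hSle hS0
          have e2 : 4 * (1 - u) * Real.exp 25 * n * (∑ v, σ v) +
              (2 * (1 - u) * Real.exp 648 + 508000 * (1 - u)) * n * S =
              ∑ v, (4 * (1 - u) * Real.exp 25 * n * σ v +
                (2 * (1 - u) * Real.exp 648 + 508000 * (1 - u)) * n * χ v) := by
            rw [Finset.sum_add_distrib, ← Finset.mul_sum, ← Finset.mul_sum]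
          have e3 : ∑ v, (4 * (1 - u) * Real.exp 25 * n * σ v +
                (2 * (1 - u) * Real.exp 648 + 508000 * (1 - u)) * n * χ v) ≤
                ∑ v, ps n (φ v) := by
            apply Finset.sum_le_sum
            intro v _
            rcases hφv : φ v with _ | g
            · simp only [hσ, hχ, hφv, if_true, ps]
              have := mul_le_mul_of_nonneg_right hp2 hnpos.le
              linarith
            · simp only [hσ, hχ, hφv, reduceCtorEq, if_false, ps, tl]
              have e4 : 4 * (1 - u) * Real.exp 25 * n * (2 * w * gval g) ^ 2 =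
                  10000 * ((1 - u) * Real.exp 25) * gval g ^ 2 := by
                have : (2 * w * gval g) ^ 2 = 4 * w ^ 2 * gval g ^ 2 := by ring
                rw [this, hw2]
                field_simp
                ring
              rw [e4]
              nlinarith [sq_nonneg (gval g)]
          nlinarith
      _ = ∏ v, Real.exp (ps n (φ v)) := Real.exp_sum _ _
  calc ∑ φ ∈ Φ, Ex (RW u) (fun x : Fin n → Fin n → Bool =>
      (∏ v, cf n (φ v)) * Real.exp (∑ v, tl w (φ v) * (-∑ j, ym u x v j)))
      ≤ ∑ φ ∈ Φ, ∏ v, (cf n (φ v) * Real.exp (ps n (φ v))) := Finset.sum_le_sum hmom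
    _ ≤ ∑ φ ∈ Fintype.piFinset (fun _ : Fin n => T), ∏ v, (cf n (φ v) * Real.exp (ps n (φ v))) := by
        apply Finset.sum_le_sum_of_subset_of_nonneg (Finset.filter_subset _ _)
        intro φ _ _
        exact Finset.prod_nonneg fun v _ => mul_nonneg (cf_nonneg _ _) (Real.exp_pos _).le
    _ = ∏ _v : Fin n, ∑ g ∈ T, cf n g * Real.exp (ps n g) :=
        (Finset.prod_univ_sum (fun _ : Fin n => T)
          (fun _ g => cf n g * Real.exp (ps n g))).symm
    _ ≤ ∏ _v : Fin n, (19:ℝ) := by
        apply Finset.prod_le_prod
        · intro v _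
          exact Finset.sum_nonneg fun g _ => mul_nonneg (cf_nonneg _ _) (Real.exp_pos _).le
        · intro v _
          rw [hT, Finset.sum_insertNone]
          have h3 : cf n none * Real.exp (ps n none) ≤ 1 := by
            simp only [cf, ps]
            rw [← Real.exp_add]
            apply Real.exp_le_one_iff.mpr
            linarith
          have h4 : ∑ g ∈ grid K, cf n (some g) * Real.exp (ps n (some g)) ≤ 18 := by
            have : ∀ g ∈ grid K, cf n (some g) * Real.exp (ps n (some g)) =
                3 * Real.exp (-(gval g ^ 2 / 2)) := by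
              intro g _
              simp only [cf, ps]
              rw [mul_assoc, ← Real.exp_add]
              congr 2
              ring
            rw [Finset.sum_congr rfl this, ← Finset.mul_sum]
            linarith [grid_sum K]
          linarith
    _ = 19 ^ n := by simp

end Pool.Agent.H497R3.Erg
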