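import Mathlib
import Pool.Agent.H497R3.Erg4

set_option autoImplicit false
open Finset

namespace Pool.Agent.H497R3.Erg

open Classical in
/-- adjacency indicator -/
noncomputable def ad {n : ℕ} (G : SimpleGraph (Fin n)) (i j : Fin n) : ℝ :=
  if G.Adj i j then 1 else 0

theorem ad_symm {n : ℕ} (G : SimpleGraph (Fin n)) (i j : Fin n) : ad G i j = ad G j i := by
  by_cases h : G.Adj i j
  · have h' := h.symm
    simp [ad, h, h']
  · have h' : ¬ G.Adj j i := fun e => h e.symm
    simp [ad, h, h']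

theorem ad_diag {n : ℕ} (G : SimpleGraph (Fin n)) (i : Fin n) : ad G i i = 0 := by
  simp [ad]

theorem edge_count {n : ℕ} (G : SimpleGraph (Fin n)) [Fintype G.edgeSet] :
    (G.edgeFinset.card : ℝ) = 1 / 2 * ∑ i, ∑ j, ad G i j := by
  classical
  have h := G.sum_degrees_eq_twice_card_edges
  have h2 : ∀ v, (G.degree v : ℝ) = ∑ j, ad G v j := by
    intro v
    rw [← G.card_neighborFinset_eq_degree, SimpleGraph.neighborFinset_eq_filter]
    simp [ad]
  have h3 : ((∑ v, G.degree v : ℕ) : ℝ) = 2 * (G.edgeFinset.card : ℝ) := by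
    rw [h]
    push_cast
    congr!
  rw [← Finset.sum_congr rfl (fun v _ => h2 v)]
  push_cast at h3
  linarith

theorem tri_count {n : ℕ} (G : SimpleGraph (Fin n)) [DecidableEq (Fin n)] [DecidableRel G.Adj] :
    (G.cliqueFinset 3).card = (Finset.univ.filter (fun t : Fin n × Fin n × Fin n =>
      (t.2.2 < t.2.1 ∧ t.2.1 < t.1) ∧ G.Adj t.1 t.2.1 ∧ G.Adj t.1 t.2.2 ∧
        G.Adj t.2.1 t.2.2)).card := by
  symm
  apply Finset.card_bij (fun t _ => ({t.1, t.2.1, t.2.2} : Finset (Fin n)))
  · rintro ⟨i, j, k⟩ h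
    simp only [Finset.mem_filter, Finset.mem_univ, true_and] at h
    rw [SimpleGraph.mem_cliqueFinset_iff, SimpleGraph.is3Clique_triple_iff]
    exact h.2
  · rintro ⟨i, j, k⟩ h ⟨i', j', k'⟩ h' heq
    simp only [Finset.mem_filter, Finset.mem_univ, true_and] at h h'
    simp only at heq
    have a1 : i ∈ ({i', j', k'} : Finset (Fin n)) := by rw [← heq]; simp
    have a2 : j ∈ ({i', j', k'} : Finset (Fin n)) := by rw [← heq]; simp
    have a3 : k ∈ ({i', j', k'} : Finset (Fin n)) := by rw [← heq]; simp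
    have b1 : i' ∈ ({i, j, k} : Finset (Fin n)) := by rw [heq]; simp
    have b2 : j' ∈ ({i, j, k} : Finset (Fin n)) := by rw [heq]; simp
    have b3 : k' ∈ ({i, j, k} : Finset (Fin n)) := by rw [heq]; simp
    simp only [Finset.mem_insert, Finset.mem_singleton] at a1 a2 a3 b1 b2 b3
    have c1 := h.1.1
    have c2 := h.1.2
    have c3 := h'.1.1
    have c4 := h'.1.2
    simp only [Fin.lt_def, Fin.ext_iff] at a1 a2 a3 b1 b2 b3 c1 c2 c3 c4
    simp only [Prod.mk.injEq, Fin.ext_iff]
    omega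
  · intro s hs
    rw [SimpleGraph.mem_cliqueFinset_iff, SimpleGraph.is3Clique_iff] at hs
    obtain ⟨a, b, c, hab, hac, hbc, rfl⟩ := hs
    have n1 := G.ne_of_adj hab
    have n2 := G.ne_of_adj hac
    have n3 := G.ne_of_adj hbc
    simp only [Finset.mem_filter, Finset.mem_univ, true_and, exists_prop, Prod.exists]
    rcases lt_or_gt_of_ne n1 with h1 | h1 <;> rcases lt_or_gt_of_ne n2 with h2 | h2 <;>
      rcases lt_or_gt_of_ne n3 with h3 | h3
    · exact ⟨c, b, a, ⟨⟨h1, h3⟩, hbc.symm, hac.symm, hab.symm⟩, by ext y; simp; tauto⟩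
    · exact ⟨b, c, a, ⟨⟨h2, h3⟩, hbc, hab.symm, hac.symm⟩, by ext y; simp; tauto⟩
    · exact absurd (h1.trans h3) (not_lt_of_gt h2)
    · exact ⟨b, a, c, ⟨⟨h2, h1⟩, hab.symm, hbc, hac⟩, by ext y; simp; tauto⟩
    · exact ⟨c, a, b, ⟨⟨h1, h2⟩, hac.symm, hbc.symm, hab⟩, by ext y; simp; tauto⟩
    · exact absurd (h2.trans h3) (not_lt_of_gt h1)
    · exact ⟨a, c, b, ⟨⟨h3, h2⟩, hac, hab, hbc.symm⟩, by ext y; simp; tauto⟩
    · exact ⟨a, b, c, ⟨⟨h3, h1⟩, hab, hac, hbc⟩, rfl⟩

/-- symmetrized triple sums -/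
theorem sum_sym3 {n : ℕ} (f : Fin n → Fin n → Fin n → ℝ) (h1 : ∀ i j k, f i j k = f j i k)
    (h2 : ∀ i j k, f i j k = f i k j) (h3 : ∀ i k, f i i k = 0) :
    ∑ i, ∑ j, ∑ k, f i j k = 6 * ∑ i, ∑ j, ∑ k, if k < j ∧ j < i then f i j k else 0 := by
  set g : Fin n → Fin n → Fin n → ℝ := fun i j k => if k < j ∧ j < i then f i j k else 0 with hg
  have hpt : ∀ i j k, f i j k = g i j k + g i k j + g j i k + g j k i + g k i j + g k j i := by
    intro i j k
    have e1 : f i k j = f i j k := (h2 i j k).symm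
    have e2 : f j i k = f i j k := (h1 i j k).symm
    have e3 : f j k i = f i j k := by rw [h2 j k i, e2]
    have e4 : f k i j = f i j k := by rw [h1 k i j, e1]
    have e5 : f k j i = f i j k := by rw [h2 k j i, e4]
    simp only [hg, e1, e2, e3, e4, e5]
    by_cases hij : i = j
    · subst hij
      rw [h3]; simp
    · by_cases hjk : j = k
      · subst hjk
        have : f i j j = 0 := by rw [h1, h2, h3]
        rw [this]; simp
      · by_cases hik : i = k
        · subst hik
          have : f i j i = 0 := by rw [h2, h3]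
          rw [this]; simp
        · rcases lt_or_gt_of_ne hij with a | a <;> rcases lt_or_gt_of_ne hjk with b | b <;>
            rcases lt_or_gt_of_ne hik with c | c
          · simp [a, b, c, not_lt_of_gt a, not_lt_of_gt b, not_lt_of_gt c]
          · exact absurd (a.trans b) (not_lt_of_gt c)
          · simp [a, b, c, not_lt_of_gt a, not_lt_of_gt b, not_lt_of_gt c]
          · simp [a, b, c, not_lt_of_gt a, not_lt_of_gt b, not_lt_of_gt c]
          · simp [a, b, c, not_lt_of_gt a, not_lt_of_gt b, not_lt_of_gt c]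
          · simp [a, b, c, not_lt_of_gt a, not_lt_of_gt b, not_lt_of_gt c]
          · exact absurd (b.trans a) (not_lt_of_gt c)
          · simp [a, b, c, not_lt_of_gt a, not_lt_of_gt b, not_lt_of_gt c]
  have hsum : ∑ i, ∑ j, ∑ k, f i j k = ∑ i, ∑ j, ∑ k,
      (g i j k + g i k j + g j i k + g j k i + g k i j + g k j i) := by
    apply Finset.sum_congr rfl; intro i _
    apply Finset.sum_congr rfl; intro j _
    apply Finset.sum_congr rfl; intro k _
    exact hpt i j k
  rw [hsum]
  simp only [Finset.sum_add_distrib]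
  have t1 : ∑ i, ∑ j, ∑ k, g i k j = ∑ i, ∑ j, ∑ k, g i j k := by
    apply Finset.sum_congr rfl; intro i _
    rw [Finset.sum_comm]
  have t2 : ∑ i, ∑ j, ∑ k, g j i k = ∑ i, ∑ j, ∑ k, g i j k := by
    rw [Finset.sum_comm]
  have t3 : ∑ i, ∑ j, ∑ k, g j k i = ∑ i, ∑ j, ∑ k, g i j k := by
    rw [Finset.sum_comm]
    apply Finset.sum_congr rfl; intro i _
    rw [Finset.sum_comm]
  have t4 : ∑ i, ∑ j, ∑ k, g k i j = ∑ i, ∑ j, ∑ k, g i j k := by
    have : ∑ i, ∑ j, ∑ k, g k i j = ∑ i, ∑ k, ∑ j, g k i j := by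
      apply Finset.sum_congr rfl; intro i _
      rw [Finset.sum_comm]
    rw [this, Finset.sum_comm]
  have t5 : ∑ i, ∑ j, ∑ k, g k j i = ∑ i, ∑ j, ∑ k, g i j k := by
    have : ∑ i, ∑ j, ∑ k, g k j i = ∑ i, ∑ k, ∑ j, g k j i := by
      apply Finset.sum_congr rfl; intro i _
      rw [Finset.sum_comm]
    rw [this, Finset.sum_comm]
    apply Finset.sum_congr rfl; intro i _
    rw [Finset.sum_comm]
  rw [t1, t2, t3, t4, t5]
  ring

/-- number of triangles as a symmetric triple sum -/
theorem tri_sum {n : ℕ} (G : SimpleGraph (Fin n)) [DecidableEq (Fin n)] [DecidableRel G.Adj] :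
    ((G.cliqueFinset 3).card : ℝ) = 1 / 6 * ∑ i, ∑ j, ∑ k, ad G i j * ad G j k * ad G i k := by
  classical
  rw [sum_sym3 (fun i j k => ad G i j * ad G j k * ad G i k)
    (fun i j k => by simp only [ad_symm G j i]; ring)
    (fun i j k => by simp only [ad_symm G k j]; ring)
    (fun i k => by simp [ad_diag])]
  rw [tri_count]
  have : ∀ i j k : Fin n, (if k < j ∧ j < i then ad G i j * ad G j k * ad G i k else 0) =
      (if (k < j ∧ j < i) ∧ G.Adj i j ∧ G.Adj i k ∧ G.Adj j k then (1:ℝ) else 0) := by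
    intro i j k
    by_cases a : k < j ∧ j < i
    · by_cases b : G.Adj i j <;> by_cases c : G.Adj i k <;> by_cases d : G.Adj j k <;>
        simp [a, b, c, d, ad]
    · simp [a]
  simp only [this]
  rw [← mul_assoc, show (1/6 : ℝ) * 6 = 1 by norm_num, one_mul, Finset.card_filter]
  push_cast
  rw [Fintype.sum_prod_type]
  apply Finset.sum_congr rfl; intro i _
  rw [Fintype.sum_prod_type]

/-- expansion of the triple sum -/
theorem expand3 {n : ℕ} (u : ℝ) (a y : Fin n → Fin n → ℝ) (hy : ∀ i j, y i j = y j i)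
    (hd : ∀ i, y i i = 0) (ha : ∀ i j, a i j = y i j + (if i = j then 0 else u)) :
    ∑ i, ∑ j, ∑ k, a i j * a j k * a i k =
      ∑ i, ∑ j, ∑ k, y i j * y j k * y i k +
      3 * u * (∑ v, (∑ j, y v j) ^ 2 - ∑ i, ∑ j, (y i j) ^ 2) +
      3 * u ^ 2 * ((n:ℝ) - 2) * ∑ i, ∑ j, y i j + u ^ 3 * n * (n - 1) * (n - 2) := by
  set J : Fin n → Fin n → ℝ := fun i j => if i = j then 0 else u with hJ
  have hJ1 : ∀ i j, J i j = u - (if i = j then u else 0) := by
    intro i j; simp only [hJ]; split_ifs <;> simp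
  have hJs : ∀ i j, J i j = J j i := by
    intro i j; simp only [hJ, eq_comm]
  -- quadratic terms
  have q1 : ∀ i : Fin n, ∑ j, ∑ k, y i j * y i k * J j k =
      u * ((∑ j, y i j) ^ 2 - ∑ j, (y i j) ^ 2) := by
    intro i
    have e1 : ∀ j k, y i j * y i k * J j k = u * (y i j * y i k) -
        (if j = k then u * (y i j * y i k) else 0) := by
      intro j k; rw [hJ1]; split_ifs <;> ring
    simp only [e1, Finset.sum_sub_distrib, Finset.sum_ite_eq, Finset.mem_univ, if_true]
    have e2 : ∑ j, ∑ k, u * (y i j * y i k) = u * (∑ j, y i j) ^ 2 := by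
      rw [sq, Finset.sum_mul_sum, Finset.mul_sum]
      apply Finset.sum_congr rfl; intro j _
      rw [Finset.mul_sum]
    rw [e2, mul_sub, Finset.mul_sum Finset.univ (fun j => (y i j) ^ 2)]
    congr 1
    apply Finset.sum_congr rfl; intro j _
    ring
  have A2 : ∑ i, ∑ j, ∑ k, y i j * J j k * y i k =
      u * (∑ v, (∑ j, y v j) ^ 2 - ∑ i, ∑ j, (y i j) ^ 2) := by
    rw [mul_sub, Finset.mul_sum, Finset.mul_sum, ← Finset.sum_sub_distrib]
    apply Finset.sum_congr rfl; intro i _
    rw [← mul_sub, ← q1 i]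
    apply Finset.sum_congr rfl; intro j _
    apply Finset.sum_congr rfl; intro k _
    ring
  have A1 : ∑ i, ∑ j, ∑ k, y i j * y j k * J i k =
      u * (∑ v, (∑ j, y v j) ^ 2 - ∑ i, ∑ j, (y i j) ^ 2) := by
    rw [← A2, Finset.sum_comm]
    apply Finset.sum_congr rfl; intro i _
    apply Finset.sum_congr rfl; intro j _
    apply Finset.sum_congr rfl; intro k _
    rw [hy j i]
    ring
  have A3 : ∑ i, ∑ j, ∑ k, J i j * y j k * y i k =
      u * (∑ v, (∑ j, y v j) ^ 2 - ∑ i, ∑ j, (y i j) ^ 2) := by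
    have : ∑ i, ∑ j, ∑ k, J i j * y j k * y i k = ∑ i, ∑ k, ∑ j, J i j * y j k * y i k := by
      apply Finset.sum_congr rfl; intro i _
      rw [Finset.sum_comm]
    rw [← A2, this, Finset.sum_comm]
    apply Finset.sum_congr rfl; intro i _
    apply Finset.sum_congr rfl; intro j _
    apply Finset.sum_congr rfl; intro k _
    rw [hy k i, hy j i]
    ring
  -- linear terms
  have l1 : ∀ i j : Fin n, ∑ k, J j k * J i k = u ^ 2 * ((n:ℝ) - 2) + (if i = j then u ^ 2 else 0) := by
    intro i j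
    have e1 : ∀ k, J j k * J i k = u ^ 2 - (if j = k then u ^ 2 else 0) -
        (if i = k then u ^ 2 else 0) + (if j = k then (if i = j then u ^ 2 else 0) else 0) := by
      intro k
      rw [hJ1, hJ1]
      by_cases h1 : j = k
      · subst h1
        by_cases h2 : i = j
        · simp [h2]
        · simp [h2]
      · by_cases h2 : i = k
        · simp [h1, h2]
        · simp [h1, h2]; ring
    simp only [e1, Finset.sum_add_distrib, Finset.sum_sub_distrib, Finset.sum_ite_eq,
      Finset.mem_univ, if_true, Finset.sum_const, Finset.card_univ, Fintype.card_fin, nsmul_eq_mul]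
    ring
  have B1 : ∑ i, ∑ j, ∑ k, y i j * J j k * J i k = u ^ 2 * ((n:ℝ) - 2) * ∑ i, ∑ j, y i j := by
    rw [Finset.mul_sum]
    apply Finset.sum_congr rfl; intro i _
    rw [Finset.mul_sum]
    apply Finset.sum_congr rfl; intro j _
    have : ∀ k, y i j * J j k * J i k = y i j * (J j k * J i k) := fun k => by ring
    simp only [this]
    rw [← Finset.mul_sum, l1]
    by_cases h : i = j
    · subst h; rw [hd]; ring
    · simp [h]; ring
  have B2 : ∑ i, ∑ j, ∑ k, J i j * y j k * J i k = u ^ 2 * ((n:ℝ) - 2) * ∑ i, ∑ j, y i j := by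
    have : ∑ i, ∑ j, ∑ k, J i j * y j k * J i k = ∑ j, ∑ k, ∑ i, J i j * y j k * J i k := by
      rw [Finset.sum_comm]
      apply Finset.sum_congr rfl; intro j _
      rw [Finset.sum_comm]
    rw [this, ← B1]
    apply Finset.sum_congr rfl; intro i _
    apply Finset.sum_congr rfl; intro j _
    apply Finset.sum_congr rfl; intro k _
    rw [hJs k i, hJs k j]
    ring
  have B3 : ∑ i, ∑ j, ∑ k, J i j * J j k * y i k = u ^ 2 * ((n:ℝ) - 2) * ∑ i, ∑ j, y i j := by
    have : ∑ i, ∑ j, ∑ k, J i j * J j k * y i k = ∑ i, ∑ k, ∑ j, J i j * J j k * y i k := by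
      apply Finset.sum_congr rfl; intro i _
      rw [Finset.sum_comm]
    rw [this, ← B1]
    apply Finset.sum_congr rfl; intro i _
    apply Finset.sum_congr rfl; intro j _
    apply Finset.sum_congr rfl; intro k _
    rw [hJs k j]
    ring
  have C1 : ∑ i, ∑ j, ∑ k, J i j * J j k * J i k = u ^ 3 * n * (n - 1) * (n - 2) := by
    have e1 : ∀ i j : Fin n, ∑ k, J i j * J j k * J i k =
        u ^ 3 * ((n:ℝ) - 2) - (if i = j then u ^ 3 * ((n:ℝ) - 2) else 0) := by
      intro i j
      have : ∀ k, J i j * J j k * J i k = J i j * (J j k * J i k) := fun k => by ring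
      simp only [this]
      rw [← Finset.mul_sum, l1, hJ1]
      by_cases h : i = j
      · simp [h]
      · simp [h]; ring
    simp only [e1, Finset.sum_sub_distrib, Finset.sum_ite_eq, Finset.mem_univ, if_true,
      Finset.sum_const, Finset.card_univ, Fintype.card_fin, nsmul_eq_mul]
    ring
  have hexp : ∀ i j k, a i j * a j k * a i k = y i j * y j k * y i k +
      y i j * y j k * J i k + y i j * J j k * y i k + J i j * y j k * y i k +
      y i j * J j k * J i k + J i j * y j k * J i k + J i j * J j k * y i k +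
      J i j * J j k * J i k := by
    intro i j k
    rw [ha, ha, ha]
    ring
  simp only [hexp, Finset.sum_add_distrib]
  rw [A1, A2, A3, B1, B2, B3, C1]
  ring

end Pool.Agent.H497R3.Erg
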