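import Mathlib
import Pool.Agent.H497R3.Erg5

set_option autoImplicit false
open Finset

namespace Pool.Agent.H497R3.Erg

/-- graph of a configuration -/
def Gam {n : ℕ} (x : Fin n → Fin n → Bool) : SimpleGraph (Fin n) where
  Adj i j := (j < i ∧ x i j = true) ∨ (i < j ∧ x j i = true)
  symm := by
    constructor
    intro i j h
    tauto
  loopless := by
    constructor
    intro i h
    rcases h with h | h
    · exact lt_irrefl _ h.1
    · exact lt_irrefl _ h.1

theorem Gam_adj_lt {n : ℕ} (x : Fin n → Fin n → Bool) (i j : Fin n) (h : j < i) :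
    (Gam x).Adj i j ↔ x i j = true := by
  simp [Gam, h, not_lt_of_gt h]

theorem ad_Gam_lt {n : ℕ} (x : Fin n → Fin n → Bool) (i j : Fin n) (h : j < i) :
    ad (Gam x) i j = if x i j = true then 1 else 0 := by
  by_cases hx : x i j = true
  · have := (Gam_adj_lt x i j h).mpr hx
    simp [ad, this, hx]
  · have : ¬ (Gam x).Adj i j := fun e => hx ((Gam_adj_lt x i j h).mp e)
    simp [ad, this, hx]

theorem ad_Gam {n : ℕ} (u : ℝ) (x : Fin n → Fin n → Bool) (i j : Fin n) :
    ad (Gam x) i j = ym u x i j + (if i = j then 0 else u) := by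
  rcases lt_trichotomy i j with h | h | h
  · rw [ad_symm, ad_Gam_lt x j i h]
    simp [ym, h, not_lt_of_gt h, ne_of_lt h, yv]
  · subst h
    simp [ad_diag, ym_diag]
  · rw [ad_Gam_lt x i j h]
    simp [ym, h, ne_of_gt h, yv]

open Classical in
/-- probability of a graph -/
noncomputable def PG {n : ℕ} (u : ℝ) (G : SimpleGraph (Fin n)) : ℝ :=
  ∏ i, ∏ j, if j < i then bw u (decide (G.Adj i j)) else 1

open Classical in
theorem push {n : ℕ} (u : ℝ) (R : SimpleGraph (Fin n) → ℝ) :
    ∑ G : SimpleGraph (Fin n), PG u G * R G = Ex (RW u) (fun x => R (Gam x)) := by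
  have hfib : ∀ G : SimpleGraph (Fin n),
      ∑ x ∈ Finset.univ.filter (fun x : Fin n → Fin n → Bool => Gam x = G), ∏ i, RW u (x i) =
        PG u G := by
    intro G
    have h1 : PG u G = Ex (RW u) (fun x : Fin n → Fin n → Bool => ∏ i, ∏ j,
        (fun b => if j < i then (if b = decide (G.Adj i j) then (1:ℝ) else 0) else 1) (x i j)) := by
      rw [Ex_prod2 u (fun i j b => if j < i then
        (if b = decide (G.Adj i j) then (1:ℝ) else 0) else 1)]
      unfold PG
      apply Finset.prod_congr rfl; intro i _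
      apply Finset.prod_congr rfl; intro j _
      by_cases hij : j < i
      · simp only [hij, if_true, mul_ite, mul_one, mul_zero, Finset.sum_ite_eq',
          Finset.mem_univ]
      · simp only [hij, if_false, mul_one, bw_sum]
    rw [h1]
    unfold Ex
    rw [Finset.sum_filter]
    apply Finset.sum_congr rfl
    intro x _
    by_cases hx : Gam x = G
    · rw [if_pos hx]
      have : ∏ i, ∏ j, (fun b => if j < i then
          (if b = decide (G.Adj i j) then (1:ℝ) else 0) else 1) (x i j) = 1 := by
        apply Finset.prod_eq_one; intro i _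
        apply Finset.prod_eq_one; intro j _
        by_cases hij : j < i
        · have h2 := Gam_adj_lt x i j hij
          rw [hx] at h2
          have h3 : x i j = decide (G.Adj i j) := by
            by_cases h4 : G.Adj i j
            · simp [h4, h2.mp h4]
            · have : x i j ≠ true := fun e => h4 (h2.mpr e)
              simp [h4, this]
          simp only [hij, if_true, h3]
        · simp [hij]
      beta_reduce at this ⊢
      rw [this, mul_one]
    · rw [if_neg hx]
      have : ∃ i j : Fin n, j < i ∧ x i j ≠ decide (G.Adj i j) := by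
        by_contra hcon
        push Not at hcon
        apply hx
        ext a b
        rcases lt_trichotomy a b with h | h | h
        · rw [(Gam x).adj_comm, G.adj_comm, Gam_adj_lt x b a h, hcon b a h]
          simp
        · subst h; simp
        · rw [Gam_adj_lt x a b h, hcon a b h]
          simp
      obtain ⟨i, j, hij, hne⟩ := this
      have h0 : ∏ i, ∏ j, (fun b => if j < i then
          (if b = decide (G.Adj i j) then (1:ℝ) else 0) else 1) (x i j) = 0 := by
        apply Finset.prod_eq_zero (Finset.mem_univ i)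
        apply Finset.prod_eq_zero (Finset.mem_univ j)
        simp [hij, hne]
      beta_reduce at h0 ⊢
      rw [h0, mul_zero]
  unfold Ex
  rw [← Finset.sum_fiberwise (s := (Finset.univ : Finset (Fin n → Fin n → Bool)))
    (g := fun x => Gam x)]
  apply Finset.sum_congr rfl
  intro G _
  rw [← hfib G, Finset.sum_mul]
  apply Finset.sum_congr rfl
  intro x hx
  rw [Finset.mem_filter] at hx
  beta_reduce
  rw [hx.2]

/-- the sums -/
noncomputable def s1 {n : ℕ} (u : ℝ) (x : Fin n → Fin n → Bool) : ℝ := ∑ i, ∑ j, ym u x i j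

/-- sum of squared centered degrees -/
noncomputable def s2 {n : ℕ} (u : ℝ) (x : Fin n → Fin n → Bool) : ℝ := ∑ v, (∑ j, ym u x v j) ^ 2

/-- sum of squares of entries -/
noncomputable def sq' {n : ℕ} (u : ℝ) (x : Fin n → Fin n → Bool) : ℝ :=
  ∑ i, ∑ j, (ym u x i j) ^ 2

/-- cubic sum -/
noncomputable def s3 {n : ℕ} (u : ℝ) (x : Fin n → Fin n → Bool) : ℝ :=
  ∑ i, ∑ j, ∑ k, ym u x i j * ym u x j k * ym u x i k

/-- the tilted energy -/
noncomputable def Phi {n : ℕ} (α u : ℝ) (x : Fin n → Fin n → Bool) : ℝ :=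
  α / (6 * n) * s3 u x + α * u / (2 * n) * (s2 u x - sq' u x) - α * u ^ 2 / n * s1 u x

theorem s3_eq {n : ℕ} (u : ℝ) (x : Fin n → Fin n → Bool) :
    s3 u x = 6 * ∑ i, qr u x i (x i) := by
  unfold s3
  rw [sum_sym3 (fun i j k => ym u x i j * ym u x j k * ym u x i k)
    (fun i j k => by rw [ym_symm u x j i]; ring)
    (fun i j k => by rw [ym_symm u x k j]; ring)
    (fun i k => by rw [ym_diag]; ring)]
  congr 1
  apply Finset.sum_congr rfl; intro i _
  unfold qr
  apply Finset.sum_congr rfl; intro j _
  unfold lin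
  rw [Finset.mul_sum]
  apply Finset.sum_congr rfl; intro k _
  by_cases h1 : k < j
  · by_cases h2 : j < i
    · have h3 : k < i := h1.trans h2
      simp only [h1, h2, and_self, if_true, ym, h3]
      ring
    · simp [h1, h2]
  · simp [h1]

/-- monomial factor -/
noncomputable def mono {n : ℕ} (u : ℝ) (a b : Fin n) (i j : Fin n) (c : Bool) : ℝ :=
  if i = a ∧ j = b then yv u c else 1

theorem prod_mono {n : ℕ} (u : ℝ) (a b : Fin n) (x : Fin n → Fin n → Bool) :
    ∏ i, ∏ j, mono u a b i j (x i j) = yv u (x a b) := by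
  rw [Finset.prod_eq_single a]
  · rw [Finset.prod_eq_single b]
    · simp [mono]
    · intro j _ hj
      simp [mono, hj]
    · intro h; exact absurd (Finset.mem_univ _) h
  · intro i _ hi
    apply Finset.prod_eq_one
    intro j _
    simp [mono, hi]
  · intro h; exact absurd (Finset.mem_univ _) h

theorem Ex_zero_of_factor {n : ℕ} (u : ℝ) (f : Fin n → Fin n → Bool → ℝ) (a b : Fin n)
    (h : ∑ c, bw u c * f a b c = 0) :
    Ex (RW u) (fun x : Fin n → Fin n → Bool => ∏ i, ∏ j, f i j (x i j)) = 0 := by
  rw [Ex_prod2]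
  apply Finset.prod_eq_zero (Finset.mem_univ a)
  exact Finset.prod_eq_zero (Finset.mem_univ b) h

theorem Ex_mono1 {n : ℕ} (u : ℝ) (a b : Fin n) :
    Ex (RW u) (fun x : Fin n → Fin n → Bool => yv u (x a b)) = 0 := by
  have := Ex_zero_of_factor u (mono u a b) a b (by simp only [mono, and_self, if_true]; exact bw_yv u)
  simpa only [prod_mono] using this

theorem Ex_mono2 {n : ℕ} (u : ℝ) (a b c d : Fin n) (h : ¬ (a = c ∧ b = d)) :
    Ex (RW u) (fun x : Fin n → Fin n → Bool => yv u (x a b) * yv u (x c d)) = 0 := by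
  have := Ex_zero_of_factor u (fun i j e => mono u a b i j e * mono u c d i j e) a b (by
    simp only [mono, and_self, if_true, h, if_false, mul_one]; exact bw_yv u)
  simpa only [Finset.prod_mul_distrib, prod_mono] using this

theorem Ex_mono3 {n : ℕ} (u : ℝ) (a b c d e f : Fin n) (h : ¬ (a = c ∧ b = d))
    (h' : ¬ (a = e ∧ b = f)) :
    Ex (RW u) (fun x : Fin n → Fin n → Bool => yv u (x a b) * yv u (x c d) * yv u (x e f)) = 0 := by
  have := Ex_zero_of_factor u
    (fun i j t => mono u a b i j t * mono u c d i j t * mono u e f i j t) a b (by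
    simp only [mono, and_self, if_true, h, h', if_false, mul_one]; exact bw_yv u)
  simpa only [Finset.prod_mul_distrib, prod_mono] using this

theorem Ex_s1 {n : ℕ} (u : ℝ) : Ex (RW u) (fun x : Fin n → Fin n → Bool => s1 u x) = 0 := by
  unfold s1
  rw [Ex_sum]
  apply Finset.sum_eq_zero; intro i _
  rw [Ex_sum]
  apply Finset.sum_eq_zero; intro j _
  unfold ym
  by_cases h1 : j < i
  · simp only [h1, if_true]; exact Ex_mono1 u i j
  · by_cases h2 : i < j
    · simp only [h1, h2, if_true, if_false]; exact Ex_mono1 u j i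
    · simp only [h1, h2, if_false]; simp [Ex]

theorem Ex_ym2 {n : ℕ} (u : ℝ) (v j k : Fin n) (hjk : j ≠ k) :
    Ex (RW u) (fun x : Fin n → Fin n → Bool => ym u x v j * ym u x v k) = 0 := by
  unfold ym
  by_cases h1 : j < v
  · by_cases h2 : k < v
    · simp only [h1, h2, if_true]; exact Ex_mono2 u v j v k (by simp [hjk])
    · by_cases h3 : v < k
      · simp only [h1, h2, h3, if_true, if_false]
        exact Ex_mono2 u v j k v (by rintro ⟨e, _⟩; rw [e] at h3; exact lt_irrefl _ h3)
      · simp only [h2, h3, if_false]; simp [Ex]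
  · by_cases h1' : v < j
    · by_cases h2 : k < v
      · simp only [h1, h1', h2, if_true, if_false]
        exact Ex_mono2 u j v v k (by rintro ⟨e, _⟩; rw [e] at h1'; exact lt_irrefl _ h1')
      · by_cases h3 : v < k
        · simp only [h1, h1', h2, h3, if_true, if_false]
          exact Ex_mono2 u j v k v (by simp [hjk])
        · simp only [h2, h3, if_false]; simp [Ex]
    · simp only [h1, h1', if_false]; simp [Ex]

theorem Ex_s2 {n : ℕ} (u : ℝ) :
    Ex (RW u) (fun x : Fin n → Fin n → Bool => s2 u x - sq' u x) = 0 := by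
  have h1 : ∀ x : Fin n → Fin n → Bool, s2 u x - sq' u x =
      ∑ v, ∑ j, ∑ k, if j = k then 0 else ym u x v j * ym u x v k := by
    intro x
    unfold s2 sq'
    rw [← Finset.sum_sub_distrib]
    apply Finset.sum_congr rfl; intro v _
    rw [sq, Finset.sum_mul_sum, ← Finset.sum_sub_distrib]
    apply Finset.sum_congr rfl; intro j _
    have : ∀ k, (if j = k then 0 else ym u x v j * ym u x v k) = ym u x v j * ym u x v k -
        (if j = k then ym u x v j * ym u x v k else 0) := by
      intro k; split_ifs <;> simp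
    simp only [this, Finset.sum_sub_distrib, Finset.sum_ite_eq, Finset.mem_univ, if_true]
    ring
  simp only [h1]
  rw [Ex_sum]
  apply Finset.sum_eq_zero; intro v _
  rw [Ex_sum]
  apply Finset.sum_eq_zero; intro j _
  rw [Ex_sum]
  apply Finset.sum_eq_zero; intro k _
  by_cases hjk : j = k
  · simp only [hjk, if_true]; simp [Ex]
  · simp only [hjk, if_false]; exact Ex_ym2 u v j k hjk

theorem Ex_s3 {n : ℕ} (u : ℝ) : Ex (RW u) (fun x : Fin n → Fin n → Bool => s3 u x) = 0 := by
  simp only [s3_eq]
  rw [Ex_mul_left, Ex_sum]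
  have : ∑ i, Ex (RW u) (fun x : Fin n → Fin n → Bool => qr u x i (x i)) = 0 := by
    apply Finset.sum_eq_zero; intro i _
    unfold qr
    rw [Ex_sum]
    apply Finset.sum_eq_zero; intro j _
    unfold lin
    simp only [Finset.mul_sum]
    rw [Ex_sum]
    apply Finset.sum_eq_zero; intro k _
    by_cases h1 : k < j
    · by_cases h2 : j < i
      · have h3 := Ex_mono3 u i j j k i k (by rintro ⟨e, _⟩; rw [e] at h2; exact lt_irrefl _ h2)
          (by rintro ⟨_, e⟩; rw [e] at h1; exact lt_irrefl _ h1)
        refine Eq.trans ?_ h3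
        congr 1
        funext x
        simp only [h1, h2, if_true]
        ring
      · simp only [h2, if_false]; simp [Ex]
    · simp only [h1, if_false]; simp [Ex]
  rw [this, mul_zero]

theorem one_le_Ex_exp_Phi {n : ℕ} {u : ℝ} (h0 : 0 ≤ u) (h1 : u ≤ 1) (α : ℝ) :
    1 ≤ Ex (RW u) (fun x : Fin n → Fin n → Bool => Real.exp (Phi α u x)) := by
  have h2 : Ex (RW u) (fun x : Fin n → Fin n → Bool => 1 + Phi α u x) = 1 := by
    rw [Ex_add, Ex_const (RW_sum u)]
    have : Ex (RW u) (fun x : Fin n → Fin n → Bool => Phi α u x) = 0 := by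
      have e : (fun x : Fin n → Fin n → Bool => Phi α u x) = fun x =>
          (α / (6 * n) * s3 u x + α * u / (2 * n) * (s2 u x - sq' u x)) +
            (-(α * u ^ 2 / n)) * s1 u x := by
        funext x; unfold Phi; ring
      rw [e, Ex_add, Ex_add, Ex_mul_left, Ex_mul_left, Ex_mul_left, Ex_s1, Ex_s2, Ex_s3]
      ring
    rw [this]; ring
  calc (1:ℝ) = Ex (RW u) (fun x : Fin n → Fin n → Bool => 1 + Phi α u x) := h2.symm
    _ ≤ _ := Ex_mono (RW_nonneg h0 h1) fun x => by
      have := Real.add_one_le_exp (Phi α u x)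
      linarith

end Pool.Agent.H497R3.Erg
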