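import Mathlib
import Pool.Agent.H497R3.Erg6

set_option autoImplicit false
open Finset

namespace Pool.Agent.H497R3.Erg

/-- number of edges as a real number -/
noncomputable def En {n : ℕ} (G : SimpleGraph (Fin n)) : ℝ := 1 / 2 * ∑ i, ∑ j, ad G i j

/-- number of triangles as a real number -/
noncomputable def Tn {n : ℕ} (G : SimpleGraph (Fin n)) : ℝ :=
  1 / 6 * ∑ i, ∑ j, ∑ k, ad G i j * ad G j k * ad G i k

theorem PG_pos {n : ℕ} {u : ℝ} (h0 : 0 < u) (h1 : u < 1) (G : SimpleGraph (Fin n)) :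
    0 < PG u G := by
  unfold PG
  apply Finset.prod_pos; intro i _
  apply Finset.prod_pos; intro j _
  split_ifs
  · unfold bw; split_ifs <;> linarith
  · norm_num

theorem log_PG {n : ℕ} {u : ℝ} (h0 : 0 < u) (h1 : u < 1) (G : SimpleGraph (Fin n)) :
    Real.log (PG u G) = 1 / 2 * (n * (n - 1) * Real.log (1 - u) +
      (Real.log u - Real.log (1 - u)) * ∑ i, ∑ j, ad G i j) := by
  classical
  have hpos : ∀ i j : Fin n, (if j < i then bw u (decide (G.Adj i j)) else 1) ≠ 0 := by
    intro i j
    split_ifs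
    · unfold bw; split_ifs <;> linarith
    · norm_num
  have e1 : Real.log (PG u G) = ∑ i, ∑ j, if j < i then
      (Real.log (1 - u) + (Real.log u - Real.log (1 - u)) * ad G i j) else 0 := by
    unfold PG
    rw [Real.log_prod (fun i _ => Finset.prod_ne_zero_iff.mpr fun j _ => by convert hpos i j)]
    apply Finset.sum_congr rfl; intro i _
    rw [Real.log_prod (fun j _ => by convert hpos i j)]
    apply Finset.sum_congr rfl; intro j _
    by_cases hij : j < i
    · simp only [hij, if_true]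
      by_cases ha : G.Adj i j
      · simp [bw, ad, ha]
      · simp [bw, ad, ha]
    · simp [hij]
  have e2 := sum_sym (n := n) (fun i j => if i = j then 0 else
    1 / 2 * (Real.log (1 - u) + (Real.log u - Real.log (1 - u)) * ad G i j)) (fun i => by simp)
  have e3 : ∑ i, ∑ j, (if j < i then
      ((if i = j then 0 else
        1 / 2 * (Real.log (1 - u) + (Real.log u - Real.log (1 - u)) * ad G i j)) +
       (if j = i then 0 else
        1 / 2 * (Real.log (1 - u) + (Real.log u - Real.log (1 - u)) * ad G j i))) else 0) =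
      ∑ i, ∑ j, if j < i then
      (Real.log (1 - u) + (Real.log u - Real.log (1 - u)) * ad G i j) else 0 := by
    apply Finset.sum_congr rfl; intro i _
    apply Finset.sum_congr rfl; intro j _
    by_cases hij : j < i
    · have h3 : i ≠ j := ne_of_gt hij
      have h4 : j ≠ i := ne_of_lt hij
      simp only [hij, if_true, h3, h4, if_false]
      rw [ad_symm G j i]
      ring
    · simp [hij]
  rw [e1, ← e3, ← e2]
  have e4 : ∀ i j : Fin n, (if i = j then (0:ℝ) else
      1 / 2 * (Real.log (1 - u) + (Real.log u - Real.log (1 - u)) * ad G i j)) =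
      1 / 2 * Real.log (1 - u) + 1 / 2 * (Real.log u - Real.log (1 - u)) * ad G i j -
      (if i = j then 1 / 2 * Real.log (1 - u) else 0) := by
    intro i j
    by_cases hij : i = j
    · subst hij; simp [ad_diag]
    · simp [hij]; ring
  simp only [e4, Finset.sum_sub_distrib, Finset.sum_add_distrib, Finset.sum_ite_eq,
    Finset.mem_univ, if_true, Finset.sum_const, Finset.card_univ, Fintype.card_fin, nsmul_eq_mul,
    ← Finset.mul_sum]
  ring

theorem energy_identity {n : ℕ} (hn : 1 ≤ n) (h α u : ℝ) (h0 : 0 < u) (h1 : u < 1)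
    (hst : h + α * u ^ 2 = Real.log u - Real.log (1 - u)) (x : Fin n → Fin n → Bool) :
    h * En (Gam x) + α / n * Tn (Gam x) - Real.log (PG u (Gam x)) =
      ((n:ℝ) * (n - 1) / 2 * (α * u ^ 3 / 3 + h * u - (u * Real.log u +
        (1 - u) * Real.log (1 - u))) - (n - 1) * (α / 3) * u ^ 3) + Phi α u x := by
  have hnr : (n:ℝ) ≠ 0 := by exact_mod_cast (by omega : n ≠ 0)
  have hT := expand3 u (ad (Gam x)) (ym u x) (ym_symm u x) (ym_diag u x) (ad_Gam u x)
  have hE : ∑ i, ∑ j, ad (Gam x) i j = s1 u x + u * (n * (n - 1)) := by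
    unfold s1
    simp only [ad_Gam u x, Finset.sum_add_distrib]
    congr 1
    have : ∀ i j : Fin n, (if i = j then (0:ℝ) else u) = u - (if i = j then u else 0) := by
      intro i j; split_ifs <;> simp
    simp only [this, Finset.sum_sub_distrib, Finset.sum_ite_eq, Finset.mem_univ, if_true,
      Finset.sum_const, Finset.card_univ, Fintype.card_fin, nsmul_eq_mul]
    ring
  rw [log_PG h0 h1]
  unfold En Tn
  rw [hT, hE]
  have e3 : ∑ i, ∑ j, ∑ k, ym u x i j * ym u x j k * ym u x i k = s3 u x := rfl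
  have e2 : ∑ v, (∑ j, ym u x v j) ^ 2 = s2 u x := rfl
  have e1 : ∑ i, ∑ j, (ym u x i j) ^ 2 = sq' u x := rfl
  have e0 : ∑ i, ∑ j, ym u x i j = s1 u x := rfl
  rw [e3, e2, e1, e0]
  have hh : h = Real.log u - Real.log (1 - u) - α * u ^ 2 := by linarith
  unfold Phi
  rw [hh]
  field_simp
  ring

open Classical in
theorem weight_sum {n : ℕ} (hn : 1 ≤ n) (h α u : ℝ) (h0 : 0 < u) (h1 : u < 1)
    (hst : h + α * u ^ 2 = Real.log u - Real.log (1 - u)) (R : SimpleGraph (Fin n) → ℝ) :
    ∑ G : SimpleGraph (Fin n), Real.exp (h * En G + α / n * Tn G) * R G =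
      Real.exp ((n:ℝ) * (n - 1) / 2 * (α * u ^ 3 / 3 + h * u - (u * Real.log u +
        (1 - u) * Real.log (1 - u))) - (n - 1) * (α / 3) * u ^ 3) *
      Ex (RW u) (fun x : Fin n → Fin n → Bool => Real.exp (Phi α u x) * R (Gam x)) := by
  have e1 : ∀ G : SimpleGraph (Fin n), Real.exp (h * En G + α / n * Tn G) * R G =
      PG u G * (Real.exp (h * En G + α / n * Tn G - Real.log (PG u G)) * R G) := by
    intro G
    rw [Real.exp_sub, Real.exp_log (PG_pos h0 h1 G)]
    have := (PG_pos h0 h1 G).ne'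
    field_simp
  rw [Finset.sum_congr rfl fun G _ => e1 G,
    push u (fun G => Real.exp (h * En G + α / n * Tn G - Real.log (PG u G)) * R G), ← Ex_mul_left]
  congr 1
  funext x
  rw [energy_identity hn h α u h0 h1 hst x, Real.exp_add]
  ring

/-- upper bound for the dense phase -/
theorem dense_bound {n K : ℕ} (hn : n = 16 * K ^ 2) (hK : 1 ≤ K) {u : ℝ} (h0 : 0 < u)
    (h1 : u < 1) (hp : 1 - u ≤ Real.exp (-664)) :
    Ex (RW u) (fun x : Fin n → Fin n → Bool => if miss u x ≤ 4 * (1 - u) * (n:ℝ) ^ 2 then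
      Real.exp (Phi 1000 u x) else 0) ≤ Real.exp (4 * n) := by
  have hKr : (1:ℝ) ≤ K := by exact_mod_cast hK
  have hnr : (n:ℝ) = 16 * (K:ℝ) ^ 2 := by rw [hn]; push_cast; ring
  have hnpos : (0:ℝ) < n := by rw [hnr]; positivity
  have hp0 : 0 < 1 - u := by linarith
  -- numeric bounds
  have hexp32 : Real.exp (-32) ≤ 1 / 1000000000 := by
    have e1 : Real.exp (-32) = (Real.exp 1 ^ 32)⁻¹ := by
      rw [← Real.exp_nat_mul, ← Real.exp_neg]; norm_num
    rw [e1, inv_le_comm₀ (by positivity) (by norm_num)]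
    calc (1 / 1000000000 : ℝ)⁻¹ ≤ 2 ^ 32 := by norm_num
      _ ≤ _ := by
        apply pow_le_pow_left₀ (by norm_num)
        linarith [Real.exp_one_gt_d9]
  have hexp16 : Real.exp (-16) ≤ 1 / 60000 := by
    have e1 : Real.exp (-16) = (Real.exp 1 ^ 16)⁻¹ := by
      rw [← Real.exp_nat_mul, ← Real.exp_neg]; norm_num
    rw [e1, inv_le_comm₀ (by positivity) (by norm_num)]
    calc (1 / 60000 : ℝ)⁻¹ ≤ 2 ^ 16 := by norm_num
      _ ≤ _ := by
        apply pow_le_pow_left₀ (by norm_num)
        linarith [Real.exp_one_gt_d9]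
  have hp9 : 1 - u ≤ 1 / 1000000000 :=
    hp.trans ((Real.exp_le_exp.mpr (by norm_num)).trans hexp32)
  have hp1 : (1 - u) * Real.exp 25 ≤ 1 / 20000 := by
    calc (1 - u) * Real.exp 25 ≤ Real.exp (-664) * Real.exp 25 := by gcongr
      _ = Real.exp (-639) := by rw [← Real.exp_add]; norm_num
      _ ≤ Real.exp (-16) := Real.exp_le_exp.mpr (by norm_num)
      _ ≤ _ := by linarith
  have hp2 : 2 * (1 - u) * Real.exp 648 + 508000 * (1 - u) ≤ 1 / 20 := by
    have : (1 - u) * Real.exp 648 ≤ 1 / 60000 := by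
      calc (1 - u) * Real.exp 648 ≤ Real.exp (-664) * Real.exp 648 := by gcongr
        _ = Real.exp (-16) := by rw [← Real.exp_add]; norm_num
        _ ≤ _ := hexp16
    linarith
  have hquad := quad_bound hn hK h0.le h1 hp1 hp2
  have hcub := cubic_bound (n := n) h0.le h1.le (5000 / n) (5 * (1 - u) * (n:ℝ) ^ 2) (by
    have : (5000 / (n:ℝ)) ^ 2 * (5 * (1 - u) * (n:ℝ) ^ 2) = 125000000 * (1 - u) := by
      field_simp; ring
    rw [this]
    linarith)
  -- pointwise
  have hpt : ∀ x : Fin n → Fin n → Bool, (if miss u x ≤ 4 * (1 - u) * (n:ℝ) ^ 2 then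
      Real.exp (Phi 1000 u x) else 0) ≤
      Real.exp n * (1 / 5 * (if sqs u x n ≤ 5 * (1 - u) * (n:ℝ) ^ 2 then
        Real.exp (5000 / n * ∑ i, qr u x i (x i)) else 0) +
        4 / 5 * (if miss u x ≤ 4 * (1 - u) * (n:ℝ) ^ 2 then
      Real.exp (625 / n * ∑ v, (dg u x v) ^ 2) else 0)) := by
    intro x
    by_cases hx : miss u x ≤ 4 * (1 - u) * (n:ℝ) ^ 2
    · have hsq : sqs u x n ≤ 5 * (1 - u) * (n:ℝ) ^ 2 := by
        have e1 : sqs u x n ≤ ∑ i : Fin n, ∑ j : Fin n, ((1 - u) +
            (if i = j then 0 else (1 - u) - ym u x i j)) := by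
          unfold sqs
          apply Finset.sum_le_sum; intro j _
          rw [if_pos j.2]
          apply Finset.sum_le_sum; intro k _
          by_cases hkj : k < j
          · have hne : j ≠ k := ne_of_gt hkj
            simp only [hkj, if_true, hne, if_false, ym]
            cases x j k
            · simp only [yv, Bool.false_eq_true, if_false]
              nlinarith
            · simp only [yv, if_true]
              nlinarith
          · have := missterm_nonneg h1.le x j k
            simp only [hkj, if_false]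
            linarith
        refine e1.trans ?_
        simp only [Finset.sum_add_distrib, Finset.sum_const, Finset.card_univ, Fintype.card_fin,
          nsmul_eq_mul]
        have : ∑ i : Fin n, ∑ j : Fin n, (if i = j then 0 else (1 - u) - ym u x i j) = miss u x := rfl
        rw [this]
        nlinarith
      rw [if_pos hx, if_pos hsq, if_pos hx]
      set A := ∑ i, qr u x i (x i) with hA
      set B := ∑ v, (dg u x v) ^ 2 with hB
      have hs2 : s2 u x = B := by
        unfold s2
        rw [hB]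
        apply Finset.sum_congr rfl; intro v _
        unfold dg; ring
      have hBnn : 0 ≤ B := Finset.sum_nonneg fun v _ => sq_nonneg _
      have hsqnn : 0 ≤ sq' u x :=
        Finset.sum_nonneg fun i _ => Finset.sum_nonneg fun j _ => sq_nonneg _
      have hms : -s1 u x ≤ miss u x := by
        unfold s1 miss
        rw [← Finset.sum_neg_distrib]
        apply Finset.sum_le_sum; intro i _
        rw [← Finset.sum_neg_distrib]
        apply Finset.sum_le_sum; intro j _
        split_ifs with hij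
        · subst hij; simp [ym_diag]
        · linarith
      have hmnn : 0 ≤ miss u x :=
        Finset.sum_nonneg fun i _ => Finset.sum_nonneg fun j _ => missterm_nonneg h1.le x i j
      have hPhi : Phi 1000 u x ≤ n + (1 / 5 * (5000 / n * A) + 4 / 5 * (625 / n * B)) := by
        unfold Phi
        rw [s3_eq, hs2]
        have t1 : 1000 / (6 * (n:ℝ)) * (6 * A) = 1 / 5 * (5000 / n * A) := by
          field_simp; ring
        have t2 : 1000 * u / (2 * (n:ℝ)) * (B - sq' u x) ≤ 4 / 5 * (625 / n * B) := by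
          have a1 : 1000 * u / (2 * (n:ℝ)) * (B - sq' u x) ≤ 1000 * u / (2 * (n:ℝ)) * B := by
            apply mul_le_mul_of_nonneg_left _ (by positivity)
            linarith
          have a2 : 1000 * u / (2 * (n:ℝ)) * B ≤ 1000 * 1 / (2 * (n:ℝ)) * B := by gcongr
          have a3 : 1000 * 1 / (2 * (n:ℝ)) * B = 4 / 5 * (625 / n * B) := by
            field_simp; ring
          linarith
        have t3 : -(1000 * u ^ 2 / (n:ℝ) * s1 u x) ≤ n := by
          have a1 : -(1000 * u ^ 2 / (n:ℝ) * s1 u x) = 1000 * u ^ 2 / (n:ℝ) * (-s1 u x) := by ring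
          rw [a1]
          have a2 : 1000 * u ^ 2 / (n:ℝ) * (-s1 u x) ≤ 1000 * u ^ 2 / (n:ℝ) * miss u x := by
            gcongr
          have a3 : 1000 * u ^ 2 / (n:ℝ) * miss u x ≤ 1000 * 1 ^ 2 / (n:ℝ) * miss u x := by
            gcongr
          have a4 : 1000 * 1 ^ 2 / (n:ℝ) * miss u x ≤
              1000 * 1 ^ 2 / (n:ℝ) * (4 * (1 - u) * (n:ℝ) ^ 2) := by gcongr
          have a5 : 1000 * 1 ^ 2 / (n:ℝ) * (4 * (1 - u) * (n:ℝ) ^ 2) = 4000 * (1 - u) * n := by
            field_simp; norm_num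
          have a6 : 4000 * (1 - u) * n ≤ 1 * n := by gcongr; linarith
          linarith
        linarith
      refine (Real.exp_le_exp.mpr hPhi).trans ?_
      rw [Real.exp_add]
      apply mul_le_mul_of_nonneg_left _ (Real.exp_pos _).le
      have := convexOn_exp.2 (Set.mem_univ (5000 / n * A)) (Set.mem_univ (625 / n * B))
        (show (0:ℝ) ≤ 1 / 5 by norm_num) (show (0:ℝ) ≤ 4 / 5 by norm_num) (by norm_num)
      simpa only [smul_eq_mul] using this
    · rw [if_neg hx]
      positivity
  refine (Ex_mono (RW_nonneg h0.le h1.le) hpt).trans ?_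
  rw [Ex_mul_left, Ex_add, Ex_mul_left, Ex_mul_left]
  have h10 : (10:ℝ) ^ n ≤ 19 ^ n := pow_le_pow_left₀ (by norm_num) (by norm_num) n
  have h19 : (19:ℝ) ^ n ≤ Real.exp (3 * n) := by
    rw [show (3:ℝ) * n = n * 3 by ring, Real.exp_nat_mul]
    apply pow_le_pow_left₀ (by norm_num)
    have e1 : Real.exp 3 = Real.exp 1 ^ 3 := by rw [← Real.exp_nat_mul]; norm_num
    rw [e1]
    calc (19:ℝ) ≤ 2.7 ^ 3 := by norm_num
      _ ≤ _ := by
        apply pow_le_pow_left₀ (by norm_num)
        linarith [Real.exp_one_gt_d9]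
  have h4 : Real.exp (4 * n) = Real.exp n * Real.exp (3 * n) := by
    rw [← Real.exp_add]; congr 1; ring
  rw [h4]
  apply mul_le_mul_of_nonneg_left _ (Real.exp_pos _).le
  linarith

/-- many triangles force few missing edges -/
theorem miss_of_tri {n : ℕ} {u : ℝ} (h0 : 0 < u) (h1 : u < 1) (hn : 1 ≤ n)
    (x : Fin n → Fin n → Bool) (hT : u ^ 3 - (1 - u) ≤ 6 * Tn (Gam x) / (n:ℝ) ^ 3) :
    miss u x ≤ 4 * (1 - u) * (n:ℝ) ^ 2 := by
  have hnpos : (0:ℝ) < n := by exact_mod_cast hn
  have hnn : ∀ i j, 0 ≤ ad (Gam x) i j := by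
    intro i j; unfold ad; split_ifs <;> norm_num
  have hle1 : ∀ i j, ad (Gam x) i j ≤ 1 := by
    intro i j; unfold ad; split_ifs <;> norm_num
  have hT2 : 6 * Tn (Gam x) ≤ n * ∑ i, ∑ j, ad (Gam x) i j := by
    unfold Tn
    have e : 6 * (1 / 6 * ∑ i, ∑ j, ∑ k, ad (Gam x) i j * ad (Gam x) j k * ad (Gam x) i k) =
        ∑ i, ∑ j, ∑ k, ad (Gam x) i j * ad (Gam x) j k * ad (Gam x) i k := by ring
    rw [e, Finset.mul_sum]
    apply Finset.sum_le_sum; intro i _
    rw [Finset.mul_sum]
    apply Finset.sum_le_sum; intro j _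
    calc ∑ k, ad (Gam x) i j * ad (Gam x) j k * ad (Gam x) i k
        ≤ ∑ _k : Fin n, ad (Gam x) i j := by
          apply Finset.sum_le_sum; intro k _
          calc ad (Gam x) i j * ad (Gam x) j k * ad (Gam x) i k
              ≤ ad (Gam x) i j * 1 * 1 := by
                apply mul_le_mul
                · exact mul_le_mul_of_nonneg_left (hle1 _ _) (hnn _ _)
                · exact hle1 _ _
                · exact hnn _ _
                · have := hnn i j; positivity
            _ = _ := by ring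
      _ = n * ad (Gam x) i j := by simp
  have hmiss : miss u x = (n:ℝ) * (n - 1) - ∑ i, ∑ j, ad (Gam x) i j := by
    unfold miss
    have : ∀ i j : Fin n, (if i = j then (0:ℝ) else (1 - u) - ym u x i j) =
        1 - (if i = j then 1 else 0) - ad (Gam x) i j := by
      intro i j
      rw [ad_Gam u x]
      by_cases hij : i = j
      · subst hij; simp [ym_diag]
      · simp [hij]; ring
    simp only [this, Finset.sum_sub_distrib, Finset.sum_ite_eq, Finset.mem_univ, if_true,
      Finset.sum_const, Finset.card_univ, Fintype.card_fin, nsmul_eq_mul]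
    ring
  rw [hmiss]
  rw [le_div_iff₀ (by positivity)] at hT
  set S := ∑ i, ∑ j, ad (Gam x) i j with hS
  have h5 : (u ^ 3 - (1 - u)) * (n:ℝ) ^ 2 ≤ S := by
    have h6 : ((u ^ 3 - (1 - u)) * (n:ℝ) ^ 2) * n ≤ S * n := by
      calc ((u ^ 3 - (1 - u)) * (n:ℝ) ^ 2) * n = (u ^ 3 - (1 - u)) * (n:ℝ) ^ 3 := by ring
        _ ≤ 6 * Tn (Gam x) := hT
        _ ≤ n * S := hT2
        _ = S * n := by ring
    exact le_of_mul_le_mul_right h6 hnpos
  have h7 : 1 - u ^ 3 ≤ 3 * (1 - u) := by
    have : 1 - u ^ 3 = (1 - u) * (1 + u + u ^ 2) := by ring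
    rw [this]
    have h8 : 1 + u + u ^ 2 ≤ 3 := by nlinarith
    nlinarith
  have h9 : (1 - u ^ 3 + (1 - u)) * (n:ℝ) ^ 2 ≤ (4 * (1 - u)) * (n:ℝ) ^ 2 := by
    apply mul_le_mul_of_nonneg_right _ (by positivity)
    linarith
  nlinarith

end Pool.Agent.H497R3.Erg
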