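import Mathlib

set_option autoImplicit false
open Set Filter Topology

namespace Pool.Agent.H497R3.Erg

/-- the scalar functional at `α = 1000` -/
noncomputable def Lf (h v : ℝ) : ℝ := 1000 * v ^ 3 / 3 + h * v + Real.binEntropy v

theorem Lf_eq (h v : ℝ) : Lf h v =
    1000 * v ^ 3 / 3 + h * v - (v * Real.log v + (1 - v) * Real.log (1 - v)) := by
  unfold Lf
  rw [Real.binEntropy_eq_negMulLog_add_negMulLog_one_sub]
  unfold Real.negMulLog
  ring

theorem Lf_cont : Continuous ↿Lf := by
  have : (↿Lf : ℝ × ℝ → ℝ) = fun p => 1000 * p.2 ^ 3 / 3 + p.1 * p.2 + Real.binEntropy p.2 := by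
    funext p; rfl
  rw [this]
  fun_prop

theorem Lf_cont' (h : ℝ) : Continuous (Lf h) := by
  unfold Lf
  fun_prop

theorem hasDeriv_Lf (h v : ℝ) (h0 : 0 < v) (h1 : v < 1) :
    HasDerivAt (Lf h) (1000 * v ^ 2 + h + (Real.log (1 - v) - Real.log v)) v := by
  unfold Lf
  have e1 : HasDerivAt (fun v : ℝ => 1000 * v ^ 3 / 3) (1000 * v ^ 2) v := by
    have := ((hasDerivAt_pow 3 v).const_mul 1000).div_const 3
    refine this.congr_deriv ?_
    norm_num
    ring
  have e2 : HasDerivAt (fun v : ℝ => h * v) h v := by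
    simpa using (hasDerivAt_id v).const_mul h
  have e3 := Real.hasDerivAt_binEntropy h0.ne' h1.ne
  exact (e1.add e2).add e3

theorem hasDeriv2_Lf (h v : ℝ) (h0 : 0 < v) (h1 : v < 1) :
    HasDerivAt (fun v : ℝ => 1000 * v ^ 2 + h + (Real.log (1 - v) - Real.log v))
      (2000 * v - 1 / (1 - v) - 1 / v) v := by
  have e1 : HasDerivAt (fun v : ℝ => 1000 * v ^ 2 + h) (2000 * v) v := by
    have := ((hasDerivAt_pow 2 v).const_mul 1000).add_const h
    refine this.congr_deriv ?_
    norm_num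
    ring
  have e2 : HasDerivAt (fun v : ℝ => Real.log (1 - v)) (-1 / (1 - v)) v := by
    have := ((hasDerivAt_id v).const_sub 1).log (by simp; linarith)
    simpa using this
  have e3 : HasDerivAt (fun v : ℝ => Real.log v) (1 / v) v := by
    simpa using Real.hasDerivAt_log h0.ne'
  refine (e1.add (e2.sub e3)).congr_deriv ?_
  ring

theorem deriv2_Lf (h v : ℝ) (h0 : 0 < v) (h1 : v < 1) :
    deriv^[2] (Lf h) v = 2000 * v - 1 / (1 - v) - 1 / v := by
  simp only [Function.iterate_succ, Function.iterate_zero, Function.comp_apply, id_eq]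
  have : deriv (Lf h) =ᶠ[𝓝 v] fun v : ℝ => 1000 * v ^ 2 + h + (Real.log (1 - v) - Real.log v) := by
    filter_upwards [Ioo_mem_nhds h0 h1] with w hw
    exact (hasDeriv_Lf h w hw.1 hw.2).deriv
  rw [this.deriv_eq]
  exact (hasDeriv2_Lf h v h0 h1).deriv

theorem strict_left (h : ℝ) : StrictConcaveOn ℝ (Icc 0 (1/100)) (Lf h) := by
  apply strictConcaveOn_of_deriv2_neg (convex_Icc _ _) (Lf_cont' h).continuousOn
  intro x hx
  rw [interior_Icc] at hx
  rw [deriv2_Lf h x hx.1 (by linarith [hx.2])]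
  have h1 : 0 < 1 / (1 - x) := by
    have : 0 < 1 - x := by linarith [hx.2]
    positivity
  have h2 : 100 ≤ 1 / x := by
    rw [le_div_iff₀ hx.1]
    linarith [hx.2]
  linarith [hx.2]

theorem strict_right (h : ℝ) : StrictConcaveOn ℝ (Icc (2499/2500) 1) (Lf h) := by
  apply strictConcaveOn_of_deriv2_neg (convex_Icc _ _) (Lf_cont' h).continuousOn
  intro x hx
  rw [interior_Icc] at hx
  have hx0 : 0 < x := by linarith [hx.1]
  rw [deriv2_Lf h x hx0 hx.2]
  have h1 : 2500 ≤ 1 / (1 - x) := by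
    have : 0 < 1 - x := by linarith [hx.2]
    rw [le_div_iff₀ this]
    linarith [hx.1]
  have h2 : 0 < 1 / x := by positivity
  linarith [hx.2]

theorem binEntropy_le_small (q : ℝ) (h0 : 0 < q) (h1 : q < 1) :
    Real.binEntropy q ≤ -q * Real.log q + q := by
  rw [Real.binEntropy_eq_negMulLog_add_negMulLog_one_sub]
  unfold Real.negMulLog
  have h2 : 0 < 1 - q := by linarith
  have h3 := Real.one_sub_inv_le_log_of_pos h2
  have h4 : (1 - q) * (1 - (1 - q)⁻¹) = -q := by
    field_simp
    ring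
  have h5 := mul_le_mul_of_nonneg_left h3 h2.le
  rw [h4] at h5
  linarith

theorem binEntropy_ge (q : ℝ) (h0 : 0 < q) (h1 : q < 1) :
    -q * Real.log q ≤ Real.binEntropy q := by
  rw [Real.binEntropy_eq_negMulLog_add_negMulLog_one_sub]
  unfold Real.negMulLog
  have h2 : 0 < 1 - q := by linarith
  have h3 : Real.log (1 - q) ≤ 0 := Real.log_nonpos h2.le (by linarith)
  nlinarith

theorem mid_neg (h : ℝ) (hh : h ≤ -1000/3 + 1/1000) (v : ℝ) (h0 : 1/100 ≤ v)
    (h1 : v ≤ 2499/2500) : Lf h v < 0 := by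
  unfold Lf
  have hv0 : 0 < v := by linarith
  have hv1 : v < 1 := by linarith
  have hhv : h * v ≤ (-1000/3 + 1/1000) * v := mul_le_mul_of_nonneg_right hh hv0.le
  rcases le_or_gt v (99/100) with h2 | h2
  · have h3 := @Real.binEntropy_le_log_two v
    have h4 := Real.log_two_lt_d9
    have h5 : 99/10000 ≤ v * (1 - v) := by nlinarith [mul_nonneg (sub_nonneg.mpr h0) (sub_nonneg.mpr h2)]
    have h6 : 99/10000 ≤ v - v ^ 3 := by
      have : v - v ^ 3 = v * (1 - v) * (1 + v) := by ring
      rw [this]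
      nlinarith
    nlinarith
  · set q := 1 - v with hq
    have hq0 : 1/2500 ≤ q := by linarith
    have hq0' : 0 < q := by linarith
    have hq1 : q ≤ 1/100 := by linarith
    have h3 : Real.binEntropy v ≤ -q * Real.log q + q := by
      have : Real.binEntropy v = Real.binEntropy q := by
        rw [hq, Real.binEntropy_one_sub]
      rw [this]
      exact binEntropy_le_small q hq0' (by linarith)
    have h4 : -8 ≤ Real.log q := by
      rw [Real.le_log_iff_exp_le hq0']
      refine le_trans ?_ hq0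
      have e1 : Real.exp (-8) = (Real.exp 1 ^ 8)⁻¹ := by
        rw [← Real.exp_nat_mul, ← Real.exp_neg]
        norm_num
      rw [e1]
      have e2 : (2500:ℝ) ≤ Real.exp 1 ^ 8 := by
        have := Real.exp_one_gt_d9
        calc (2500:ℝ) ≤ (2.7:ℝ) ^ 8 := by norm_num
          _ ≤ _ := by
            apply pow_le_pow_left₀ (by norm_num)
            linarith
      rw [inv_le_comm₀ (by positivity) (by norm_num), show (1 / 2500 : ℝ)⁻¹ = 2500 by norm_num]
      exact e2
    have h5 : -q * Real.log q ≤ 8 * q := by nlinarith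
    have h6 : 19701/10000 * q ≤ v - v ^ 3 := by
      have : v - v ^ 3 = q * (v * (1 + v)) := by rw [hq]; ring
      rw [this]
      have : 19701/10000 ≤ v * (1 + v) := by nlinarith
      nlinarith
    nlinarith

theorem exists_params : ∃ h u₁ u₂ : ℝ, 0 < u₁ ∧ u₁ ≤ 1/100 ∧ 1 - Real.exp (-664) ≤ u₂ ∧ u₂ < 1 ∧
    (h + 1000 * u₁ ^ 2 = Real.log u₁ - Real.log (1 - u₁)) ∧
    (h + 1000 * u₂ ^ 2 = Real.log u₂ - Real.log (1 - u₂)) ∧
    Lf h u₂ = Lf h u₁ ∧ (∀ v ∈ Icc (0:ℝ) 1, Lf h v ≤ Lf h u₁) ∧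
    (∀ v ∈ Icc (0:ℝ) 1, Lf h v = Lf h u₁ → v = u₁ ∨ v = u₂) := by
  set K1 : Set ℝ := Icc 0 (1/100) with hK1
  set K2 : Set ℝ := Icc (2499/2500) 1 with hK2
  have hc1 : IsCompact K1 := isCompact_Icc
  have hc2 : IsCompact K2 := isCompact_Icc
  set M1 : ℝ → ℝ := fun h => sSup (Lf h '' K1) with hM1
  set M2 : ℝ → ℝ := fun h => sSup (Lf h '' K2) with hM2
  have hM1c : Continuous M1 := hc1.continuous_sSup Lf_cont
  have hM2c : Continuous M2 := hc2.continuous_sSup Lf_cont
  have hbd1 : ∀ h, BddAbove (Lf h '' K1) := fun h => (hc1.image (Lf_cont' h)).bddAbove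
  have hbd2 : ∀ h, BddAbove (Lf h '' K2) := fun h => (hc2.image (Lf_cont' h)).bddAbove
  have hne1 : K1.Nonempty := ⟨0, by constructor <;> norm_num⟩
  have hne2 : K2.Nonempty := ⟨1, by constructor <;> norm_num⟩
  have hL0 : ∀ h, Lf h 0 = 0 := by intro h; simp [Lf]
  have hL1 : ∀ h, Lf h 1 = 1000/3 + h := by intro h; simp [Lf]
  have hlog2 := Real.log_two_lt_d9
  have hlow : M2 (-1000/3 - 1) ≤ M1 (-1000/3 - 1) := by
    have e1 : 0 ≤ M1 (-1000/3 - 1) := by
      have := le_csSup (hbd1 (-1000/3 - 1)) (mem_image_of_mem _ (show (0:ℝ) ∈ K1 by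
        constructor <;> norm_num))
      rwa [hL0] at this
    refine le_trans ?_ e1
    apply csSup_le (hne2.image _)
    rintro _ ⟨v, hv, rfl⟩
    have hv1 : 2499/2500 ≤ v := hv.1
    have hv2 : v ≤ 1 := hv.2
    have h3 := @Real.binEntropy_le_log_two v
    unfold Lf
    have h4 : v ^ 3 ≤ v := by nlinarith [sq_nonneg v, mul_nonneg (show 0 ≤ v by linarith) (show 0 ≤ 1 - v by linarith)]
    nlinarith
  have hhigh : M1 (-1000/3 + 1) ≤ M2 (-1000/3 + 1) := by
    have e1 : 1 ≤ M2 (-1000/3 + 1) := by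
      have := le_csSup (hbd2 (-1000/3 + 1)) (mem_image_of_mem _ (show (1:ℝ) ∈ K2 by
        constructor <;> norm_num))
      rw [hL1] at this
      linarith
    refine le_trans ?_ e1
    apply csSup_le (hne1.image _)
    rintro _ ⟨v, hv, rfl⟩
    have hv1 : 0 ≤ v := hv.1
    have hv2 : v ≤ 1/100 := hv.2
    have h3 := @Real.binEntropy_le_log_two v
    unfold Lf
    have h4 : v ^ 3 ≤ (1/100) ^ 3 := by gcongr
    nlinarith
  obtain ⟨h, hhmem, hMM⟩ : ∃ h ∈ Icc (-1000/3 - 1 : ℝ) (-1000/3 + 1), M2 h - M1 h = 0 := by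
    have := intermediate_value_Icc (a := (-1000/3 - 1 : ℝ)) (b := -1000/3 + 1) (by norm_num)
      (f := fun h => M2 h - M1 h) (hM2c.sub hM1c).continuousOn
    exact this ⟨by linarith, by linarith⟩
  have hh1 : -1000/3 - 1 ≤ h := hhmem.1
  have hh2 : h ≤ -1000/3 + 1 := hhmem.2
  obtain ⟨u₁, hu1, hu1max⟩ := hc1.exists_isMaxOn hne1 (Lf_cont' h).continuousOn
  obtain ⟨u₂, hu2, hu2max⟩ := hc2.exists_isMaxOn hne2 (Lf_cont' h).continuousOn
  have hM1u : M1 h = Lf h u₁ := by
    apply le_antisymm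
    · apply csSup_le (hne1.image _)
      rintro _ ⟨v, hv, rfl⟩
      exact hu1max hv
    · exact le_csSup (hbd1 h) (mem_image_of_mem _ hu1)
  have hM2u : M2 h = Lf h u₂ := by
    apply le_antisymm
    · apply csSup_le (hne2.image _)
      rintro _ ⟨v, hv, rfl⟩
      exact hu2max hv
    · exact le_csSup (hbd2 h) (mem_image_of_mem _ hu2)
  have heq : Lf h u₂ = Lf h u₁ := by rw [← hM1u, ← hM2u]; linarith
  -- positivity of the maximum
  have hpos : 0 < Lf h u₁ := by
    set q := Real.exp (-400) with hq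
    have hq0 : 0 < q := Real.exp_pos _
    have hq1 : q ≤ 1/100 := by
      rw [hq, Real.exp_neg]
      have := Real.add_one_le_exp (400:ℝ)
      rw [inv_le_comm₀ (Real.exp_pos _) (by norm_num)]
      norm_num
      linarith
    have h3 : Lf h q ≤ Lf h u₁ := hu1max (show q ∈ K1 from ⟨hq0.le, hq1⟩)
    refine lt_of_lt_of_le ?_ h3
    have h4 := binEntropy_ge q hq0 (by linarith)
    have h5 : Real.log q = -400 := by rw [hq, Real.log_exp]
    rw [h5] at h4
    unfold Lf
    have h6 : 0 ≤ 1000 * q ^ 3 / 3 := by positivity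
    nlinarith
  have hu1pos : 0 < u₁ := by
    rcases (show 0 ≤ u₁ from hu1.1).eq_or_lt with e | e
    · rw [← e, hL0] at hpos; exact absurd hpos (lt_irrefl _)
    · exact e
  have hu1le : u₁ ≤ 1/100 := hu1.2
  -- sharper bound on h
  have hhs : h ≤ -1000/3 + 1/1000 := by
    have e1 : 1000/3 + h ≤ Lf h u₂ := by
      rw [← hL1]; exact hu2max (show (1:ℝ) ∈ K2 by constructor <;> norm_num)
    rw [heq] at e1
    have e2 := binEntropy_le_small u₁ hu1pos (by linarith)
    have e3 : h * u₁ + (-u₁ * Real.log u₁ + u₁) ≤ Real.exp h := by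
      have := Real.log_le_sub_one_of_pos (show 0 < Real.exp h / u₁ by positivity)
      rw [Real.log_div (Real.exp_pos _).ne' hu1pos.ne', Real.log_exp] at this
      have h7 := mul_le_mul_of_nonneg_left this hu1pos.le
      have h8 : u₁ * (Real.exp h / u₁ - 1) = Real.exp h - u₁ := by field_simp
      rw [h8] at h7
      nlinarith
    have e4 : Real.exp h ≤ 1/10000 := by
      calc Real.exp h ≤ Real.exp (-332) := Real.exp_le_exp.mpr (by linarith)
        _ = (Real.exp 166 * Real.exp 166)⁻¹ := by rw [← Real.exp_add, ← Real.exp_neg]; norm_num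
        _ ≤ 1/10000 := by
          have := Real.add_one_le_exp (166:ℝ)
          rw [inv_le_comm₀ (by positivity) (by norm_num)]
          norm_num
          nlinarith
    have e5 : u₁ ^ 3 ≤ (1/100) ^ 3 := by gcongr
    unfold Lf at e1
    linarith
  have hmid := mid_neg h hhs
  have hu1lt : u₁ < 1/100 := by
    rcases hu1le.eq_or_lt with e | e
    · have := hmid u₁ e.ge (by linarith)
      linarith
    · exact e
  have hu2gt : 2499/2500 < u₂ := by
    rcases (show 2499/2500 ≤ u₂ from hu2.1).eq_or_lt with e | e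
    · have := hmid u₂ (by linarith) e.ge
      linarith
    · exact e
  have hu2lt : u₂ < 1 := by
    rcases (show u₂ ≤ 1 from hu2.2).eq_or_lt with e | e
    · exfalso
      set q := Real.exp (-700) with hq
      have hq0 : 0 < q := Real.exp_pos _
      have hq1 : q ≤ 1/2500 := by
        calc q = (Real.exp 350 * Real.exp 350)⁻¹ := by
              rw [← Real.exp_add, ← Real.exp_neg]; norm_num [hq]
          _ ≤ _ := by
            have := Real.add_one_le_exp (350:ℝ)
            rw [inv_le_comm₀ (by positivity) (by norm_num)]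
            norm_num
            nlinarith
      have h3 : Lf h (1 - q) ≤ Lf h u₂ :=
        hu2max (show (1 - q) ∈ K2 from ⟨by linarith, by linarith⟩)
      rw [e, hL1] at h3
      have h4 := binEntropy_ge q hq0 (by linarith)
      have h5 : Real.log q = -700 := by rw [hq, Real.log_exp]
      rw [h5] at h4
      unfold Lf at h3
      rw [Real.binEntropy_one_sub] at h3
      have h6 : 1 - 3 * q ≤ (1 - q) ^ 3 := by nlinarith [sq_nonneg q, mul_pos hq0 hq0]
      nlinarith
    · exact e
  -- stationarity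
  have hst1 : h + 1000 * u₁ ^ 2 = Real.log u₁ - Real.log (1 - u₁) := by
    have hloc : IsLocalMax (Lf h) u₁ := hu1max.isLocalMax (Icc_mem_nhds hu1pos hu1lt)
    have := hloc.hasDerivAt_eq_zero (hasDeriv_Lf h u₁ hu1pos (by linarith))
    linarith
  have hst2 : h + 1000 * u₂ ^ 2 = Real.log u₂ - Real.log (1 - u₂) := by
    have hloc : IsLocalMax (Lf h) u₂ := hu2max.isLocalMax (Icc_mem_nhds hu2gt hu2lt)
    have := hloc.hasDerivAt_eq_zero (hasDeriv_Lf h u₂ (by linarith) hu2lt)
    linarith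
  have hu2big : 1 - Real.exp (-664) ≤ u₂ := by
    have h3 : Real.log u₂ ≤ 0 := Real.log_nonpos (by linarith) hu2lt.le
    have h4 : Real.log (1 - u₂) ≤ -664 := by nlinarith
    have h5 : 1 - u₂ ≤ Real.exp (-664) := by
      rw [← Real.log_le_iff_le_exp (by linarith)]
      exact h4
    linarith
  refine ⟨h, u₁, u₂, hu1pos, hu1le, hu2big, hu2lt, hst1, hst2, heq, ?_, ?_⟩
  · intro v hv
    rcases le_or_gt v (1/100) with h2 | h2
    · exact hu1max ⟨hv.1, h2⟩
    · rcases le_or_gt v (2499/2500) with h3 | h3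
      · exact ((hmid v h2.le h3).trans hpos).le
      · rw [← heq]; exact hu2max ⟨h3.le, hv.2⟩
  · intro v hv hve
    rcases le_or_gt v (1/100) with h2 | h2
    · left
      have hvmax : IsMaxOn (Lf h) K1 v := by
        intro w hw
        show Lf h w ≤ Lf h v
        rw [hve]; exact hu1max hw
      exact (strict_left h).eq_of_isMaxOn hvmax hu1max ⟨hv.1, h2⟩ hu1
    · rcases le_or_gt v (2499/2500) with h3 | h3
      · have := (hmid v h2.le h3).trans hpos
        linarith
      · right
        have hvmax : IsMaxOn (Lf h) K2 v := by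
          intro w hw
          show Lf h w ≤ Lf h v
          rw [hve, ← heq]; exact hu2max hw
        exact (strict_right h).eq_of_isMaxOn hvmax hu2max ⟨h3.le, hv.2⟩ hu2

end Pool.Agent.H497R3.Erg
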