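import Pool.Agent.H497R3.Walk

set_option autoImplicit false
open MeasureTheory ProbabilityTheory Filter Topology

namespace Pool.Agent.H497R3

theorem pos_step (A : ℤ → ℕ → Bool) (n : ℕ) : pos A (n+1) = pos A n + 1 ∨ pos A (n+1) = pos A n - 1 := by
  rw [pos_succ]
  split_ifs
  · left; rfl
  · right; rfl

theorem cnt_le (A : ℤ → ℕ → Bool) (n : ℕ) (x : ℤ) : cnt A n x ≤ n := by
  rw [cnt_eq]
  exact (Finset.card_filter_le _ _).trans (by simp)

/-- the k-th visit of an infinitely often visited site exists -/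
theorem exists_visit (A : ℤ → ℕ → Bool) (x : ℤ) (h : ∀ K, ∃ N, K ≤ cnt A N x) (k : ℕ) :
    ∃ n, pos A n = x ∧ cnt A n x = k := by
  classical
  have h1 : ∃ N, k < cnt A N x := by
    obtain ⟨N, hN⟩ := h (k+1)
    exact ⟨N, by omega⟩
  have hs := Nat.find_spec h1
  have hm := fun m => Nat.find_min h1 (m := m)
  rcases hN : Nat.find h1 with _ | N
  · rw [hN] at hs
    simp [cnt, st] at hs
  · rw [hN] at hs
    have h2 := hm N (by omega)
    rw [cnt_succ] at hs
    split_ifs at hs with h3
    · exact ⟨N, h3.symm, by omega⟩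
    · exact absurd hs h2

theorem cnt_unbounded_succ (A : ℤ → ℕ → Bool) (x : ℤ) (h : ∀ K, ∃ N, K ≤ cnt A N x)
    (hA : ∀ K, ∃ k, K ≤ k ∧ A x k = true) : ∀ K, ∃ N, K ≤ cnt A N (x+1) := by
  intro K
  induction K with
  | zero => exact ⟨0, by omega⟩
  | succ K ih =>
    obtain ⟨N, hN⟩ := ih
    obtain ⟨k, hk, hAk⟩ := hA N
    obtain ⟨n, hn, hc⟩ := exists_visit A x h k
    have h1 : N ≤ n := by
      have := cnt_le A n x
      omega
    refine ⟨n + 2, ?_⟩
    have h2 : pos A (n+1) = x + 1 := by
      rw [pos_succ, hn, hc, if_pos hAk]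
    rw [cnt_succ, if_pos h2.symm]
    have := cnt_mono A (show N ≤ n + 1 by omega) (x+1)
    omega

theorem exists_unbounded (A : ℤ → ℕ → Bool) (z : ℤ) (h : ∀ n, 0 ≤ pos A n ∧ pos A n < z) :
    ∃ x, 0 ≤ x ∧ x < z ∧ ∀ K, ∃ N, K ≤ cnt A N x := by
  classical
  by_contra hcon
  push Not at hcon
  choose! f hf using hcon
  have hz : 0 ≤ z := by have := h 0; omega
  -- total count equals n
  have htot : ∀ n, n = ∑ x ∈ Finset.Ico 0 z, cnt A n x := by
    intro n
    have h1 : (Finset.range n).card = ∑ x ∈ Finset.Ico 0 z,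
        ((Finset.range n).filter (fun m => pos A m = x)).card := by
      apply Finset.card_eq_sum_card_fiberwise
      intro m _
      simp only [Finset.coe_Ico, Set.mem_Ico]
      exact ⟨(h m).1, (h m).2⟩
    rw [Finset.card_range] at h1
    rw [h1]
    apply Finset.sum_congr rfl
    intro x _
    rw [cnt_eq, ← h1]
  have h2 : ∀ n, n ≤ ∑ x ∈ Finset.Ico 0 z, f x := by
    intro n
    calc n = ∑ x ∈ Finset.Ico 0 z, cnt A n x := htot n
      _ ≤ ∑ x ∈ Finset.Ico 0 z, f x := by
        apply Finset.sum_le_sum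
        intro x hx
        simp only [Finset.mem_Ico] at hx
        exact (hf x hx.1 hx.2 n).le
  have := h2 (∑ x ∈ Finset.Ico 0 z, f x + 1)
  omega

/-- a walk reflected at 0 reaches every site to its right if all intermediate sites have
infinitely many arrows to the right -/
theorem reaches (A : ℤ → ℕ → Bool) (z : ℤ) (hz : 0 ≤ z) (h0 : ∀ k, A 0 k = true)
    (hA : ∀ x, 0 ≤ x → x < z → ∀ K, ∃ k, K ≤ k ∧ A x k = true) : ∃ n, pos A n = z := by
  by_contra hcon
  push Not at hcon
  have hin : ∀ n, 0 ≤ pos A n ∧ pos A n < z := by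
    intro n
    induction n with
    | zero =>
      have := hcon 0
      rw [pos_zero] at this ⊢
      omega
    | succ n ih =>
      have h1 := hcon (n+1)
      rw [pos_succ] at h1 ⊢
      by_cases hp : pos A n = 0
      · rw [hp, h0, if_pos rfl] at h1 ⊢
        omega
      · split_ifs at h1 ⊢ <;> omega
  obtain ⟨x, hx0, hxz, hx⟩ := exists_unbounded A z hin
  -- propagate to the right
  have hprop : ∀ j : ℕ, x + j ≤ z → ∀ K, ∃ N, K ≤ cnt A N (x + j) := by
    intro j
    induction j with
    | zero => intro _; simpa using hx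
    | succ j ih =>
      intro hj
      have := cnt_unbounded_succ A (x + j) (ih (by push_cast at hj; omega))
        (hA _ (by omega) (by push_cast at hj; omega))
      intro K
      obtain ⟨N, hN⟩ := this K
      exact ⟨N, by push_cast; rw [← add_assoc]; exact hN⟩
  have hfin := hprop (z - x).toNat (by omega)
  obtain ⟨N, hN⟩ := hfin 1
  rw [show x + ((z - x).toNat : ℤ) = z by omega, cnt_eq] at hN
  obtain ⟨m, hm⟩ := Finset.card_pos.mp (show 0 < _ from hN)
  exact hcon m (Finset.mem_filter.mp hm).2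

/-- shifted arrow field -/
def shA (A : ℤ → ℕ → Bool) (y : ℤ) : ℤ → ℕ → Bool := fun x k => A (x + y) k

/-- phase lemma: a walk that reaches `y` for the first time at time `τ` follows the shifted walk
as long as the latter stays nonnegative -/
theorem phase (A : ℤ → ℕ → Bool) (y : ℤ) (τ : ℕ) (hτ : pos A τ = y)
    (hfresh : ∀ m, m < τ → pos A m < y) (t : ℕ)
    (hpos : ∀ n, n ≤ t → 0 ≤ pos (shA A y) n) :
    ∀ n, n ≤ t → pos A (τ + n) = y + pos (shA A y) n ∧
      ∀ x, 0 ≤ x → cnt A (τ + n) (y + x) = cnt (shA A y) n x := by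
  intro n
  induction n with
  | zero =>
    intro _
    refine ⟨by simp [hτ, pos_zero], ?_⟩
    intro x hx
    rw [cnt_eq]
    have : (Finset.range (τ + 0)).filter (fun m => pos A m = y + x) = ∅ := by
      rw [Finset.filter_eq_empty_iff]
      intro m hm
      have := hfresh m (by simpa using hm)
      omega
    rw [this]
    rfl
  | succ n ih =>
    intro hn
    obtain ⟨h1, h2⟩ := ih (by omega)
    have h3 := hpos n (by omega)
    have h4 := h2 _ h3
    have hstep : pos A (τ + (n+1)) = y + pos (shA A y) (n+1) := by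
      rw [← add_assoc, pos_succ, pos_succ, h1, h4]
      have : A (y + pos (shA A y) n) (cnt (shA A y) n (pos (shA A y) n)) =
          shA A y (pos (shA A y) n) (cnt (shA A y) n (pos (shA A y) n)) := by
        simp only [shA]; rw [add_comm]
      rw [this]
      split_ifs <;> ring
    refine ⟨hstep, ?_⟩
    intro x hx
    rw [← add_assoc, cnt_succ, cnt_succ, h1, h2 x hx]
    by_cases h : x = pos (shA A y) n
    · rw [if_pos h, if_pos (by rw [h])]
    · rw [if_neg h, if_neg (by intro h'; apply h; linarith)]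

/-- if the first `t` arrows at the origin point to the right the walk stays nonnegative up to
time `t` -/
theorem nonneg_upto (B : ℤ → ℕ → Bool) (t : ℕ) (h : ∀ k, k < t → B 0 k = true) :
    ∀ n, n ≤ t → 0 ≤ pos B n := by
  intro n
  induction n with
  | zero => intro _; simp [pos_zero]
  | succ n ih =>
    intro hn
    have h1 := ih (by omega)
    rw [pos_succ]
    by_cases hp : pos B n = 0
    · rw [hp, h _ (lt_of_le_of_lt (cnt_le B n 0) (by omega)), if_pos rfl]
      omega
    · split_ifs <;> omega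

/-- first time the walk visits a site -/
theorem exists_first (A : ℤ → ℕ → Bool) (y : ℤ) (hy : 0 ≤ y) (n : ℕ) (hn : y ≤ pos A n) :
    ∃ τ, τ ≤ n ∧ pos A τ = y ∧ ∀ m, m < τ → pos A m < y := by
  classical
  have hex : ∃ m, y ≤ pos A m := ⟨n, hn⟩
  have hs := Nat.find_spec hex
  have hm := fun m => Nat.find_min hex (m := m)
  refine ⟨Nat.find hex, Nat.find_min' hex hn, ?_, fun m h => not_le.mp (hm m h)⟩
  rcases hN : Nat.find hex with _ | N
  · rw [hN] at hs
    rw [pos_zero] at hs ⊢
    omega
  · rw [hN] at hs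
    have h2 := hm N (by omega)
    rcases pos_step A N with h | h <;> omega

/-- Deterministic transience criterion. `y i` are sites, `T i` durations: the first `T i` arrows
at `y i` point to the right and the walk started afresh at `y i` reaches `y (i+1)` within
`T i` steps. -/
theorem transient_of_phases (A : ℤ → ℕ → Bool) (y : ℕ → ℤ) (T : ℕ → ℕ) (hy0 : y 0 = 0)
    (hmono : ∀ i, y i ≤ y (i+1)) (hlim : ∀ K : ℤ, ∃ i, K ≤ y i)
    (hT : ∀ i k, k < T i → A (y i) k = true)
    (hreach : ∀ i, ∃ n, n ≤ T i ∧ y (i+1) - y i ≤ pos (shA A (y i)) n) :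
    Tendsto (fun n => |pos A n|) atTop atTop := by
  have hm : Monotone y := monotone_nat_of_le_succ hmono
  have hynn : ∀ i, 0 ≤ y i := fun i => by have := hm (Nat.zero_le i); omega
  -- first hitting times
  have step : ∀ i τ, pos A τ = y i → (∀ m, m < τ → pos A m < y i) →
      ∃ τ', τ ≤ τ' ∧ pos A τ' = y (i+1) ∧ (∀ m, m < τ' → pos A m < y (i+1)) ∧
        ∀ n, τ ≤ n → n ≤ τ' → y i ≤ pos A n := by
    intro i τ h1 h2
    obtain ⟨n, hn, hr⟩ := hreach i
    have hB : ∀ k, k < T i → shA A (y i) 0 k = true := by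
      intro k hk; simp only [shA, zero_add]; exact hT i k hk
    have hnn := nonneg_upto (shA A (y i)) (T i) hB
    have hph := phase A (y i) τ h1 h2 (T i) hnn
    have h3 : y (i+1) ≤ pos A (τ + n) := by
      rw [(hph n hn).1]; linarith
    obtain ⟨τ', h4, h5, h6⟩ := exists_first A (y (i+1)) (hynn _) (τ + n) h3
    have h7 : τ ≤ τ' := by
      by_contra hlt
      push Not at hlt
      have := h2 τ' hlt
      rw [h5] at this
      have := hmono i
      omega
    refine ⟨τ', h7, h5, h6, ?_⟩
    intro m hm1 hm2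
    obtain ⟨j, rfl⟩ := Nat.exists_eq_add_of_le hm1
    rw [(hph j (by omega)).1]
    have := hnn j (by omega)
    linarith
  have hex : ∀ i, ∃ τ, pos A τ = y i ∧ ∀ m, m < τ → pos A m < y i := by
    intro i
    induction i with
    | zero => exact ⟨0, by rw [hy0, pos_zero], fun m hm => by omega⟩
    | succ i ih =>
      obtain ⟨τ, h1, h2⟩ := ih
      obtain ⟨τ', _, h3, h4, _⟩ := step i τ h1 h2
      exact ⟨τ', h3, h4⟩
  choose τ hτ1 hτ2 using hex
  have huniq : ∀ i τ', pos A τ' = y i → (∀ m, m < τ' → pos A m < y i) → τ' = τ i := by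
    intro i τ' h1 h2
    rcases lt_trichotomy τ' (τ i) with h | h | h
    · have := hτ2 i τ' h; omega
    · exact h
    · have := h2 _ h; have := hτ1 i; omega
  have hstep : ∀ i, τ i ≤ τ (i+1) ∧ ∀ n, τ i ≤ n → n ≤ τ (i+1) → y i ≤ pos A n := by
    intro i
    obtain ⟨τ', h1, h2, h3, h4⟩ := step i (τ i) (hτ1 i) (hτ2 i)
    have := huniq (i+1) τ' h2 h3
    rw [← this]
    exact ⟨h1, h4⟩
  have hτmono : Monotone τ := monotone_nat_of_le_succ fun i => (hstep i).1
  have hge : ∀ n : ℕ, pos A n ≤ n := by
    intro n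
    induction n with
    | zero => simp [pos_zero]
    | succ n ih => rcases pos_step A n with h | h <;> push_cast <;> omega
  have hfinal : ∀ i j n, τ i ≤ n → n ≤ τ (i + j) → y i ≤ pos A n := by
    intro i j
    induction j with
    | zero =>
      intro n h1 h2
      have : n = τ i := le_antisymm (by simpa using h2) h1
      rw [this, hτ1 i]
    | succ j ih =>
      intro n h1 h2
      by_cases h : n ≤ τ (i + j)
      · exact ih n h1 h
      · have h3 := (hstep (i+j)).2 n (by omega) (by rw [← add_assoc] at h2; exact h2)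
        exact (hm (Nat.le_add_right i j)).trans h3
  have hall : ∀ i n, τ i ≤ n → y i ≤ pos A n := by
    intro i n hn
    obtain ⟨l, hl⟩ := hlim n
    have h1 : (n:ℤ) ≤ y (i + l) := hl.trans (hm (by omega))
    have h2 : y (i+l) ≤ τ (i+l) := by
      rw [← hτ1 (i+l)]; exact hge _
    exact hfinal i l n hn (by exact_mod_cast h1.trans h2)
  rw [tendsto_atTop]
  intro K
  obtain ⟨i, hi⟩ := hlim K
  filter_upwards [eventually_ge_atTop (τ i)] with n hn
  exact hi.trans ((hall i n hn).trans (le_abs_self _))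

end Pool.Agent.H497R3
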