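import Mathlib

set_option autoImplicit false
open MeasureTheory ProbabilityTheory Filter Topology
open scoped ENNReal

namespace Pool.Agent.H497R3

/-- geometric law on `ℕ`: mass `2^{-(i+1)}` at `i` -/
noncomputable def geo : Measure ℕ :=
  Measure.sum (fun i : ℕ => ((2:ℝ≥0∞)⁻¹)^(i+1) • Measure.dirac i)

theorem lintegral_geo (f : ℕ → ℝ≥0∞) :
    ∫⁻ i, f i ∂geo = ∑' i : ℕ, ((2:ℝ≥0∞)⁻¹)^(i+1) * f i := by
  unfold geo
  rw [lintegral_sum_measure]
  congr 1
  funext i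
  rw [lintegral_smul_measure, lintegral_dirac]
  rfl

theorem tsum_geo : ∑' i : ℕ, ((2:ℝ≥0∞)⁻¹)^(i+1) = 1 := by
  rw [ENNReal.tsum_geometric_add_one]
  rw [ENNReal.one_sub_inv_two, inv_inv]
  exact ENNReal.inv_mul_cancel (by norm_num) (by norm_num)

instance : IsProbabilityMeasure geo := by
  constructor
  have h := lintegral_geo (fun _ => 1)
  simp only [lintegral_const, one_mul, mul_one] at h
  rw [h, tsum_geo]

theorem geo_singleton (i : ℕ) : geo {i} = ((2:ℝ≥0∞)⁻¹)^(i+1) := by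
  unfold geo
  rw [Measure.sum_apply _ (measurableSet_singleton i), tsum_eq_single i]
  · simp
  · intro j hj
    simp [hj]

/-- law of environments with i.i.d. geometric labels -/
noncomputable def labelLaw (stk : ℕ → ℕ → ℝ) : Measure (ℤ → ℕ → ℝ) :=
  (Measure.infinitePi (fun _ : ℤ => geo)).map (fun l x => stk (l x))

theorem labelLaw_eq (stk : ℕ → ℕ → ℝ) :
    labelLaw stk = Measure.infinitePi (fun _ : ℤ => geo.map stk) := by
  unfold labelLaw
  exact Measure.infinitePi_map_pi (μ := fun _ : ℤ => geo) (f := fun _ => stk)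
    (fun _ => measurable_of_countable _)

instance prob_map_geo (stk : ℕ → ℕ → ℝ) : IsProbabilityMeasure (geo.map stk) :=
  Measure.isProbabilityMeasure_map (measurable_of_countable _).aemeasurable

instance prob_labelLaw (stk : ℕ → ℕ → ℝ) : IsProbabilityMeasure (labelLaw stk) := by
  rw [labelLaw_eq]; infer_instance

theorem labelLaw_map_eval (stk : ℕ → ℕ → ℝ) (x : ℤ) :
    (labelLaw stk).map (fun ω => ω x) = geo.map stk := by
  rw [labelLaw_eq]
  exact Measure.infinitePi_map_eval _ x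

theorem labelLaw_site (stk : ℕ → ℕ → ℝ) (x : ℤ) (S : Set (ℕ → ℝ)) (hS : MeasurableSet S) :
    labelLaw stk {ω | ω x ∈ S} = geo {i | stk i ∈ S} := by
  have h := labelLaw_map_eval stk x
  have h1 : (labelLaw stk).map (fun ω => ω x) S = geo.map stk S := by rw [h]
  rw [Measure.map_apply (measurable_pi_apply x) hS,
    Measure.map_apply (measurable_of_countable _) hS] at h1
  exact h1

theorem labelLaw_iIndep (stk : ℕ → ℕ → ℝ) :
    iIndepFun (fun (x : ℤ) (ω : ℤ → ℕ → ℝ) => ω x) (labelLaw stk) := by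
  rw [labelLaw_eq]
  exact iIndepFun_infinitePi (P := fun _ : ℤ => geo.map stk) (X := fun _ s => s)
    (fun _ => measurable_id)

theorem labelLaw_ident (stk : ℕ → ℕ → ℝ) (x : ℤ) :
    IdentDistrib (fun ω : ℤ → ℕ → ℝ => ω x) (fun ω => ω 0) (labelLaw stk) (labelLaw stk) := by
  refine ⟨(measurable_pi_apply x).aemeasurable, (measurable_pi_apply 0).aemeasurable, ?_⟩
  rw [labelLaw_map_eval, labelLaw_map_eval]

theorem labelLaw_site_ge (stk : ℕ → ℕ → ℝ) (x : ℤ) (S : Set (ℕ → ℝ)) (hS : MeasurableSet S)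
    (i : ℕ) (hi : stk i ∈ S) : ((2:ℝ≥0∞)⁻¹)^(i+1) ≤ labelLaw stk {ω | ω x ∈ S} := by
  rw [labelLaw_site stk x S hS, ← geo_singleton]
  apply measure_mono
  intro j hj
  rw [Set.mem_singleton_iff] at hj
  rw [hj]
  exact hi

theorem labelLaw_ae_of_label (stk : ℕ → ℕ → ℝ) (S : Set (ℕ → ℝ)) (hS : MeasurableSet S)
    (h : ∀ i, stk i ∈ S) : ∀ᵐ ω ∂(labelLaw stk), ∀ x : ℤ, ω x ∈ S := by
  rw [ae_all_iff]
  intro x
  have h1 : labelLaw stk {ω | ω x ∈ Sᶜ} = 0 := by
    rw [labelLaw_site stk x _ hS.compl]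
    have : {i | stk i ∈ Sᶜ} = ∅ := by
      ext i; simp [h i]
    rw [this]; simp
  rw [ae_iff]
  exact h1

theorem lintegral_labelLaw_zero (stk : ℕ → ℕ → ℝ) (f : (ℕ → ℝ) → ℝ≥0∞) (hf : Measurable f) :
    ∫⁻ ω, f (ω 0) ∂(labelLaw stk) = ∑' i : ℕ, ((2:ℝ≥0∞)⁻¹)^(i+1) * f (stk i) := by
  have h1 : ∫⁻ ω, f (ω 0) ∂(labelLaw stk) = ∫⁻ s, f s ∂((labelLaw stk).map (fun ω => ω 0)) :=
    (lintegral_map hf (measurable_pi_apply 0)).symm
  rw [h1, labelLaw_map_eval, lintegral_map hf (measurable_of_countable _), lintegral_geo]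

end Pool.Agent.H497R3
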