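import Mathlib

set_option autoImplicit false
open MeasureTheory ProbabilityTheory Filter Topology

namespace Pool.Agent.H497R3

/-- crossing lemma: a nearest neighbour path started at 0 which is at `N > x ≥ 0` at time n
has stepped from x to x+1 before -/
theorem exists_cross (Y : ℕ → ℤ) (h0 : Y 0 = 0) (hs : ∀ n, Y (n+1) = Y n + 1 ∨ Y (n+1) = Y n - 1)
    (x : ℤ) (hx : 0 ≤ x) (n : ℕ) (hn : x < Y n) : ∃ t, t < n ∧ Y t = x ∧ Y (t+1) = x + 1 := by
  induction n with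
  | zero => rw [h0] at hn; omega
  | succ n ih =>
    by_cases h : x < Y n
    · obtain ⟨t, ht, h1, h2⟩ := ih h
      exact ⟨t, by omega, h1, h2⟩
    · refine ⟨n, by omega, ?_, ?_⟩
      · rcases hs n with h' | h' <;> omega
      · rcases hs n with h' | h' <;> omega

theorem visits_ge (Y : ℕ → ℤ) (h0 : Y 0 = 0)
    (hs : ∀ n, Y (n+1) = Y n + 1 ∨ Y (n+1) = Y n - 1)
    (F : ℤ → ℕ → Prop)
    (hF : ∀ n, F (Y n) ((Finset.range n).filter (fun m => Y m = Y n)).card → Y (n+1) = Y n - 1)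
    (x : ℤ) (hx : 0 ≤ x) (a : ℕ) (ha : ∀ k, k < a → F x k) (n : ℕ) (hn : x < Y n) :
    a ≤ ((Finset.range n).filter (fun m => Y m = x)).card := by
  obtain ⟨t, ht, h1, h2⟩ := exists_cross Y h0 hs x hx n hn
  have h3 : ¬ (((Finset.range t).filter (fun m => Y m = x)).card < a) := by
    intro h
    have := hF t (by rw [h1]; exact ha _ h)
    rw [h1] at this
    omega
  refine (not_lt.mp h3).trans ?_
  apply Finset.card_le_card
  apply Finset.filter_subset_filter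
  exact Finset.range_mono ht.le

theorem sum_le_time (Y : ℕ → ℤ) (h0 : Y 0 = 0)
    (hs : ∀ n, Y (n+1) = Y n + 1 ∨ Y (n+1) = Y n - 1)
    (F : ℤ → ℕ → Prop)
    (hF : ∀ n, F (Y n) ((Finset.range n).filter (fun m => Y m = Y n)).card → Y (n+1) = Y n - 1)
    (a : ℕ → ℕ) (ha : ∀ i k, k < a i → F ((i:ℤ) + 1) k) (n N : ℕ) (hn : Y n = (N : ℤ) + 1) :
    ∑ i ∈ Finset.range N, a i ≤ n := by
  have h1 : ∀ i ∈ Finset.range N, a i ≤
      ((Finset.range n).filter (fun m => Y m = (i:ℤ) + 1)).card := by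
    intro i hi
    have := Finset.mem_range.mp hi
    exact visits_ge Y h0 hs F hF _ (by omega) _ (ha i) n (by rw [hn]; omega)
  refine (Finset.sum_le_sum h1).trans ?_
  rw [← Finset.card_biUnion]
  · refine (Finset.card_le_card (t := Finset.range n) ?_).trans (by simp)
    intro m hm
    simp only [Finset.mem_biUnion, Finset.mem_filter] at hm
    obtain ⟨_, _, h, _⟩ := hm
    exact h
  · intro i _ j _ hij
    rw [Function.onFun, Finset.disjoint_left]
    intro m hm hm'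
    simp only [Finset.mem_filter] at hm hm'
    apply hij
    have := hm.2.symm.trans hm'.2
    omega

/-- speed bound: if the piles in front grow superlinearly then eventually `Y n ≤ ε n` -/
theorem speed_upper (Y : ℕ → ℤ) (h0 : Y 0 = 0)
    (hs : ∀ n, Y (n+1) = Y n + 1 ∨ Y (n+1) = Y n - 1)
    (F : ℤ → ℕ → Prop)
    (hF : ∀ n, F (Y n) ((Finset.range n).filter (fun m => Y m = Y n)).card → Y (n+1) = Y n - 1)
    (hA : ∀ C : ℝ, ∃ a : ℕ → ℕ, (∀ i k, k < a i → F ((i:ℤ) + 1) k) ∧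
      ∀ᶠ N : ℕ in atTop, C * N ≤ ((∑ i ∈ Finset.range N, a i : ℕ) : ℝ))
    (ε : ℝ) (hε : 0 < ε) : ∀ᶠ n : ℕ in atTop, (Y n : ℝ) ≤ ε * n := by
  obtain ⟨a, ha, hev⟩ := hA (2 / ε)
  obtain ⟨N₀, hN₀⟩ := eventually_atTop.mp hev
  obtain ⟨n₀, hn₀⟩ := exists_nat_gt (((N₀:ℝ) + 2) / ε)
  filter_upwards [eventually_ge_atTop n₀] with n hn
  have hnε : (N₀:ℝ) + 2 ≤ ε * n := by
    have h1 : ((N₀:ℝ) + 2) / ε < n := hn₀.trans_le (by exact_mod_cast hn)
    rw [div_lt_iff₀ hε] at h1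
    linarith
  by_cases hY : Y n ≤ (N₀:ℤ) + 2
  · have : (Y n : ℝ) ≤ (N₀:ℝ) + 2 := by exact_mod_cast hY
    linarith
  · push Not at hY
    obtain ⟨N, hN⟩ : ∃ N : ℕ, Y n = (N:ℤ) + 1 := ⟨(Y n - 1).toNat, by omega⟩
    have h1 := sum_le_time Y h0 hs F hF a ha n N hN
    have h2 := hN₀ N (by omega)
    have h3 : ((∑ i ∈ Finset.range N, a i : ℕ) : ℝ) ≤ n := by exact_mod_cast h1
    have h4 : 2 / ε * N ≤ n := h2.trans h3
    have h5 : (2:ℝ) * N ≤ ε * n := by
      rw [div_mul_eq_mul_div, div_le_iff₀ hε] at h4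
      linarith
    have h6 : (1:ℝ) ≤ N := by
      have : 1 ≤ N := by omega
      exact_mod_cast this
    have h7 : (Y n : ℝ) = N + 1 := by rw [hN]; push_cast; ring
    linarith

/-- two-sided version: zero speed -/
theorem speed_zero (X : ℕ → ℤ) (h0 : X 0 = 0)
    (hs : ∀ n, X (n+1) = X n + 1 ∨ X (n+1) = X n - 1) (e : ℤ → ℕ → ℝ)
    (hl : ∀ n, e (X n) ((Finset.range n).filter (fun m => X m = X n)).card = 0 →
      X (n+1) = X n - 1)
    (hr : ∀ n, e (X n) ((Finset.range n).filter (fun m => X m = X n)).card = 1 →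
      X (n+1) = X n + 1)
    (hA : ∀ C : ℝ, ∃ a : ℕ → ℕ, (∀ i k, k < a i → e ((i:ℤ) + 1) k = 0) ∧
      ∀ᶠ N : ℕ in atTop, C * N ≤ ((∑ i ∈ Finset.range N, a i : ℕ) : ℝ))
    (hB : ∀ C : ℝ, ∃ a : ℕ → ℕ, (∀ i k, k < a i → e (-((i:ℤ) + 1)) k = 1) ∧
      ∀ᶠ N : ℕ in atTop, C * N ≤ ((∑ i ∈ Finset.range N, a i : ℕ) : ℝ)) :
    Tendsto (fun n : ℕ => (X n : ℝ) / n) atTop (𝓝 0) := by
  rw [Metric.tendsto_atTop']
  intro ε hε
  have h1 := speed_upper X h0 hs (fun x k => e x k = 0) hl hA (ε/2) (by linarith)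
  have h2 := speed_upper (fun n => - X n) (by simp [h0])
    (by intro n; rcases hs n with h | h <;> [right; left] <;> omega)
    (fun x k => e (-x) k = 1)
    (by
      intro n h
      simp only [neg_neg, neg_inj] at h
      have := hr n h
      omega) hB (ε/2) (by linarith)
  obtain ⟨N, hN⟩ := eventually_atTop.mp (h1.and h2)
  refine ⟨N, ?_⟩
  intro n hn
  obtain ⟨h3, h4⟩ := hN n hn.le
  have hn0 : (0:ℝ) < n := by
    have : 0 < n := by omega
    exact_mod_cast this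
  rw [Real.dist_eq, sub_zero, abs_lt]
  push_cast at h4
  constructor
  · rw [lt_div_iff₀ hn0]
    nlinarith
  · rw [div_lt_iff₀ hn0]
    nlinarith

end Pool.Agent.H497R3
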