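import Pool.Agent.H497R3.Walk

set_option autoImplicit false
open MeasureTheory ProbabilityTheory Filter Topology
open scoped ENNReal

namespace Pool.Agent.H497R3

/-- fair coin -/
noncomputable def coin : Measure Bool :=
  (1/2 : ℝ≥0∞) • Measure.dirac true + (1/2 : ℝ≥0∞) • Measure.dirac false

instance : IsProbabilityMeasure coin := by
  constructor
  simp [coin, ENNReal.inv_two_add_inv_two]

theorem coin_map_not : coin.map (fun b => !b) = coin := by
  have hm : Measurable (fun b : Bool => !b) := measurable_of_countable _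
  unfold coin
  rw [Measure.map_add _ _ hm, Measure.map_smul, Measure.map_smul]
  rw [Measure.map_dirac' hm, Measure.map_dirac' hm]
  simp [add_comm]

/-- all coins, indexed by walker, site and visit number -/
noncomputable def coins : Measure ((ℕ × ℤ × ℕ) → Bool) := Measure.infinitePi (fun _ => coin)

instance : IsProbabilityMeasure coins := by unfold coins; infer_instance

/-- flip the coin at index `a` -/
def flipc (a : ℕ × ℤ × ℕ) (c : (ℕ × ℤ × ℕ) → Bool) : (ℕ × ℤ × ℕ) → Bool :=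
  fun b => if b = a then !(c b) else c b

theorem flipc_flipc (a : ℕ × ℤ × ℕ) (c : (ℕ × ℤ × ℕ) → Bool) : flipc a (flipc a c) = c := by
  funext b
  unfold flipc
  split_ifs <;> simp

theorem mp_flipc (a : ℕ × ℤ × ℕ) : MeasurePreserving (flipc a) coins coins := by
  have h1 : flipc a = fun c b => (if b = a then (fun t : Bool => !t) else id) (c b) := by
    funext c b
    unfold flipc
    split_ifs <;> rfl
  have hm : ∀ b : ℕ × ℤ × ℕ, Measurable (if b = a then (fun t : Bool => !t) else id) :=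
    fun b => measurable_of_countable _
  constructor
  · rw [h1]
    exact measurable_pi_lambda _ fun b => (hm b).comp (measurable_pi_apply b)
  · rw [h1]
    unfold coins
    rw [Measure.infinitePi_map_pi (μ := fun _ : ℕ × ℤ × ℕ => coin) hm]
    congr 1
    funext b
    split_ifs
    · exact coin_map_not
    · simp

section system

variable {Ω : Type} [MeasurableSpace Ω] (P₀ : Measure Ω) [IsProbabilityMeasure P₀]
  (W₀ : Ω → ℤ → ℕ → ℝ)

/-- the environment -/
def sW (θ : Ω × ((ℕ × ℤ × ℕ) → Bool)) : ℤ → ℕ → ℝ := W₀ θ.1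

/-- the coins, curried -/
def sc (θ : Ω × ((ℕ × ℤ × ℕ) → Bool)) : ℕ → ℤ → ℕ → Bool := fun j x k => θ.2 (j, x, k)

/-- environments -/
noncomputable def sE (j : ℕ) (θ : Ω × ((ℕ × ℤ × ℕ) → Bool)) : ℤ → ℕ → ℝ :=
  envs (W₀ θ.1) (sc θ) j

/-- walkers -/
noncomputable def sX (j : ℕ) (θ : Ω × ((ℕ × ℤ × ℕ) → Bool)) : ℕ → ℤ :=
  pos (arrows (sE W₀ j θ) (sc θ j))

/-- flips on the big space -/
def flipT (a : ℕ × ℤ × ℕ) (θ : Ω × ((ℕ × ℤ × ℕ) → Bool)) : Ω × ((ℕ × ℤ × ℕ) → Bool) :=
  (θ.1, flipc a θ.2)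

theorem mp_flipT (a : ℕ × ℤ × ℕ) :
    MeasurePreserving (flipT a) (P₀.prod coins) (P₀.prod coins) := by
  have := (MeasurePreserving.id P₀).prod (mp_flipc a)
  exact this

theorem flipT_flipT (a : ℕ × ℤ × ℕ) (θ : Ω × ((ℕ × ℤ × ℕ) → Bool)) :
    flipT a (flipT a θ) = θ := by
  simp [flipT, flipc_flipc]

theorem measurable_sc : Measurable (sc : Ω × ((ℕ × ℤ × ℕ) → Bool) → ℕ → ℤ → ℕ → Bool) := by
  refine measurable_pi_lambda _ fun j => measurable_pi_lambda _ fun x => measurable_pi_lambda _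
    fun k => ?_
  exact (measurable_pi_apply (j, x, k)).comp measurable_snd

variable {W₀}

theorem measurable_sW (hW : Measurable W₀) : Measurable (sW W₀) := hW.comp measurable_fst

theorem measurable_sE (hW : Measurable W₀) (j : ℕ) : Measurable (sE W₀ j) :=
  measurable_envs (hW.comp measurable_fst) measurable_sc j

theorem measurable_sX (hW : Measurable W₀) (j : ℕ) : Measurable (sX W₀ j) :=
  measurable_pos (measurable_arrows (measurable_sE hW j)
    ((measurable_pi_apply j).comp measurable_sc))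

/-- the state of walker `j` at time `n` -/
noncomputable def sk (W₀ : Ω → ℤ → ℕ → ℝ) (j n : ℕ) (θ : Ω × ((ℕ × ℤ × ℕ) → Bool)) : ℤ × ℕ :=
  (sX W₀ j θ n, cnt (arrows (sE W₀ j θ) (sc θ j)) n (sX W₀ j θ n))

theorem sk_snd (j n : ℕ) (θ : Ω × ((ℕ × ℤ × ℕ) → Bool)) :
    (sk W₀ j n θ).2 = ((Finset.range n).filter (fun m => sX W₀ j θ m = sX W₀ j θ n)).card :=
  cnt_eq _ _ _

/-- invariance of the past under a flip -/
theorem flip_inv (j n : ℕ) (θ : Ω × ((ℕ × ℤ × ℕ) → Bool)) :
    (∀ i, i ≤ j → sE W₀ i (flipT (j, sk W₀ j n θ) θ) = sE W₀ i θ) ∧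
    (∀ i, i < j → sX W₀ i (flipT (j, sk W₀ j n θ) θ) = sX W₀ i θ) ∧
    (∀ m, m ≤ n → sX W₀ j (flipT (j, sk W₀ j n θ) θ) m = sX W₀ j θ m) := by
  set a := sk W₀ j n θ with ha
  have hc : ∀ i, i < j → sc (flipT (j, a) θ) i = sc θ i := by
    intro i hi
    funext x k
    simp only [sc, flipT, flipc]
    rw [if_neg]
    intro h
    have := (Prod.mk.inj h).1
    omega
  have hE : ∀ i, i ≤ j → sE W₀ i (flipT (j, a) θ) = sE W₀ i θ := by
    intro i hi
    exact envs_congr (j := j) (fun i hi => hc i hi) i hi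
  have hX : ∀ i, i < j → sX W₀ i (flipT (j, a) θ) = sX W₀ i θ := by
    intro i hi
    simp only [sX]
    rw [hE i hi.le, hc i hi]
  refine ⟨hE, hX, ?_⟩
  intro m hm
  have := st_flip (A := arrows (sE W₀ j θ) (sc θ j))
    (A' := arrows (sE W₀ j (flipT (j, a) θ)) (sc (flipT (j, a) θ) j)) (n := n)
    (x := a.1) (k := a.2) ?_ rfl (by rw [ha]; rfl) m hm
  · show (st _ m).1 = (st _ m).1
    rw [this]
  · intro y l hyl
    rw [hE j le_rfl]
    simp only [arrows]
    have : sc (flipT (j, a) θ) j y l = sc θ j y l := by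
      simp only [sc, flipT, flipc]
      rw [if_neg]
      intro h
      apply hyl
      exact (Prod.mk.inj h).2
    rw [this]

theorem sk_flip (j n : ℕ) (θ : Ω × ((ℕ × ℤ × ℕ) → Bool)) :
    sk W₀ j n (flipT (j, sk W₀ j n θ) θ) = sk W₀ j n θ := by
  have h := (flip_inv (W₀ := W₀) j n θ).2.2
  apply Prod.ext
  · exact h n le_rfl
  · rw [sk_snd, sk_snd, h n le_rfl]
    congr 1
    apply Finset.filter_congr
    intro m hm
    rw [h m (Finset.mem_range.mp hm).le]

/-- the data generating the past sigma algebra -/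
noncomputable def sdata (W₀ : Ω → ℤ → ℕ → ℝ) (j n : ℕ) (θ : Ω × ((ℕ × ℤ × ℕ) → Bool)) :
    (ℤ → ℕ → ℝ) × (Fin j → ℕ → ℤ) × (Fin (n+1) → ℤ) :=
  (sW W₀ θ, (fun i : Fin j => sX W₀ (i : ℕ) θ), (fun m : Fin (n+1) => sX W₀ j θ (m : ℕ)))

theorem measurable_sdata (hW : Measurable W₀) (j n : ℕ) : Measurable (sdata W₀ j n) := by
  refine (measurable_sW hW).prodMk (Measurable.prodMk ?_ ?_)
  · exact measurable_pi_lambda _ fun i => measurable_sX hW i
  · exact measurable_pi_lambda _ fun m => (measurable_pi_apply (m : ℕ)).comp (measurable_sX hW j)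

theorem sdata_flip (j n : ℕ) (θ : Ω × ((ℕ × ℤ × ℕ) → Bool)) :
    sdata W₀ j n (flipT (j, sk W₀ j n θ) θ) = sdata W₀ j n θ := by
  obtain ⟨_, h2, h3⟩ := flip_inv (W₀ := W₀) j n θ
  refine Prod.ext rfl (Prod.ext ?_ ?_)
  · funext i
    exact h2 i i.2
  · funext m
    exact h3 m (by have := m.2; omega)

theorem measurable_sk (hW : Measurable W₀) (j n : ℕ) : Measurable (sk W₀ j n) := by
  have h0 := measurable_st (measurable_arrows (measurable_sE hW j)
    ((measurable_pi_apply j).comp measurable_sc)) n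
  have h1 : Measurable (fun θ => sX W₀ j θ n) :=
    (measurable_pi_apply n).comp (measurable_sX hW j)
  refine h1.prodMk ?_
  exact measurable_eval_countable
    (f := fun θ x => (st (arrows (sE W₀ j θ) (sc θ j)) n).2 x)
    (fun x => (measurable_pi_apply x).comp (measurable_snd.comp h0)) h1

/-- the key symmetry: given the past, the next coin is fair -/
theorem half_lemma (hW : Measurable W₀) (j n : ℕ) (E : Set (Ω × ((ℕ × ℤ × ℕ) → Bool)))
    (hE : MeasurableSet E)
    (hinv : ∀ θ, θ ∈ E → flipT (j, sk W₀ j n θ) θ ∈ E) :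
    (P₀.prod coins) (E ∩ {θ | θ.2 (j, sk W₀ j n θ) = true}) =
      (P₀.prod coins) (E ∩ {θ | θ.2 (j, sk W₀ j n θ) = false}) := by
  set μ := P₀.prod coins with hμ
  have hk := measurable_sk hW j n
  have piece : ∀ a : ℤ × ℕ,
      μ (E ∩ (sk W₀ j n ⁻¹' {a}) ∩ {θ | θ.2 (j, a) = true}) =
      μ (E ∩ (sk W₀ j n ⁻¹' {a}) ∩ {θ | θ.2 (j, a) = false}) := by
    intro a
    have hmeas : MeasurableSet (E ∩ (sk W₀ j n ⁻¹' {a}) ∩ {θ | θ.2 (j, a) = false}) := by
      refine (hE.inter (hk (measurableSet_singleton a))).inter ?_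
      have hm : Measurable (fun θ : Ω × ((ℕ × ℤ × ℕ) → Bool) => θ.2 (j, a)) :=
        (measurable_pi_apply (j, a)).comp measurable_snd
      exact hm (measurableSet_singleton false)
    rw [← (mp_flipT P₀ (j, a)).measure_preimage hmeas.nullMeasurableSet]
    congr 1
    ext θ
    simp only [Set.mem_inter_iff, Set.mem_preimage, Set.mem_singleton_iff, Set.mem_setOf_eq]
    constructor
    · rintro ⟨⟨h1, h2⟩, h3⟩
      refine ⟨⟨?_, ?_⟩, ?_⟩
      · have := hinv θ h1
        rwa [h2] at this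
      · have := sk_flip (W₀ := W₀) j n θ
        rwa [h2] at this
      · simp only [flipT, flipc, if_true, h3]
        rfl
    · rintro ⟨⟨h1, h2⟩, h3⟩
      have e1 : flipT (j, a) (flipT (j, a) θ) = θ := flipT_flipT _ _
      refine ⟨⟨?_, ?_⟩, ?_⟩
      · have := hinv _ h1
        rw [h2, e1] at this
        exact this
      · have := sk_flip (W₀ := W₀) j n (flipT (j, a) θ)
        rw [h2, e1] at this
        exact this
      · simp only [flipT, flipc, if_true] at h3
        simpa using h3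
  have dec : ∀ b : Bool, μ (E ∩ {θ | θ.2 (j, sk W₀ j n θ) = b}) =
      ∑' a : ℤ × ℕ, μ (E ∩ (sk W₀ j n ⁻¹' {a}) ∩ {θ | θ.2 (j, a) = b}) := by
    intro b
    rw [← measure_iUnion]
    · congr 1
      ext θ
      simp only [Set.mem_inter_iff, Set.mem_setOf_eq, Set.mem_iUnion, Set.mem_preimage,
        Set.mem_singleton_iff]
      constructor
      · rintro ⟨h1, h2⟩
        exact ⟨sk W₀ j n θ, ⟨h1, rfl⟩, h2⟩
      · rintro ⟨a, ⟨h1, h2⟩, h3⟩
        rw [h2]
        exact ⟨h1, h3⟩
    · intro a a' haa'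
      rw [Function.onFun, Set.disjoint_left]
      rintro θ ⟨⟨_, h2⟩, _⟩ ⟨⟨_, h2'⟩, _⟩
      exact haa' (h2.symm.trans h2')
    · intro a
      refine (hE.inter (hk (measurableSet_singleton a))).inter ?_
      have hm : Measurable (fun θ : Ω × ((ℕ × ℤ × ℕ) → Bool) => θ.2 (j, a)) :=
        (measurable_pi_apply (j, a)).comp measurable_snd
      exact hm (measurableSet_singleton b)
  rw [dec true, dec false]
  exact tsum_congr piece

end system

end Pool.Agent.H497R3
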