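import Pool.Agent.H497R3.Fast
import Pool.Agent.H497R3.CondExp
import Pool.Agent.H497R3.GeoLaw

set_option autoImplicit false
open MeasureTheory ProbabilityTheory Filter Topology
open scoped ENNReal

namespace Pool.Agent.H497R3

/-- choice of a sequence where the constraint on the `i`-th term depends on the previous terms -/
theorem exists_rec (P : ℕ → (ℕ → ℕ) → ℕ → Prop)
    (hcongr : ∀ i M M', (∀ j, j < i → M j = M' j) → ∀ t, P i M t → P i M' t)
    (hex : ∀ i M, ∃ t, P i M t) : ∃ m : ℕ → ℕ, ∀ i, P i m (m i) := by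
  classical
  let F : (i : ℕ) → ((j : ℕ) → j < i → ℕ) → ℕ := fun i prev =>
    Classical.choose (hex i (fun j => if h : j < i then prev j h else 0))
  let m : ℕ → ℕ := fun i => WellFoundedRelation.wf.fix (C := fun _ : ℕ => ℕ) F i
  have hm : ∀ i, m i = F i (fun j _ => m j) := fun i =>
    WellFoundedRelation.wf.fix_eq (C := fun _ : ℕ => ℕ) F i
  refine ⟨m, fun i => ?_⟩
  have h1 := Classical.choose_spec (hex i (fun j => if h : j < i then m j else 0))
  have h2 : m i = Classical.choose (hex i (fun j => if h : j < i then m j else 0)) := hm i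
  rw [h2]
  refine hcongr i _ m ?_ _ h1
  intro j hj
  simp [hj]

/-- the stack with label `i`: `M i` ones, then `M i` zeros, then 1/2 -/
noncomputable def stB (M : ℕ → ℕ) (i k : ℕ) : ℝ :=
  if k < M i then 1 else if k < 2 * M i then 0 else 1/2

/-- the big space: labels and coins -/
abbrev Big : Type := (ℤ → ℕ) × ((ℕ × ℤ × ℕ) → Bool)

/-- its law -/
noncomputable def bigμ : Measure Big := (Measure.infinitePi (fun _ : ℤ => geo)).prod coins

instance : IsProbabilityMeasure bigμ := by unfold bigμ; infer_instance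

/-- arrow field of the first walker -/
noncomputable def arr (M : ℕ → ℕ) (θ : Big) : ℤ → ℕ → Bool := fun x k =>
  if k < M (θ.1 x) then true else if k < 2 * M (θ.1 x) then false else θ.2 (0, x, k)

/-- arrow field of level `i`: sites with label at least `i` always point to the right -/
noncomputable def arrL (i : ℕ) (M : ℕ → ℕ) (θ : Big) : ℤ → ℕ → Bool := fun x k =>
  if i ≤ θ.1 x then true else arr M θ x k

theorem arr_eq (M : ℕ → ℕ) (θ : Big) :
    arr M θ = arrows (fun x => stB M (θ.1 x)) (sc θ 0) := by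
  funext x k
  by_cases h1 : k < M (θ.1 x)
  · simp [arr, arrows, stB, sc, h1]
  · by_cases h2 : k < 2 * M (θ.1 x)
    · simp [arr, arrows, stB, sc, h1, h2]
    · have h3 : ¬ ((2:ℝ)⁻¹ = 1) := by norm_num
      simp [arr, arrows, stB, sc, h1, h2, h3]

theorem measurable_label (x : ℤ) : Measurable (fun θ : Big => θ.1 x) :=
  (measurable_pi_apply x).comp measurable_fst

theorem measurable_coin (a : ℕ × ℤ × ℕ) : Measurable (fun θ : Big => θ.2 a) :=
  (measurable_pi_apply a).comp measurable_snd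

theorem measurable_arr (M : ℕ → ℕ) : Measurable (arr M) := by
  refine measurable_pi_lambda _ fun x => measurable_pi_lambda _ fun k => ?_
  refine Measurable.ite ?_ measurable_const (Measurable.ite ?_ measurable_const
    (measurable_coin _))
  · exact (measurable_label x) (Set.to_countable {i : ℕ | k < M i}).measurableSet
  · exact (measurable_label x) (Set.to_countable {i : ℕ | k < 2 * M i}).measurableSet

theorem measurable_arrL (i : ℕ) (M : ℕ → ℕ) : Measurable (arrL i M) := by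
  refine measurable_pi_lambda _ fun x => measurable_pi_lambda _ fun k => ?_
  refine Measurable.ite ?_ measurable_const
    ((measurable_pi_apply k).comp ((measurable_pi_apply x).comp (measurable_arr M)))
  exact (measurable_label x) (Set.to_countable {l : ℕ | i ≤ l}).measurableSet

/-- bad event of level `i` with threshold `t`: the origin has label at least `i` but the level-`i`
walk does not meet a label at least `i + 1` up to time `t` -/
def Bad (i : ℕ) (M : ℕ → ℕ) (t : ℕ) : Set Big :=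
  {θ | i ≤ θ.1 0 ∧ ∀ n, n ≤ t → θ.1 (pos (arrL i M θ) n) < i + 1}

theorem measurableSet_Bad (i : ℕ) (M : ℕ → ℕ) (t : ℕ) : MeasurableSet (Bad i M t) := by
  have h1 : MeasurableSet {θ : Big | i ≤ θ.1 0} :=
    (measurable_label 0) (Set.to_countable {l : ℕ | i ≤ l}).measurableSet
  have h2 : ∀ n, Measurable (fun θ : Big => θ.1 (pos (arrL i M θ) n)) := fun n =>
    measurable_eval_countable (f := fun (θ : Big) x => θ.1 x) (fun x => measurable_label x)
      ((measurable_pi_apply n).comp (measurable_pos (measurable_arrL i M)))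
  have : Bad i M t = {θ : Big | i ≤ θ.1 0} ∩
      ⋂ n, ⋂ (_ : n ≤ t), {θ | θ.1 (pos (arrL i M θ) n) < i + 1} := by
    ext θ; simp [Bad]
  rw [this]
  refine h1.inter (MeasurableSet.iInter fun n => MeasurableSet.iInter fun _ => ?_)
  exact (h2 n) (Set.to_countable {l : ℕ | l < i + 1}).measurableSet

theorem arrL_congr (i : ℕ) (M M' : ℕ → ℕ) (h : ∀ j, j < i → M j = M' j) (θ : Big) :
    arrL i M θ = arrL i M' θ := by
  funext x k
  unfold arrL
  by_cases hi : i ≤ θ.1 x
  · rw [if_pos hi, if_pos hi]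
  · rw [if_neg hi, if_neg hi]
    unfold arr
    rw [h _ (not_le.mp hi)]

theorem Bad_congr (i : ℕ) (M M' : ℕ → ℕ) (h : ∀ j, j < i → M j = M' j) (t : ℕ) :
    Bad i M t = Bad i M' t := by
  ext θ
  simp only [Bad, Set.mem_setOf_eq, arrL_congr i M M' h θ]

theorem Bad_anti (i : ℕ) (M : ℕ → ℕ) : Antitone (Bad i M) := by
  intro s t hst θ hθ
  exact ⟨hθ.1, fun n hn => hθ.2 n (hn.trans hst)⟩

/-- coins: no infinite run of `false` -/
theorem ae_coins : ∀ᵐ θ ∂bigμ, ∀ (x : ℤ) (K : ℕ), ∃ k, K ≤ k ∧ θ.2 (0, x, k) = true := by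
  rw [ae_all_iff]; intro x
  rw [ae_all_iff]; intro K
  rw [ae_iff]
  have hsub : ∀ n : ℕ, bigμ {θ : Big | ¬ ∃ k, K ≤ k ∧ θ.2 (0, x, k) = true} ≤
      ((2:ℝ≥0∞)⁻¹) ^ n := by
    intro n
    let s : Finset (ℕ × ℤ × ℕ) := (Finset.range n).image (fun k : ℕ => (0, x, K + k))
    have hscard : s.card = n := by
      rw [Finset.card_image_of_injective _ (fun a b h => by simpa using h), Finset.card_range]
    have h1 : bigμ {θ : Big | ¬ ∃ k, K ≤ k ∧ θ.2 (0, x, k) = true} ≤
        bigμ (Set.univ ×ˢ (Set.pi (s : Set (ℕ × ℤ × ℕ)) (fun _ => {false}))) := by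
      apply measure_mono
      intro θ hθ
      simp only [Set.mem_setOf_eq, not_exists, not_and] at hθ
      refine ⟨trivial, ?_⟩
      intro a ha
      simp only [s, Finset.coe_image, Set.mem_image, Finset.coe_range] at ha
      obtain ⟨k, _, rfl⟩ := ha
      have := hθ (K + k) (by omega)
      simpa using this
    refine h1.trans (le_of_eq ?_)
    unfold bigμ coins
    rw [Measure.prod_prod, measure_univ, one_mul, Measure.infinitePi_pi]
    · have hc : coin {false} = (2:ℝ≥0∞)⁻¹ := by simp [coin]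
      rw [Finset.prod_const, hc, hscard]
    · intro i _
      exact measurableSet_singleton _
  have hlim : Tendsto (fun n : ℕ => ((2:ℝ≥0∞)⁻¹) ^ n) atTop (𝓝 0) :=
    ENNReal.tendsto_pow_atTop_nhds_zero_of_lt_one (by simp)
  exact le_antisymm (ge_of_tendsto' hlim hsub) zero_le

theorem geo_lt_one (i : ℕ) : geo {l | l < i} < 1 := by
  have h1 : geo {l | l < i} + geo {i} ≤ 1 := by
    rw [← measure_union]
    · exact prob_le_one
    · rw [Set.disjoint_left]
      intro l hl hl'
      simp only [Set.mem_setOf_eq, Set.mem_singleton_iff] at hl hl'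
      omega
    · exact measurableSet_singleton i
  have h2 : 0 < geo {i} := by
    rw [geo_singleton]
    exact ENNReal.pow_pos (by simp) _
  by_contra h
  push Not at h
  have h3 : geo {l | l < i} = 1 := le_antisymm prob_le_one h
  rw [h3] at h1
  have h4 : (1:ℝ≥0∞) + 0 < 1 + geo {i} := ENNReal.add_lt_add_left (by simp) h2
  rw [add_zero] at h4
  exact absurd (h4.trans_le h1) (lt_irrefl _)

/-- no label at least `i` among the first `n` sites: small probability -/
theorem noLabel (i n : ℕ) (y : ℤ) : bigμ {θ : Big | ∀ k : ℕ, k < n → θ.1 (y + k) < i} =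
    (geo {l | l < i}) ^ n := by
  let s : Finset ℤ := (Finset.range n).image (fun k : ℕ => y + (k:ℤ))
  have hscard : s.card = n := by
    rw [Finset.card_image_of_injective _ (fun a b h => by simpa using h), Finset.card_range]
  have : {θ : Big | ∀ k : ℕ, k < n → θ.1 (y + k) < i} =
      (Set.pi (s : Set ℤ) (fun _ => {l : ℕ | l < i})) ×ˢ Set.univ := by
    ext θ
    simp [s, Set.mem_pi]
  rw [this]
  unfold bigμ
  rw [Measure.prod_prod, measure_univ, mul_one, Measure.infinitePi_pi]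
  · rw [Finset.prod_const, hscard]
  · intro _ _
    exact (Set.to_countable _).measurableSet

theorem noLabel_tendsto (i : ℕ) (y : ℤ) :
    Tendsto (fun n => bigμ {θ : Big | ∀ k : ℕ, k < n → θ.1 (y + k) < i}) atTop (𝓝 0) := by
  simp only [noLabel]
  exact ENNReal.tendsto_pow_atTop_nhds_zero_of_lt_one (geo_lt_one i)

theorem ae_label (i : ℕ) (y : ℤ) : ∀ᵐ θ ∂bigμ, ∃ k : ℕ, i ≤ θ.1 (y + k) := by
  rw [ae_iff]
  refine le_antisymm (ge_of_tendsto' (noLabel_tendsto i y) ?_) zero_le
  intro n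
  apply measure_mono
  intro θ hθ
  simp only [Set.mem_setOf_eq, not_exists, not_le] at hθ
  intro k _
  exact hθ k

theorem Bad_iInter_null (i : ℕ) (M : ℕ → ℕ) : bigμ (⋂ t, Bad i M t) = 0 := by
  rw [measure_eq_zero_iff_ae_notMem]
  filter_upwards [ae_coins, ae_label (i+1) 0] with θ h1 h2
  intro hθ
  simp only [Set.mem_iInter] at hθ
  obtain ⟨k, hk⟩ := h2
  rw [zero_add] at hk
  have h3 : i ≤ θ.1 0 := (hθ 0).1
  obtain ⟨n, hn⟩ := reaches (arrL i M θ) (k:ℤ) (by omega) (by
      intro l; unfold arrL; rw [if_pos h3]) (by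
      intro x _ _ K
      by_cases hx : i ≤ θ.1 x
      · exact ⟨K, le_rfl, by unfold arrL; rw [if_pos hx]⟩
      · obtain ⟨l, hl, hl2⟩ := h1 x (max K (2 * M (θ.1 x)))
        refine ⟨l, (le_max_left _ _).trans hl, ?_⟩
        have h4 := (le_max_right _ _).trans hl
        unfold arrL arr
        rw [if_neg hx, if_neg (by omega), if_neg (by omega), hl2])
  have h4 := (hθ n).2 n le_rfl
  rw [hn] at h4
  omega

theorem Bad_tendsto (i : ℕ) (M : ℕ → ℕ) :
    Tendsto (fun t => bigμ (Bad i M t)) atTop (𝓝 0) := by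
  rw [← Bad_iInter_null i M]
  exact tendsto_measure_iInter_atTop (fun t => (measurableSet_Bad i M t).nullMeasurableSet)
    (Bad_anti i M) ⟨0, measure_ne_top _ _⟩

/-- shift of the big space -/
def shB (y : ℤ) (θ : Big) : Big := (fun x => θ.1 (x + y), fun a => θ.2 (a.1, a.2.1 + y, a.2.2))

theorem mp_shB (y : ℤ) : MeasurePreserving (shB y) bigμ bigμ := by
  have h1 : MeasurePreserving (fun (l : ℤ → ℕ) x => l (x + y))
      (Measure.infinitePi (fun _ : ℤ => geo)) (Measure.infinitePi (fun _ : ℤ => geo)) := by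
    refine ⟨measurable_pi_lambda _ fun x => measurable_pi_apply _, ?_⟩
    exact Measure.map_infinitePi_infinitePi_of_inj (P := fun _ : ℤ => geo)
      (f := fun x : ℤ => x + y) (fun a b h => by simpa using h)
  have h2 : MeasurePreserving (fun (c : (ℕ × ℤ × ℕ) → Bool) (a : ℕ × ℤ × ℕ) =>
      c (a.1, a.2.1 + y, a.2.2)) coins coins := by
    refine ⟨measurable_pi_lambda _ fun x => measurable_pi_apply _, ?_⟩
    exact Measure.map_infinitePi_infinitePi_of_inj (P := fun _ : ℕ × ℤ × ℕ => coin)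
      (f := fun a : ℕ × ℤ × ℕ => (a.1, a.2.1 + y, a.2.2)) (fun a b h => by
        obtain ⟨a1, a2, a3⟩ := a
        obtain ⟨b1, b2, b3⟩ := b
        simp only [Prod.mk.injEq] at h ⊢
        refine ⟨h.1, by linarith [h.2.1], h.2.2⟩)
  exact h1.prod h2

theorem arrL_shB (i : ℕ) (M : ℕ → ℕ) (y : ℤ) (θ : Big) :
    arrL i M (shB y θ) = shA (arrL i M θ) y := by
  funext x k
  simp only [arrL, shA, arr, shB]
  try rfl

/-- failure event of level `i` -/
def Fail (i : ℕ) (M : ℕ → ℕ) (t L : ℕ) : Set Big :=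
  {θ : Big | ∀ k : ℕ, k < L → θ.1 ((0:ℤ) + k) < i} ∪ ⋃ k ∈ Finset.range L, shB (k:ℤ) ⁻¹' (Bad i M t)

theorem Fail_small (i : ℕ) (ε : ℝ≥0∞) (hε : 0 < ε) : ∃ L : ℕ, ∀ M : ℕ → ℕ, ∃ t₀ : ℕ, ∀ t,
    t₀ ≤ t → bigμ (Fail i M t L) ≤ ε := by
  have hε2 : 0 < ε / 2 := ENNReal.half_pos hε.ne'
  obtain ⟨L, hL⟩ := ((tendsto_order.1 (noLabel_tendsto i 0)).2 _ hε2).exists
  refine ⟨L, fun M => ?_⟩
  have hε3 : 0 < ε / 2 / (L + 1 : ℕ) := ENNReal.div_pos hε2.ne' (ENNReal.natCast_ne_top _)
  obtain ⟨t₀, ht₀⟩ := eventually_atTop.mp ((tendsto_order.1 (Bad_tendsto i M)).2 _ hε3)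
  refine ⟨t₀, fun t ht => ?_⟩
  have h1 : ∀ k ∈ Finset.range L, bigμ (shB (k:ℤ) ⁻¹' (Bad i M t)) ≤ ε / 2 / (L + 1 : ℕ) := by
    intro k _
    rw [(mp_shB k).measure_preimage (measurableSet_Bad i M t).nullMeasurableSet]
    exact (ht₀ t ht).le
  calc bigμ (Fail i M t L) ≤ bigμ {θ : Big | ∀ k : ℕ, k < L → θ.1 ((0:ℤ) + k) < i} +
        bigμ (⋃ k ∈ Finset.range L, shB (k:ℤ) ⁻¹' (Bad i M t)) := measure_union_le _ _
    _ ≤ ε / 2 + ∑ k ∈ Finset.range L, bigμ (shB (k:ℤ) ⁻¹' (Bad i M t)) := by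
        gcongr
        exact measure_biUnion_finset_le _ _
    _ ≤ ε / 2 + ∑ k ∈ Finset.range L, ε / 2 / (L + 1 : ℕ) := by
        gcongr with k hk
        exact h1 k hk
    _ = ε / 2 + L * (ε / 2 / (L + 1 : ℕ)) := by simp
    _ ≤ ε / 2 + (L + 1 : ℕ) * (ε / 2 / (L + 1 : ℕ)) := by
        gcongr
        simp
    _ = ε / 2 + ε / 2 := by
        rw [ENNReal.mul_div_cancel (by simp) (ENNReal.natCast_ne_top _)]
    _ = ε := ENNReal.add_halves ε


theorem arr_agree (i : ℕ) (M : ℕ → ℕ) (hM : ∀ j, i ≤ j → M i ≤ M j) (θ : Big) (x : ℤ) (k : ℕ)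
    (hk : k < M i) : arrL i M θ x k = arr M θ x k := by
  unfold arrL
  split_ifs with h
  · unfold arr
    rw [if_pos (hk.trans_le (hM _ h))]
  · rfl

/-- the main existence statement: parameters for which the walk is transient with positive
probability -/
theorem exists_transient : ∃ M : ℕ → ℕ, M 0 = 0 ∧
    0 < bigμ {θ : Big | Tendsto (fun n => |pos (arr M θ) n|) atTop atTop} := by
  have hεpos : ∀ i : ℕ, (0:ℝ≥0∞) < ((2:ℝ≥0∞)⁻¹)^(i+2) := fun i => ENNReal.pow_pos (by simp) _
  choose L hL using fun i => Fail_small i (((2:ℝ≥0∞)⁻¹)^(i+2)) (hεpos i)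
  obtain ⟨M, hM⟩ := exists_rec
    (fun i M t => (i = 0 ∧ t = 0) ∨ (i ≠ 0 ∧ (∀ j, j < i → M j ≤ t) ∧
      bigμ (Fail i M t (L i)) ≤ ((2:ℝ≥0∞)⁻¹)^(i+2)))
    (by
      intro i M M' h t ht
      rcases ht with ht | ⟨h0, h1, h2⟩
      · exact Or.inl ht
      · refine Or.inr ⟨h0, fun j hj => by rw [← h j hj]; exact h1 j hj, ?_⟩
        have : Fail i M' t (L i) = Fail i M t (L i) := by
          unfold Fail
          rw [Bad_congr i M M' h t]
        rw [this]
        exact h2)
    (by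
      intro i M
      by_cases h0 : i = 0
      · exact ⟨0, Or.inl ⟨h0, rfl⟩⟩
      · obtain ⟨t₀, ht₀⟩ := hL i M
        refine ⟨t₀ + ∑ j ∈ Finset.range i, M j, Or.inr ⟨h0, ?_, ht₀ _ (by omega)⟩⟩
        intro j hj
        have := Finset.single_le_sum (f := M) (fun _ _ => Nat.zero_le _) (Finset.mem_range.mpr hj)
        omega)
  have hM0 : M 0 = 0 := by
    rcases hM 0 with h | h
    · exact h.2
    · exact absurd rfl h.1
  have hMmono : Monotone M := by
    apply monotone_nat_of_le_succ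
    intro i
    rcases hM (i+1) with h | h
    · exact absurd h.1 (by omega)
    · exact h.2.1 i (by omega)
  have hFail : ∀ i, bigμ (Fail (i+1) M (M (i+1)) (L (i+1))) ≤ ((2:ℝ≥0∞)⁻¹)^(i+3) := by
    intro i
    rcases hM (i+1) with h | h
    · exact absurd h.1 (by omega)
    · exact h.2.2
  refine ⟨M, hM0, ?_⟩
  set G : Set Big := {θ : Big | Tendsto (fun n => |pos (arr M θ) n|) atTop atTop} with hG
  have hcover : (Set.univ : Set Big) ⊆ {θ : Big | ∀ k : ℕ, k < 1 → θ.1 ((0:ℤ) + k) < 1} ∪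
      (⋃ i, Fail (i+1) M (M (i+1)) (L (i+1))) ∪ G := by
    intro θ _
    by_contra hcon
    simp only [Set.mem_union, not_or, Set.mem_iUnion, not_exists] at hcon
    obtain ⟨⟨h1, h2⟩, h3⟩ := hcon
    apply h3
    have hlab0 : 1 ≤ θ.1 0 := by
      by_contra h
      apply h1
      intro k hk
      have : k = 0 := by omega
      subst this
      simpa using h
    have h4 : ∀ i, (∃ k : ℕ, k < L (i+1) ∧ i + 1 ≤ θ.1 (k:ℤ)) ∧
        ∀ k, k < L (i+1) → θ ∉ shB (k:ℤ) ⁻¹' (Bad (i+1) M (M (i+1))) := by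
      intro i
      have := h2 i
      simp only [Fail, Set.mem_union, not_or, Set.mem_setOf_eq, not_forall, not_lt, zero_add,
        Set.mem_iUnion, Finset.mem_range, not_exists] at this
      obtain ⟨⟨k, hk, hk2⟩, h6⟩ := this
      exact ⟨⟨k, hk, hk2⟩, fun k hk => h6 k hk⟩
    classical
    have hex : ∀ i, ∃ k : ℕ, i + 1 ≤ θ.1 (k:ℤ) := fun i => by
      obtain ⟨k, _, hk⟩ := (h4 i).1
      exact ⟨k, hk⟩
    have hYL : ∀ i, Nat.find (hex i) < L (i+1) := fun i => by
      obtain ⟨k, hk, hk2⟩ := (h4 i).1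
      exact (Nat.find_min' (hex i) hk2).trans_lt hk
    refine transient_of_phases (arr M θ) (fun i => ((Nat.find (hex i) : ℕ) : ℤ))
      (fun i => M (i+1)) ?_ ?_ ?_ ?_ ?_
    · have : Nat.find (hex 0) = 0 := by
        rw [Nat.find_eq_zero]; simpa using hlab0
      simp [this]
    · intro i
      have : Nat.find (hex i) ≤ Nat.find (hex (i+1)) := by
        apply Nat.find_min'
        have := Nat.find_spec (hex (i+1))
        omega
      exact_mod_cast this
    · intro K
      refine ⟨∑ k ∈ Finset.range K.toNat, θ.1 (k:ℤ), ?_⟩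
      by_contra hlt
      push Not at hlt
      have h5 := Nat.find_spec (hex (∑ k ∈ Finset.range K.toNat, θ.1 (k:ℤ)))
      have h6 := Finset.single_le_sum (f := fun k : ℕ => θ.1 (k:ℤ)) (fun _ _ => Nat.zero_le _)
        (Finset.mem_range.mpr (show Nat.find (hex (∑ k ∈ Finset.range K.toNat, θ.1 (k:ℤ))) <
          K.toNat by omega))
      simp only at h6
      omega
    · intro i k hk
      have h5 := Nat.find_spec (hex i)
      unfold arr
      rw [if_pos (lt_of_lt_of_le hk (hMmono h5))]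
    · intro i
      set y : ℕ := Nat.find (hex i) with hy
      have h5 := (h4 i).2 y (hYL i)
      have hlab : i + 1 ≤ θ.1 (y:ℤ) := Nat.find_spec (hex i)
      simp only [Set.mem_preimage, Bad, Set.mem_setOf_eq, not_and, not_forall] at h5
      have h6 : i + 1 ≤ (shB (y:ℤ) θ).1 0 := by
        simp only [shB, zero_add]; exact hlab
      obtain ⟨n, hn, h7⟩ := h5 h6
      rw [arrL_shB] at h7
      have hB : ∀ k, k < M (i+1) → shA (arr M θ) (y:ℤ) 0 k = true := by
        intro k hk
        simp only [shA, zero_add, arr]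
        rw [if_pos (lt_of_lt_of_le hk (hMmono hlab))]
      have hcong : pos (shA (arrL (i+1) M θ) (y:ℤ)) n = pos (shA (arr M θ) (y:ℤ)) n := by
        have := st_congr (A := shA (arr M θ) (y:ℤ)) (A' := shA (arrL (i+1) M θ) (y:ℤ)) (n := n)
          (by
            intro m hm
            have hc : cnt (shA (arr M θ) (y:ℤ)) m (pos (shA (arr M θ) (y:ℤ)) m) < M (i+1) :=
              lt_of_le_of_lt (cnt_le _ _ _) (by omega)
            simp only [shA]
            exact arr_agree (i+1) M (fun j hj => hMmono hj) θ _ _ hc) n le_rfl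
        unfold pos
        rw [this]
      rw [hcong] at h7
      refine ⟨n, hn, ?_⟩
      have hnn := nonneg_upto (shA (arr M θ) (y:ℤ)) (M (i+1)) hB n hn
      simp only [shB, not_lt] at h7
      have h8 : Nat.find (hex (i+1)) ≤ (pos (shA (arr M θ) (y:ℤ)) n + y).toNat := by
        apply Nat.find_min'
        rw [show (((pos (shA (arr M θ) (y:ℤ)) n + y).toNat : ℕ) : ℤ) =
          pos (shA (arr M θ) (y:ℤ)) n + y by omega]
        exact h7
      omega
  by_contra hzero
  have hG0 : bigμ G = 0 := le_antisymm (not_lt.mp hzero) zero_le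
  have h1 : (1:ℝ≥0∞) ≤ 2⁻¹ + 4⁻¹ := by
    calc (1:ℝ≥0∞) = bigμ Set.univ := measure_univ.symm
      _ ≤ bigμ ({θ : Big | ∀ k : ℕ, k < 1 → θ.1 ((0:ℤ) + k) < 1} ∪
      (⋃ i, Fail (i+1) M (M (i+1)) (L (i+1))) ∪ G) := measure_mono hcover
      _ ≤ bigμ ({θ : Big | ∀ k : ℕ, k < 1 → θ.1 ((0:ℤ) + k) < 1}) +
        bigμ (⋃ i, Fail (i+1) M (M (i+1)) (L (i+1))) + bigμ G :=
          (measure_union_le _ _).trans (by gcongr; exact measure_union_le _ _)
      _ ≤ 2⁻¹ + ∑' i : ℕ, ((2:ℝ≥0∞)⁻¹)^(i+3) + 0 := by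
          rw [hG0]
          gcongr
          · rw [noLabel, pow_one]
            have : {l : ℕ | l < 1} = {0} := by ext l; simp
            rw [this, geo_singleton]
            simp
          · exact (measure_iUnion_le _).trans (ENNReal.tsum_le_tsum hFail)
      _ = 2⁻¹ + 4⁻¹ := by
          rw [add_zero]
          congr 1
          have h2 : ∀ i : ℕ, ((2:ℝ≥0∞)⁻¹)^(i+3) = 4⁻¹ * ((2:ℝ≥0∞)⁻¹)^(i+1) := by
            intro i
            rw [show i + 3 = 2 + (i + 1) by ring, pow_add]
            congr 1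
            rw [← ENNReal.inv_pow]
            norm_num
          simp only [h2]
          rw [ENNReal.tsum_mul_left, tsum_geo, mul_one]
  have h2 : (2⁻¹ + 4⁻¹ : ℝ≥0∞) < 1 := by
    have h3 : (2⁻¹ + 2⁻¹ : ℝ≥0∞) = 1 := ENNReal.inv_two_add_inv_two
    rw [← h3]
    apply ENNReal.add_lt_add_left (by simp)
    rw [ENNReal.inv_lt_inv]
    norm_num
  exact absurd (h1.trans_lt h2) (lt_irrefl _)

end Pool.Agent.H497R3
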