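import Mathlib

set_option autoImplicit false
open MeasureTheory ProbabilityTheory Filter Topology

namespace Pool.Agent.H497R3

/-- state of the walk driven by the arrow field `A`: position and visit counts -/
def st (A : ℤ → ℕ → Bool) : ℕ → ℤ × (ℤ → ℕ)
  | 0 => (0, fun _ => 0)
  | n + 1 =>
    (if A (st A n).1 ((st A n).2 (st A n).1) then (st A n).1 + 1 else (st A n).1 - 1,
      fun x => if x = (st A n).1 then (st A n).2 x + 1 else (st A n).2 x)

/-- position -/
def pos (A : ℤ → ℕ → Bool) (n : ℕ) : ℤ := (st A n).1

/-- count of previous visits -/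
def cnt (A : ℤ → ℕ → Bool) (n : ℕ) (x : ℤ) : ℕ := (st A n).2 x

theorem pos_zero (A : ℤ → ℕ → Bool) : pos A 0 = 0 := rfl

theorem pos_succ (A : ℤ → ℕ → Bool) (n : ℕ) :
    pos A (n+1) = if A (pos A n) (cnt A n (pos A n)) then pos A n + 1 else pos A n - 1 := rfl

theorem cnt_succ (A : ℤ → ℕ → Bool) (n : ℕ) (x : ℤ) :
    cnt A (n+1) x = if x = pos A n then cnt A n x + 1 else cnt A n x := rfl

theorem cnt_eq (A : ℤ → ℕ → Bool) (n : ℕ) (x : ℤ) :
    cnt A n x = ((Finset.range n).filter (fun m => pos A m = x)).card := by
  induction n with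
  | zero => simp [cnt, st]
  | succ n ih =>
    rw [cnt_succ, Finset.range_add_one, Finset.filter_insert]
    by_cases h : pos A n = x
    · rw [if_pos h.symm, if_pos h, Finset.card_insert_of_notMem (by simp), ih]
    · rw [if_neg (fun h' => h h'.symm), if_neg h, ih]

theorem cnt_mono (A : ℤ → ℕ → Bool) {m n : ℕ} (h : m ≤ n) (x : ℤ) : cnt A m x ≤ cnt A n x := by
  rw [cnt_eq, cnt_eq]
  apply Finset.card_le_card
  apply Finset.filter_subset_filter
  exact Finset.range_mono h

/-- if two arrow fields agree on the arrows used before time n, the states agree up to n -/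
theorem st_congr {A A' : ℤ → ℕ → Bool} {n : ℕ}
    (h : ∀ m, m < n → A' (pos A m) (cnt A m (pos A m)) = A (pos A m) (cnt A m (pos A m))) :
    ∀ m, m ≤ n → st A' m = st A m := by
  intro m
  induction m with
  | zero => intro _; rfl
  | succ m ih =>
    intro hm
    have e := ih (by omega)
    have h2 := h m (by omega)
    simp only [st, e]
    rw [show A' (st A m).1 ((st A m).2 (st A m).1) = A (st A m).1 ((st A m).2 (st A m).1) from h2]

/-- flipping an arrow that is about to be used does not change the past -/
theorem st_flip {A A' : ℤ → ℕ → Bool} {n : ℕ} {x : ℤ} {k : ℕ}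
    (h : ∀ y l, (y, l) ≠ (x, k) → A' y l = A y l) (hx : pos A n = x) (hk : cnt A n x = k) :
    ∀ m, m ≤ n → st A' m = st A m := by
  apply st_congr
  intro m hm
  apply h
  intro he
  have h1 : pos A m = x := (Prod.mk.inj he).1
  have h2 : cnt A m (pos A m) = k := (Prod.mk.inj he).2
  rw [h1] at h2
  have h3 := cnt_mono A (show m + 1 ≤ n from hm) x
  rw [cnt_succ, if_pos h1.symm] at h3
  omega

/-- arrows built from an environment with values in {0,1/2,1} and coins -/
noncomputable def arrows (e : ℤ → ℕ → ℝ) (c : ℤ → ℕ → Bool) : ℤ → ℕ → Bool := fun x k =>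
  if e x k = 1 then true else if e x k = 1/2 then c x k else false

/-- leftover environment -/
noncomputable def leftover (e : ℤ → ℕ → ℝ) (X : ℕ → ℤ) : ℤ → ℕ → ℝ := by
  classical
  exact if Tendsto (fun m => |X m|) atTop atTop then
    fun x n => e x (n + Nat.card {m : ℕ // X m = x}) else fun _ _ => 1/2

/-- iterated environments -/
noncomputable def envs (W : ℤ → ℕ → ℝ) (c : ℕ → ℤ → ℕ → Bool) : ℕ → ℤ → ℕ → ℝ
  | 0 => W
  | j + 1 => leftover (envs W c j) (pos (arrows (envs W c j) (c j)))

/-- measurability of evaluation at a random index in a countable set -/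
theorem measurable_eval_countable {Ω ι α : Type*} [MeasurableSpace Ω] [MeasurableSpace ι]
    [MeasurableSingletonClass ι] [Countable ι] [MeasurableSpace α]
    {f : Ω → ι → α} {g : Ω → ι} (hf : ∀ i, Measurable (fun ω => f ω i)) (hg : Measurable g) :
    Measurable (fun ω => f ω (g ω)) := by
  intro s hs
  have : (fun ω => f ω (g ω)) ⁻¹' s = ⋃ i, (g ⁻¹' {i} ∩ (fun ω => f ω i) ⁻¹' s) := by
    ext ω
    simp
  rw [this]
  exact MeasurableSet.iUnion fun i => (hg (measurableSet_singleton i)).inter (hf i hs)

theorem measurable_st {Ω : Type*} [MeasurableSpace Ω] {A : Ω → ℤ → ℕ → Bool}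
    (hA : Measurable A) (n : ℕ) : Measurable (fun ω => st (A ω) n) := by
  induction n with
  | zero => exact measurable_const
  | succ n ih =>
    have h1 : Measurable (fun ω => (st (A ω) n).1) := measurable_fst.comp ih
    have h2 : ∀ x, Measurable (fun ω => (st (A ω) n).2 x) := fun x =>
      (measurable_pi_apply x).comp (measurable_snd.comp ih)
    have h3 : Measurable (fun ω => (st (A ω) n).2 (st (A ω) n).1) :=
      measurable_eval_countable h2 h1
    have h4 : Measurable (fun ω => A ω (st (A ω) n).1 ((st (A ω) n).2 (st (A ω) n).1)) := by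
      have := measurable_eval_countable (f := fun ω (p : ℤ × ℕ) => A ω p.1 p.2)
        (g := fun ω => ((st (A ω) n).1, (st (A ω) n).2 (st (A ω) n).1))
        (fun p => (measurable_pi_apply p.2).comp ((measurable_pi_apply p.1).comp hA))
        (h1.prodMk h3)
      exact this
    apply Measurable.prodMk
    · exact Measurable.ite (h4 (measurableSet_singleton true)) (h1.add_const 1) (h1.sub_const 1)
    · apply measurable_pi_lambda
      intro x
      exact Measurable.ite (measurableSet_eq_fun measurable_const h1)
        ((h2 x).add_const 1) (h2 x)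

theorem measurable_pos {Ω : Type*} [MeasurableSpace Ω] {A : Ω → ℤ → ℕ → Bool}
    (hA : Measurable A) : Measurable (fun ω => pos (A ω)) := by
  apply measurable_pi_lambda
  intro n
  exact measurable_fst.comp (measurable_st hA n)

theorem measurable_arrows {Ω : Type*} [MeasurableSpace Ω] {e : Ω → ℤ → ℕ → ℝ}
    {c : Ω → ℤ → ℕ → Bool} (he : Measurable e) (hc : Measurable c) :
    Measurable (fun ω => arrows (e ω) (c ω)) := by
  apply measurable_pi_lambda
  intro x
  apply measurable_pi_lambda
  intro k
  have h1 : Measurable (fun ω => e ω x k) :=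
    (measurable_pi_apply k).comp ((measurable_pi_apply x).comp he)
  have h2 : Measurable (fun ω => c ω x k) :=
    (measurable_pi_apply k).comp ((measurable_pi_apply x).comp hc)
  exact Measurable.ite (h1 (measurableSet_singleton 1)) measurable_const
    (Measurable.ite (h1 (measurableSet_singleton (1/2))) h2 measurable_const)

theorem measurableSet_tendsto_abs {Ω : Type*} [MeasurableSpace Ω] {X : Ω → ℕ → ℤ}
    (hX : Measurable X) : MeasurableSet {ω | Tendsto (fun m => |X ω m|) atTop atTop} := by
  have : {ω | Tendsto (fun m => |X ω m|) atTop atTop} =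
      ⋂ K : ℤ, ⋃ N : ℕ, ⋂ m : ℕ, ⋂ (_ : N ≤ m), {ω | K ≤ |X ω m|} := by
    ext ω
    simp only [Set.mem_setOf_eq, tendsto_atTop, eventually_atTop, Set.mem_iInter, Set.mem_iUnion]
  rw [this]
  refine MeasurableSet.iInter fun K => MeasurableSet.iUnion fun N => MeasurableSet.iInter fun m =>
    MeasurableSet.iInter fun _ => ?_
  have h1 : Measurable (fun ω => X ω m) := (measurable_pi_apply m).comp hX
  have h2 : Measurable (fun z : ℤ => |z|) := measurable_of_countable _
  exact measurableSet_le measurable_const (h2.comp h1)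

theorem measurable_natCard {Ω : Type*} [MeasurableSpace Ω] {X : Ω → ℕ → ℤ}
    (hX : Measurable X) (x : ℤ) : Measurable (fun ω => Nat.card {m : ℕ // X ω m = x}) := by
  have key : ∀ k : ℕ, k ≠ 0 → {ω | Nat.card {m : ℕ // X ω m = x} = k} =
      ⋃ F : Finset ℕ, ⋃ (_ : F.card = k), ⋂ m : ℕ, {ω | X ω m = x ↔ m ∈ F} := by
    intro k hk
    ext ω
    simp only [Set.mem_setOf_eq, Set.mem_iUnion, Set.mem_iInter, exists_prop]
    constructor
    · intro h
      have hfin : Finite {m : ℕ // X ω m = x} := by
        by_contra hinf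
        rw [not_finite_iff_infinite] at hinf
        rw [Nat.card_eq_zero_of_infinite] at h
        exact hk h.symm
      have hfin' : {m : ℕ | X ω m = x}.Finite := hfin
      refine ⟨hfin'.toFinset, ?_, ?_⟩
      · rw [← h, ← Set.ncard_eq_toFinset_card _ hfin']
        rfl
      · intro m
        simp
    · rintro ⟨F, hF, h⟩
      rw [← hF]
      have : {m : ℕ | X ω m = x} = (F : Set ℕ) := by
        ext m
        simp [h m]
      have h2 : Nat.card {m : ℕ // X ω m = x} = Nat.card (F : Set ℕ) := by
        rw [← this]; rfl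
      rw [h2]
      simp
  have meas : ∀ k : ℕ, k ≠ 0 → MeasurableSet {ω | Nat.card {m : ℕ // X ω m = x} = k} := by
    intro k hk
    rw [key k hk]
    refine MeasurableSet.iUnion fun F => MeasurableSet.iUnion fun _ => MeasurableSet.iInter
      fun m => ?_
    have h1 : Measurable (fun ω => X ω m) := (measurable_pi_apply m).comp hX
    by_cases hm : m ∈ F
    · simp only [hm, iff_true]
      exact h1 (measurableSet_singleton x)
    · simp only [hm, iff_false]
      exact (h1 (measurableSet_singleton x)).compl
  apply measurable_to_countable'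
  intro k
  by_cases hk : k = 0
  · have : (fun ω => Nat.card {m : ℕ // X ω m = x}) ⁻¹' {k} =
        (⋃ l : ℕ, ⋃ (_ : l ≠ 0), {ω | Nat.card {m : ℕ // X ω m = x} = l})ᶜ := by
      ext ω
      simp only [Set.mem_preimage, Set.mem_singleton_iff, Set.mem_compl_iff, Set.mem_iUnion,
        Set.mem_setOf_eq, exists_prop, not_exists, not_and]
      constructor
      · intro h l hl h'
        exact hl (by rw [← h', h, hk])
      · intro h
        by_contra h'
        exact h _ (by rw [hk] at h'; exact h') rfl
    rw [this]
    exact (MeasurableSet.iUnion fun l => MeasurableSet.iUnion fun hl => meas l hl).compl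
  · exact meas k hk

theorem measurable_leftover {Ω : Type*} [MeasurableSpace Ω] {e : Ω → ℤ → ℕ → ℝ}
    {X : Ω → ℕ → ℤ} (he : Measurable e) (hX : Measurable X) :
    Measurable (fun ω => leftover (e ω) (X ω)) := by
  classical
  apply measurable_pi_lambda
  intro x
  apply measurable_pi_lambda
  intro n
  have h1 : ∀ k, Measurable (fun ω => e ω x k) := fun k =>
    (measurable_pi_apply k).comp ((measurable_pi_apply x).comp he)
  have h2 : Measurable (fun ω => e ω x (n + Nat.card {m : ℕ // X ω m = x})) :=
    measurable_eval_countable (f := fun ω k => e ω x k) h1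
      ((measurable_natCard hX x).const_add n)
  have h3 : (fun ω => leftover (e ω) (X ω) x n) = fun ω =>
      if Tendsto (fun m => |X ω m|) atTop atTop then
        e ω x (n + Nat.card {m : ℕ // X ω m = x}) else 1/2 := by
    funext ω
    unfold leftover
    split_ifs <;> rfl
  rw [h3]
  exact Measurable.ite (measurableSet_tendsto_abs hX) h2 measurable_const

theorem measurable_envs {Ω : Type*} [MeasurableSpace Ω] {W : Ω → ℤ → ℕ → ℝ}
    {c : Ω → ℕ → ℤ → ℕ → Bool} (hW : Measurable W) (hc : Measurable c) (j : ℕ) :
    Measurable (fun ω => envs (W ω) (c ω) j) := by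
  induction j with
  | zero => exact hW
  | succ j ih =>
    have h1 : Measurable (fun ω => c ω j) := (measurable_pi_apply j).comp hc
    exact measurable_leftover ih (measurable_pos (measurable_arrows ih h1))

/-- values of the environments stay in {0,1/2,1} -/
theorem envs_values {W : ℤ → ℕ → ℝ} {c : ℕ → ℤ → ℕ → Bool}
    (hW : ∀ x k, W x k = 0 ∨ W x k = 1/2 ∨ W x k = 1) (j : ℕ) :
    ∀ x k, envs W c j x k = 0 ∨ envs W c j x k = 1/2 ∨ envs W c j x k = 1 := by
  classical
  induction j with
  | zero => exact hW
  | succ j ih =>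
    intro x k
    simp only [envs, leftover]
    split_ifs
    · exact ih _ _
    · right; left; rfl

/-- the environments and walks with smaller index only depend on earlier coins -/
theorem envs_congr {W : ℤ → ℕ → ℝ} {c c' : ℕ → ℤ → ℕ → Bool} {j : ℕ}
    (h : ∀ i, i < j → c i = c' i) : ∀ i, i ≤ j → envs W c i = envs W c' i := by
  intro i
  induction i with
  | zero => intro _; rfl
  | succ i ih =>
    intro hi
    simp only [envs]
    rw [ih (by omega), h i (by omega)]

end Pool.Agent.H497R3
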